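import Pool.Agent.Y413.PO.Chain

set_option autoImplicit false
set_option linter.dupNamespace false

/-!
The graph obtained from a cubic graph by replacing every vertex by a rooted graph.
-/

open Finset

namespace Pool.Agent.Y413.PO

open Pool.Agent.H160R2.CC Pool.Agent.H160R2.CC.MGraph

/-- the number of an edge in a star -/
def idx {E : Type} [DecidableEq E] (a : Fin 3 → E) (e : E) : Fin 3 :=
  if e = a 0 then 0 else if e = a 1 then 1 else 2

lemma idx_eq {E : Type} [DecidableEq E] {a : Fin 3 → E} (ha : Function.Injective a) (k : Fin 3) :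
    idx a (a k) = k := by
  have h01 : a 0 ≠ a 1 := fun h => absurd (ha h) (by decide)
  have h02 : a 0 ≠ a 2 := fun h => absurd (ha h) (by decide)
  have h12 : a 1 ≠ a 2 := fun h => absurd (ha h) (by decide)
  unfold idx
  fin_cases k
  · simp
  · simp [h01.symm]
  · simp [h02.symm, h12.symm]

/-- place a redirected end -/
def plc {R : MGraph} (W : R.V → Rt) (v : R.V) (z : (W v).G.V ⊕ Fin 3) :
    (Σ v : R.V, (W v).G.V) ⊕ (R.V × Fin 3) :=
  Sum.elim (fun y => Sum.inl ⟨v, y⟩) (fun k => Sum.inr (v, k)) z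

/-- replace every vertex `v` of `R` by `W v` -/
def am (R : MGraph) (a : R.V → Fin 3 → R.E) (W : R.V → Rt) : MGraph where
  V := (Σ v : R.V, (W v).G.V) ⊕ (R.V × Fin 3)
  E := R.E ⊕ Σ v : R.V, (W v).G.E
  src := Sum.elim (fun e => Sum.inr (R.src e, idx (a (R.src e)) e))
    (fun x => plc W x.1 (rd (W x.1).v (W x.1).a ((W x.1).G.src x.2) x.2))
  tgt := Sum.elim (fun e => Sum.inr (R.tgt e, idx (a (R.tgt e)) e))
    (fun x => plc W x.1 (rd (W x.1).v (W x.1).a ((W x.1).G.tgt x.2) x.2))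

section
variable {R : MGraph} {a : R.V → Fin 3 → R.E} {W : R.V → Rt}

lemma plc_inl {v v' : R.V} {y : (W v).G.V} {z : (W v').G.V ⊕ Fin 3} (hne : v' ≠ v) :
    plc W v' z ≠ Sum.inl ⟨v, y⟩ := by
  rcases z with z | z
  · intro h
    apply hne
    have := Sum.inl_injective h
    exact congrArg Sigma.fst this
  · intro h; cases h

lemma plc_inl' {v : R.V} {y : (W v).G.V} {z : (W v).G.V ⊕ Fin 3} :
    plc W v z = Sum.inl ⟨v, y⟩ ↔ z = Sum.inl y := by
  rcases z with z | z
  · constructor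
    · intro h
      have := Sum.inl_injective h
      have h2 : z = y := by simpa using this
      rw [h2]
    · intro h
      rw [Sum.inl_injective h]; rfl
  · constructor
    · intro h; cases h
    · intro h; cases h

lemma plc_inr {v v' : R.V} {k : Fin 3} {z : (W v').G.V ⊕ Fin 3} :
    plc W v' z = Sum.inr (v, k) ↔ v' = v ∧ z = Sum.inr k := by
  rcases z with z | z
  · constructor
    · intro h; cases h
    · rintro ⟨_, h⟩; cases h
  · constructor
    · intro h
      have := Sum.inr_injective h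
      rw [Prod.mk.injEq] at this
      exact ⟨this.1, by rw [this.2]⟩
    · rintro ⟨rfl, h⟩
      rw [Sum.inr_injective h]; rfl

lemma am_inc_mR (ha : ∀ v, R.IsStar v (a v)) (v : R.V) (k : Fin 3) (e : R.E) :
    (am R a W).inc (Sum.inr (v, k)) (Sum.inl e) = if e = a v k then 1 else 0 := by
  have key : ∀ x : R.V, ((Sum.inr (x, idx (a x) e) : (Σ v : R.V, (W v).G.V) ⊕ (R.V × Fin 3)) =
      Sum.inr (v, k)) ↔ (x = v ∧ idx (a v) e = k) := by
    intro x
    constructor
    · intro h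
      have := Sum.inr_injective h
      rw [Prod.mk.injEq] at this
      obtain ⟨rfl, h2⟩ := this
      exact ⟨rfl, h2⟩
    · rintro ⟨rfl, h⟩
      rw [h]
  change (if (Sum.inr (R.src e, idx (a (R.src e)) e) : (Σ v : R.V, (W v).G.V) ⊕ (R.V × Fin 3)) =
      Sum.inr (v, k) then (1 : ZMod 2) else 0) +
    (if (Sum.inr (R.tgt e, idx (a (R.tgt e)) e) : (Σ v : R.V, (W v).G.V) ⊕ (R.V × Fin 3)) =
      Sum.inr (v, k) then 1 else 0) = _
  simp only [key]
  have hinc := (ha v).2 e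
  unfold inc at hinc
  by_cases hi : idx (a v) e = k
  · simp only [hi, and_true]
    rw [hinc]
    by_cases he : ∃ i, a v i = e
    · obtain ⟨i, rfl⟩ := he
      rw [idx_eq (ha v).1] at hi
      rw [if_pos ⟨i, rfl⟩, hi, if_pos rfl]
    · rw [if_neg he, if_neg (fun h => he ⟨k, h.symm⟩)]
  · simp only [hi, and_false, if_false, add_zero]
    rw [if_neg]
    rintro rfl
    exact hi (idx_eq (ha v).1 k)

lemma am_inc_WR (v : R.V) (y : (W v).G.V) (e : R.E) :
    (am R a W).inc (Sum.inl ⟨v, y⟩) (Sum.inl e) = 0 := by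
  change (if (Sum.inr (R.src e, idx (a (R.src e)) e) : (Σ v : R.V, (W v).G.V) ⊕ (R.V × Fin 3)) =
      Sum.inl ⟨v, y⟩ then (1 : ZMod 2) else 0) +
    (if (Sum.inr (R.tgt e, idx (a (R.tgt e)) e) : (Σ v : R.V, (W v).G.V) ⊕ (R.V × Fin 3)) =
      Sum.inl ⟨v, y⟩ then 1 else 0) = _
  simp

lemma am_inc_mW (v : R.V) (k : Fin 3) (x : (W v).G.E) :
    (am R a W).inc (Sum.inr (v, k)) (Sum.inr ⟨v, x⟩) = if x = (W v).a k then 1 else 0 := by
  have key : ∀ y, (plc W v (rd (W v).v (W v).a y x) = Sum.inr (v, k)) ↔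
      (y = (W v).v ∧ (W v).a k = x) := by
    intro y
    rw [plc_inr, rd_inr _ _ (W v).ha.1]
    simp
  change (if plc W v (rd (W v).v (W v).a ((W v).G.src x) x) = Sum.inr (v, k)
      then (1 : ZMod 2) else 0) +
    (if plc W v (rd (W v).v (W v).a ((W v).G.tgt x) x) = Sum.inr (v, k) then 1 else 0) = _
  simp only [key]
  by_cases h : x = (W v).a k
  · subst h
    have := (W v).ha.2 ((W v).a k)
    rw [if_pos ⟨k, rfl⟩] at this
    unfold inc at this
    simpa using this
  · simp [h, Ne.symm h]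

lemma am_inc_mW' {v v' : R.V} (hne : v' ≠ v) (k : Fin 3) (x : (W v').G.E) :
    (am R a W).inc (Sum.inr (v, k)) (Sum.inr ⟨v', x⟩) = 0 := by
  have key : ∀ z, ¬ (plc W v' z = Sum.inr (v, k)) := by
    intro z hz
    exact hne (plc_inr.1 hz).1
  change (if plc W v' (rd (W v').v (W v').a ((W v').G.src x) x) = Sum.inr (v, k)
      then (1 : ZMod 2) else 0) +
    (if plc W v' (rd (W v').v (W v').a ((W v').G.tgt x) x) = Sum.inr (v, k) then 1 else 0) = _
  simp [key]

lemma am_inc_WW (v : R.V) (y : (W v).G.V) (x : (W v).G.E) :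
    (am R a W).inc (Sum.inl ⟨v, y⟩) (Sum.inr ⟨v, x⟩) =
      if y = (W v).v then 0 else (W v).G.inc y x := by
  have key : ∀ y', (plc W v (rd (W v).v (W v).a y' x) = Sum.inl ⟨v, y⟩) ↔
      (y' = y ∧ ¬ (y' = (W v).v ∧ ∃ i, (W v).a i = x)) := by
    intro y'
    rw [plc_inl', rd_inl]
  change (if plc W v (rd (W v).v (W v).a ((W v).G.src x) x) = Sum.inl ⟨v, y⟩
      then (1 : ZMod 2) else 0) +
    (if plc W v (rd (W v).v (W v).a ((W v).G.tgt x) x) = Sum.inl ⟨v, y⟩ then 1 else 0) = _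
  simp only [key]
  by_cases hw : y = (W v).v
  · subst hw
    simp only [if_true]
    by_cases hr : ∃ i, (W v).a i = x
    · simp [hr]
    · have := (W v).ha.2 x
      rw [if_neg hr] at this
      unfold inc at this
      simpa [hr] using this
  · simp only [hw, if_false, inc]
    congr 1
    · by_cases h : (W v).G.src x = y
      · have : ¬ (W v).G.src x = (W v).v := by rw [h]; exact hw
        simp [h, hw]
      · simp [h]
    · by_cases h : (W v).G.tgt x = y
      · have : ¬ (W v).G.tgt x = (W v).v := by rw [h]; exact hw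
        simp [h, hw]
      · simp [h]

lemma am_inc_WW' {v v' : R.V} (hne : v' ≠ v) (y : (W v).G.V) (x : (W v').G.E) :
    (am R a W).inc (Sum.inl ⟨v, y⟩) (Sum.inr ⟨v', x⟩) = 0 := by
  change (if plc W v' (rd (W v').v (W v').a ((W v').G.src x) x) = Sum.inl ⟨v, y⟩
      then (1 : ZMod 2) else 0) +
    (if plc W v' (rd (W v').v (W v').a ((W v').G.tgt x) x) = Sum.inl ⟨v, y⟩ then 1 else 0) = _
  rw [if_neg (plc_inl hne), if_neg (plc_inl hne), add_zero]

lemma am_bd_m (ha : ∀ v, R.IsStar v (a v)) (ψ : (am R a W).E → ZMod 2) (v : R.V) (k : Fin 3) :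
    (am R a W).bd ψ (Sum.inr (v, k)) = ψ (Sum.inl (a v k)) + ψ (Sum.inr ⟨v, (W v).a k⟩) := by
  change ∑ e : R.E ⊕ (Σ v : R.V, (W v).G.E), (am R a W).inc (Sum.inr (v, k)) e * ψ e = _
  rw [Fintype.sum_sum_type, Fintype.sum_sigma]
  congr 1
  · simp_rw [am_inc_mR ha, ite_mul, one_mul, zero_mul]
    rw [Finset.sum_ite_eq']
    simp
  · rw [Finset.sum_eq_single v]
    · simp_rw [am_inc_mW, ite_mul, one_mul, zero_mul]
      rw [Finset.sum_ite_eq']
      simp
    · intro v' _ hne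
      refine Finset.sum_eq_zero (fun x _ => ?_)
      rw [am_inc_mW' hne, zero_mul]
    · intro h; exact absurd (Finset.mem_univ _) h

lemma am_bd_W (ψ : (am R a W).E → ZMod 2) (v : R.V) (y : (W v).G.V) :
    (am R a W).bd ψ (Sum.inl ⟨v, y⟩) =
      if y = (W v).v then 0 else (W v).G.bd (fun x => ψ (Sum.inr ⟨v, x⟩)) y := by
  change ∑ e : R.E ⊕ (Σ v : R.V, (W v).G.E), (am R a W).inc (Sum.inl ⟨v, y⟩) e * ψ e = _
  rw [Fintype.sum_sum_type, Fintype.sum_sigma]
  simp_rw [am_inc_WR, zero_mul]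
  rw [Finset.sum_const_zero, zero_add, Finset.sum_eq_single v]
  · simp_rw [am_inc_WW]
    by_cases hy : y = (W v).v
    · simp [hy]
    · simp [hy, bd]
  · intro v' _ hne
    refine Finset.sum_eq_zero (fun x _ => ?_)
    rw [am_inc_WW' hne, zero_mul]
  · intro h; exact absurd (Finset.mem_univ _) h

lemma am_cW (v : R.V) : CC (W v).G (am R a W) (fun x => Sum.inr ⟨v, x⟩) := by
  intro ψ hψ
  have h1 : ∀ y, y ≠ (W v).v → (W v).G.bd (fun x => ψ (Sum.inr ⟨v, x⟩)) y = 0 := by
    intro y hy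
    have := hψ (Sum.inl ⟨v, y⟩)
    rw [am_bd_W, if_neg hy] at this
    exact this
  intro y
  by_cases hy : y = (W v).v
  · rw [hy]; exact bd_eq_zero_of_others _ h1
  · exact h1 y hy

lemma am_eq (ha : ∀ v, R.IsStar v (a v)) {ψ : (am R a W).E → ZMod 2} (hψ : (am R a W).Flow ψ)
    (v : R.V) (k : Fin 3) : ψ (Sum.inl (a v k)) = ψ (Sum.inr ⟨v, (W v).a k⟩) := by
  have := hψ (Sum.inr (v, k))
  rw [am_bd_m ha] at this
  exact z2_eq_of_add _ _ this

theorem am_amal (ha : ∀ v, R.IsStar v (a v)) (hR : R.Bridgeless) (hW : ∀ v, (W v).G.Bridgeless) :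
    Amal (am R a W) R R.V (fun v => (W v).G) Sum.inl (fun v x => Sum.inr ⟨v, x⟩) a
      (fun v => (W v).a) where
  surj := by
    rintro (e | ⟨v, x⟩)
    · exact Or.inl ⟨e, rfl⟩
    · exact Or.inr ⟨v, x, rfl⟩
  cR := by
    intro ψ hψ v
    rw [star_sum (ha v)]
    have h1 := am_cW v ψ hψ (W v).v
    rw [star_sum (W v).ha] at h1
    change ψ (Sum.inl (a v 0)) + ψ (Sum.inl (a v 1)) + ψ (Sum.inl (a v 2)) = 0
    rw [am_eq ha hψ, am_eq ha hψ, am_eq ha hψ]
    exact h1
  cW := fun v => am_cW v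
  eq := fun ψ hψ v k => am_eq ha hψ v k
  flow := by
    intro φ χ hφ hχ hm
    refine ⟨Sum.elim φ (fun x => χ x.1 x.2), ?_, fun _ => rfl, fun _ _ => rfl⟩
    rintro (⟨v, y⟩ | ⟨v, k⟩)
    · rw [am_bd_W]
      by_cases hy : y = (W v).v
      · rw [if_pos hy]
      · rw [if_neg hy]; exact hχ v y
    · rw [am_bd_m ha]
      change φ (a v k) + χ v ((W v).a k) = 0
      rw [hm v k]; exact z2_add_self _
  brR := hR
  brW := hW
  stR := fun v => ⟨v, ha v⟩
  stW := fun v => ⟨(W v).v, (W v).ha⟩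

end

end Pool.Agent.Y413.PO
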