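import Pool.Agent.Y413.PO.Side

set_option autoImplicit false
set_option linter.dupNamespace false

/-!
Amalgams of a base graph with several graphs along stars, described by their flows. A map from a
piece to an amalgam factors through the base graph or through one of the attached graphs.
-/

open Finset

namespace Pool.Agent.Y413.PO

open Pool.Agent.H160R2.CC Pool.Agent.H160R2.CC.MGraph

/-- all flows agree at the two edges -/
def Eqv (G : MGraph) (e e' : G.E) : Prop := ∀ φ, G.Flow φ → φ e = φ e'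

lemma Eqv.symm {G : MGraph} {e e' : G.E} (h : Eqv G e e') : Eqv G e' e := fun φ hφ => (h φ hφ).symm

lemma Eqv.trans {G : MGraph} {e e' e'' : G.E} (h : Eqv G e e') (h' : Eqv G e' e'') : Eqv G e e'' :=
  fun φ hφ => (h φ hφ).trans (h' φ hφ)

lemma Eqv.refl {G : MGraph} (e : G.E) : Eqv G e e := fun _ _ => rfl

lemma Eqv.map {G H : MGraph} {f : G.E → H.E} (hf : CC G H f) {e e' : G.E} (h : Eqv G e e') :
    Eqv H (f e) (f e') := fun φ hφ => h _ (hf φ hφ)

lemma not_eqv {G : MGraph} {e e' : G.E} (h : ¬ Eqv G e e') : ∃ φ, G.Flow φ ∧ φ e ≠ φ e' := by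
  unfold Eqv at h
  push Not at h
  exact h

/-- the amalgam `S` of `R` with the graphs `W i`: the edge `a i k` is in series with `b i k` -/
structure Amal (S R : MGraph) (I : Type) (W : I → MGraph) (ρ : R.E → S.E)
    (ω : ∀ i, (W i).E → S.E) (a : I → Fin 3 → R.E) (b : ∀ i, Fin 3 → (W i).E) : Prop where
  surj : ∀ e : S.E, (∃ x, e = ρ x) ∨ ∃ i x, e = ω i x
  cR : CC R S ρ
  cW : ∀ i, CC (W i) S (ω i)
  eq : ∀ ψ, S.Flow ψ → ∀ i k, ψ (ρ (a i k)) = ψ (ω i (b i k))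
  flow : ∀ (φ : R.E → ZMod 2) (χ : ∀ i, (W i).E → ZMod 2), R.Flow φ → (∀ i, (W i).Flow (χ i)) →
    (∀ i k, φ (a i k) = χ i (b i k)) →
    ∃ ψ, S.Flow ψ ∧ (∀ x, ψ (ρ x) = φ x) ∧ ∀ i x, ψ (ω i x) = χ i x
  brR : R.Bridgeless
  brW : ∀ i, (W i).Bridgeless
  stR : ∀ i, ∃ v, R.IsStar v (a i)
  stW : ∀ i, ∃ v, (W i).IsStar v (b i)

lemma sep_aux : ∀ k l : Fin 3, k ≠ l → ∃ t : Fin 3 → ZMod 2, t 0 + t 1 + t 2 = 0 ∧ t k ≠ t l := by
  decide

/-- the edges of a star in a bridgeless graph are pairwise inequivalent -/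
lemma star_ne {G : MGraph} (hG : G.Bridgeless) {v : G.V} {a : Fin 3 → G.E} (ha : G.IsStar v a)
    {k l : Fin 3} (h : Eqv G (a k) (a l)) : k = l := by
  by_contra hne
  obtain ⟨t, ht, hkl⟩ := sep_aux k l hne
  obtain ⟨φ, hφ, h1⟩ := pairs hG ha t ht
  apply hkl
  rw [← h1, ← h1]
  exact h φ hφ

namespace Amal

variable {S R : MGraph} {I : Type} {W : I → MGraph} {ρ : R.E → S.E} {ω : ∀ i, (W i).E → S.E}
  {a : I → Fin 3 → R.E} {b : ∀ i, Fin 3 → (W i).E} (h : Amal S R I W ρ ω a b)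

include h

lemma sumR (i : I) {φ : R.E → ZMod 2} (hφ : R.Flow φ) : φ (a i 0) + φ (a i 1) + φ (a i 2) = 0 := by
  obtain ⟨v, hv⟩ := h.stR i
  rw [← star_sum hv]
  exact hφ v

lemma sumW (i : I) {φ : (W i).E → ZMod 2} (hφ : (W i).Flow φ) :
    φ (b i 0) + φ (b i 1) + φ (b i 2) = 0 := by
  obtain ⟨v, hv⟩ := h.stW i
  rw [← star_sum hv]
  exact hφ v

lemma extR {φ : R.E → ZMod 2} (hφ : R.Flow φ) : ∃ ψ, S.Flow ψ ∧ ∀ x, ψ (ρ x) = φ x := by
  have : ∀ i, ∃ χ, (W i).Flow χ ∧ ∀ k, χ (b i k) = φ (a i k) := by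
    intro i
    obtain ⟨v, hv⟩ := h.stW i
    exact pairs (h.brW i) hv (fun k => φ (a i k)) (h.sumR i hφ)
  choose χ h1 h2 using this
  obtain ⟨ψ, h3, h4, -⟩ := h.flow φ χ hφ h1 (fun i k => (h2 i k).symm)
  exact ⟨ψ, h3, h4⟩

lemma extW (i : I) {χ₀ : (W i).E → ZMod 2} (hχ : (W i).Flow χ₀) :
    ∃ ψ, S.Flow ψ ∧ ∀ x, ψ (ω i x) = χ₀ x := by
  classical
  obtain ⟨v, hv⟩ := h.stR i
  obtain ⟨φ, hφ, hφ2⟩ := pairs h.brR hv (fun k => χ₀ (b i k)) (h.sumW i hχ)
  have : ∀ j, ∃ χ, (W j).Flow χ ∧ ∀ k, χ (b j k) = φ (a j k) := by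
    intro j
    obtain ⟨v, hv⟩ := h.stW j
    exact pairs (h.brW j) hv (fun k => φ (a j k)) (h.sumR j hφ)
  choose χ h1 h2 using this
  obtain ⟨ψ, h3, -, h5⟩ := h.flow φ (Function.update χ i χ₀) hφ (fun j => by
    by_cases hj : j = i
    · subst hj
      rw [Function.update_self]; exact hχ
    · rw [Function.update_of_ne hj]; exact h1 j) (fun j k => by
    by_cases hj : j = i
    · subst hj
      rw [Function.update_self]; exact hφ2 k
    · rw [Function.update_of_ne hj]; exact (h2 j k).symm)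
  refine ⟨ψ, h3, fun x => ?_⟩
  rw [h5, Function.update_self]

lemma zeroW (i : I) {ψ : S.E → ZMod 2} (hψ : S.Flow ψ) (h0 : ∀ k, ψ (ρ (a i k)) = 0) :
    ∃ ψ', S.Flow ψ' ∧ (∀ x, ψ' (ρ x) = ψ (ρ x)) ∧ (∀ j, j ≠ i → ∀ x, ψ' (ω j x) = ψ (ω j x)) ∧
      ∀ x, ψ' (ω i x) = 0 := by
  classical
  obtain ⟨ψ', h3, h4, h5⟩ := h.flow (ψ ∘ ρ) (Function.update (fun j => ψ ∘ ω j) i (fun _ => 0))
    (h.cR ψ hψ) (fun j => by
    by_cases hj : j = i
    · subst hj
      rw [Function.update_self]; exact Flow.zero _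
    · rw [Function.update_of_ne hj]; exact h.cW j ψ hψ) (fun j k => by
    by_cases hj : j = i
    · subst hj
      rw [Function.update_self]; exact h0 k
    · rw [Function.update_of_ne hj]; exact h.eq ψ hψ j k)
  refine ⟨ψ', h3, h4, fun j hj x => ?_, fun x => ?_⟩
  · rw [h5, Function.update_of_ne hj]; rfl
  · rw [h5, Function.update_self]

lemma onlyW (i : I) {χ₀ : (W i).E → ZMod 2} (hχ : (W i).Flow χ₀) (h0 : ∀ k, χ₀ (b i k) = 0) :
    ∃ ψ, S.Flow ψ ∧ (∀ x, ψ (ρ x) = 0) ∧ (∀ j, j ≠ i → ∀ x, ψ (ω j x) = 0) ∧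
      ∀ x, ψ (ω i x) = χ₀ x := by
  classical
  obtain ⟨ψ, h3, h4, h5⟩ := h.flow (fun _ => 0) (Function.update (fun _ _ => 0) i χ₀)
    (Flow.zero R) (fun j => by
    by_cases hj : j = i
    · subst hj
      rw [Function.update_self]; exact hχ
    · rw [Function.update_of_ne hj]; exact Flow.zero _) (fun j k => by
    by_cases hj : j = i
    · subst hj
      rw [Function.update_self]; exact (h0 k).symm
    · rw [Function.update_of_ne hj])
  refine ⟨ψ, h3, h4, fun j hj x => ?_, fun x => ?_⟩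
  · rw [h5, Function.update_of_ne hj]
  · rw [h5, Function.update_self]

lemma br : S.Bridgeless := by
  intro e
  rcases h.surj e with ⟨x, rfl⟩ | ⟨i, x, rfl⟩
  · obtain ⟨φ, hφ, h1⟩ := h.brR x
    obtain ⟨ψ, hψ, h2⟩ := h.extR hφ
    exact ⟨ψ, hψ, (h2 x).trans h1⟩
  · obtain ⟨φ, hφ, h1⟩ := h.brW i x
    obtain ⟨ψ, hψ, h2⟩ := h.extW i hφ
    exact ⟨ψ, hψ, (h2 x).trans h1⟩

lemma eqvR {x y : R.E} (he : Eqv S (ρ x) (ρ y)) : Eqv R x y := by
  intro φ hφ
  obtain ⟨ψ, hψ, h2⟩ := h.extR hφ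
  rw [← h2, ← h2]; exact he ψ hψ

lemma eqvW {i : I} {x y : (W i).E} (he : Eqv S (ω i x) (ω i y)) : Eqv (W i) x y := by
  intro φ hφ
  obtain ⟨ψ, hψ, h2⟩ := h.extW i hφ
  rw [← h2, ← h2]; exact he ψ hψ

lemma junc (i : I) (k : Fin 3) : Eqv S (ρ (a i k)) (ω i (b i k)) := fun ψ hψ => h.eq ψ hψ i k

/-- an edge of `W i` equivalent to an edge outside of it is equivalent to an edge of its star -/
lemma outW {i : I} {x : (W i).E} {e : S.E} (he : Eqv S (ω i x) e)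
    (hout : (∃ y, e = ρ y) ∨ ∃ j y, j ≠ i ∧ e = ω j y) : ∃ k, Eqv (W i) x (b i k) := by
  by_contra hcon
  push Not at hcon
  obtain ⟨χ, hχ, h0, h1⟩ := M1 (b i) (fun φ hφ => h.sumW i hφ) x (h.brW i x)
    (fun k => not_eqv (hcon k))
  obtain ⟨ψ, hψ, h2, h3, h4⟩ := h.onlyW i hχ h0
  have h5 := he ψ hψ
  rw [h4, h1] at h5
  rcases hout with ⟨y, rfl⟩ | ⟨j, y, hj, rfl⟩
  · rw [h2] at h5; exact absurd h5 (by decide)
  · rw [h3 j hj] at h5; exact absurd h5 (by decide)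

lemma outR {i : I} {x : R.E} {y : (W i).E} (he : Eqv S (ρ x) (ω i y)) : ∃ k, Eqv R x (a i k) := by
  obtain ⟨k, hk⟩ := h.outW he.symm (Or.inl ⟨x, rfl⟩)
  refine ⟨k, h.eqvR ?_⟩
  exact (he.trans (hk.map (h.cW i))).trans (h.junc i k).symm

/-- equivalent edges of two different attached graphs come from equivalent edges of the base -/
lemma WW {i j : I} (hij : i ≠ j) {x : (W i).E} {y : (W j).E} (he : Eqv S (ω i x) (ω j y)) :
    ∃ k l, Eqv (W i) x (b i k) ∧ Eqv (W j) y (b j l) ∧ Eqv R (a i k) (a j l) := by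
  obtain ⟨k, hk⟩ := h.outW he (Or.inr ⟨j, y, hij.symm, rfl⟩)
  obtain ⟨l, hl⟩ := h.outW he.symm (Or.inr ⟨i, x, hij, rfl⟩)
  refine ⟨k, l, hk, hl, h.eqvR ?_⟩
  refine (h.junc i k).trans ((hk.map (h.cW i)).symm.trans (he.trans ((hl.map (h.cW j)).trans ?_)))
  exact (h.junc j l).symm

/-- factorisation of maps from pieces -/
theorem factor {Z : MGraph} (hZ : Piece Z) {f : Z.E → S.E} (hf : CC Z S f) :
    (∃ g : Z.E → R.E, CC Z R g ∧ ∀ e, Eqv S (f e) (ρ (g e))) ∨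
      ∃ i, ∃ g : Z.E → (W i).E, CC Z (W i) g ∧ ∀ e, Eqv S (f e) (ω i (g e)) := by
  classical
  have hbr := h.br
  -- the three edges near `i`
  have key : ∀ i, (∀ e, ¬ (∃ x, f e = ω i x ∧ ∀ k, ¬ Eqv (W i) x (b i k))) ∨
      (∀ e, (∃ x, f e = ω i x ∧ ∀ k, ¬ Eqv (W i) x (b i k)) ∨ ∃ k, Eqv S (f e) (ρ (a i k))) := by
    intro i
    refine hZ.L1 hf (fun g => ∃ x, g = ω i x ∧ ∀ k, ¬ Eqv (W i) x (b i k))
      (fun g => ∃ k, Eqv S g (ρ (a i k))) ?_ ?_ ?_
    · intro s hs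
      have : ∀ e : Z.E, ∃ k : Fin 3, e ∈ s → Eqv S (f e) (ρ (a i k)) := by
        intro e
        by_cases he : e ∈ s
        · obtain ⟨k, hk⟩ := (hs e he).2
          exact ⟨k, fun _ => hk⟩
        · exact ⟨0, fun h' => absurd h' he⟩
      choose κ hκ using this
      have hinj : Set.InjOn κ s := by
        intro e he e' he' hee
        refine hZ.mn.inj' hbr hf ?_
        have h1 := hκ e he
        have h2 := hκ e' he'
        rw [hee] at h1
        exact h1.trans h2.symm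
      have := Finset.card_le_card_of_injOn κ (t := univ) (fun _ _ => Finset.mem_univ _) hinj
      simpa using this
    · rintro g ⟨x, rfl, hx⟩
      obtain ⟨χ, hχ, h0, h1⟩ := M1 (b i) (fun φ hφ => h.sumW i hφ) x (h.brW i x)
        (fun k => not_eqv (hx k))
      obtain ⟨ψ, hψ, h2, h3, h4⟩ := h.onlyW i hχ h0
      refine ⟨ψ, hψ, fun e he => ?_, (h4 x).trans h1⟩
      rcases h.surj e with ⟨y, rfl⟩ | ⟨j, y, rfl⟩
      · exact h2 y
      · by_cases hj : j = i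
        · subst hj
          rw [h4]
          by_contra hne
          apply he
          refine ⟨y, rfl, fun k hk => hne ?_⟩
          rw [hk χ hχ]; exact h0 k
        · exact h3 j hj y
    · intro g hg1 hg2
      push Not at hg2
      obtain ⟨ψ, hψ, h0, h1⟩ := M1 (fun k => ρ (a i k)) (fun φ hφ => h.sumR i (h.cR φ hφ)) g
        (hbr g) (fun k => not_eqv (hg2 k))
      obtain ⟨ψ', hψ', h2, h3, h4⟩ := h.zeroW i hψ h0
      refine ⟨ψ', hψ', ?_, ?_⟩
      · rintro e ⟨x, rfl, -⟩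
        exact h4 x
      · rcases h.surj g with ⟨y, rfl⟩ | ⟨j, y, rfl⟩
        · rw [h2]; exact h1
        · by_cases hj : j = i
          · subst hj
            exfalso
            apply hg1
            refine ⟨y, rfl, fun k hk => hg2 k ?_⟩
            exact (hk.map (h.cW j)).trans (h.junc j k).symm
          · rw [h3 j hj]; exact h1
  by_cases hex : ∃ i, ∀ e, (∃ x, f e = ω i x ∧ ∀ k, ¬ Eqv (W i) x (b i k)) ∨
      ∃ k, Eqv S (f e) (ρ (a i k))
  · obtain ⟨i, hi⟩ := hex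
    right
    have : ∀ e, ∃ x : (W i).E, Eqv S (f e) (ω i x) := by
      intro e
      rcases hi e with ⟨x, hx, -⟩ | ⟨k, hk⟩
      · exact ⟨x, by rw [hx]; exact Eqv.refl _⟩
      · exact ⟨b i k, hk.trans (h.junc i k)⟩
    choose g hg using this
    refine ⟨i, g, fun χ hχ => ?_, hg⟩
    obtain ⟨ψ, hψ, h1⟩ := h.extW i hχ
    have h2 : χ ∘ g = ψ ∘ f := by
      funext e
      simp only [Function.comp_apply]
      rw [hg e ψ hψ, h1]
    rw [h2]; exact hf ψ hψ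
  · left
    push Not at hex
    have : ∀ e, ∃ x : R.E, Eqv S (f e) (ρ x) := by
      intro e
      rcases h.surj (f e) with ⟨y, hy⟩ | ⟨i, y, hy⟩
      · exact ⟨y, by rw [hy]; exact Eqv.refl _⟩
      · have h1 : ¬ (∃ x, f e = ω i x ∧ ∀ k, ¬ Eqv (W i) x (b i k)) := by
          rcases key i with h2 | h2
          · exact h2 e
          · exfalso
            obtain ⟨e', h3, h4⟩ := hex i
            rcases h2 e' with ⟨x, h5, h6⟩ | ⟨k, hk⟩
            · obtain ⟨k, hk⟩ := h3 x h5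
              exact h6 k hk
            · exact h4 k hk
        push Not at h1
        obtain ⟨k, hk⟩ := h1 y hy
        refine ⟨a i k, ?_⟩
        rw [hy]
        exact (hk.map (h.cW i)).trans (h.junc i k).symm
    choose g hg using this
    refine ⟨g, fun φ hφ => ?_, hg⟩
    obtain ⟨ψ, hψ, h1⟩ := h.extR hφ
    have h2 : φ ∘ g = ψ ∘ f := by
      funext e
      simp only [Function.comp_apply]
      rw [hg e ψ hψ, h1]
    rw [h2]; exact hf ψ hψ

end Amal

end Pool.Agent.Y413.PO
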