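import Pool.Agent.Y413.PO.PetA
import Pool.Agent.Y413.PO.Amal

set_option autoImplicit false
set_option linter.dupNamespace false

/-!
Ladders along a permutation: the base graphs of the ring assembly.
-/

open Finset

namespace Pool.Agent.Y413.PO

open Pool.Agent.H160R2.CC Pool.Agent.H160R2.CC.MGraph

section
variable (Q : Type) [Fintype Q] [DecidableEq Q] (s : Q ≃ Q)

/-- the ladder: rails `(q, 0)`, `(q, 1)` from `q` to `s q`, rungs `(q, 2)` -/
def lad : MGraph where
  V := Q × Bool
  E := Q × Fin 3
  src := fun e => if e.2 = 1 then (e.1, true) else (e.1, false)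
  tgt := fun e => if e.2 = 0 then (s e.1, false) else if e.2 = 1 then (s e.1, true)
    else (e.1, true)

/-- the number of the rail -/
def rl (b : Bool) : Fin 3 := if b then 1 else 0

/-- the stars of the ladder -/
def lst (v : Q × Bool) : Fin 3 → Q × Fin 3 := ![(v.1, rl v.2), (s.symm v.1, rl v.2), (v.1, 2)]

end

section
variable {Q : Type} [Fintype Q] [DecidableEq Q] {s : Q ≃ Q}

lemma lad_inc (q q' : Q) (b : Bool) (c : Fin 3) : (lad Q s).inc (q, b) (q', c) =
    (if c = 2 then (if q' = q then 1 else 0) else if c = rl b then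
      (if q' = q then 1 else 0) + (if s q' = q then 1 else 0) else 0) := by
  change (if (if c = 1 then (q', true) else (q', false)) = (q, b) then (1 : ZMod 2) else 0) +
    (if (if c = 0 then (s q', false) else if c = 1 then (s q', true) else (q', true)) = (q, b)
      then 1 else 0) = _
  fin_cases c <;> cases b <;> simp [rl]

lemma lad_star (hs1 : ∀ q, s q ≠ q) (v : Q × Bool) : (lad Q s).IsStar v (lst Q s v) := by
  obtain ⟨q, b⟩ := v
  have hs1' : ∀ q, s.symm q ≠ q := by
    intro q h
    apply hs1 (s.symm q)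
    rw [Equiv.apply_symm_apply]; exact h.symm
  have hb2 : rl b ≠ 2 := by cases b <;> decide
  have e0 : lst Q s (q, b) 0 = (q, rl b) := rfl
  have e1 : lst Q s (q, b) 1 = (s.symm q, rl b) := rfl
  have e2 : lst Q s (q, b) 2 = (q, 2) := rfl
  have n01 : lst Q s (q, b) 0 ≠ lst Q s (q, b) 1 := by
    rw [e0, e1]; intro h; exact hs1' q (congrArg Prod.fst h).symm
  have n02 : lst Q s (q, b) 0 ≠ lst Q s (q, b) 2 := by
    rw [e0, e2]; intro h; exact hb2 (congrArg Prod.snd h)
  have n12 : lst Q s (q, b) 1 ≠ lst Q s (q, b) 2 := by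
    rw [e1, e2]; intro h; exact hb2 (congrArg Prod.snd h)
  constructor
  · intro i j hij
    fin_cases i <;> fin_cases j
    · rfl
    · exact absurd hij n01
    · exact absurd hij n02
    · exact absurd hij.symm n01
    · rfl
    · exact absurd hij n12
    · exact absurd hij.symm n02
    · exact absurd hij.symm n12
    · rfl
  · rintro ⟨q', c⟩
    have hex : (∃ i, lst Q s (q, b) i = (q', c)) ↔
        ((q = q' ∧ rl b = c) ∨ (s.symm q = q' ∧ rl b = c) ∨ (q = q' ∧ 2 = c)) := by
      constructor
      · rintro ⟨i, hi⟩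
        fin_cases i
        · left
          simpa [lst] using hi
        · right; left
          simpa [lst] using hi
        · right; right
          simpa [lst] using hi
      · rintro (⟨rfl, rfl⟩ | ⟨rfl, rfl⟩ | ⟨rfl, rfl⟩)
        · exact ⟨0, rfl⟩
        · exact ⟨1, rfl⟩
        · exact ⟨2, rfl⟩
    have hq : (s.symm q = q') ↔ s q' = q := by
      constructor
      · rintro rfl; exact Equiv.apply_symm_apply s q
      · rintro rfl; exact Equiv.symm_apply_apply s q'
    by_cases hE : ∃ i, lst Q s (q, b) i = (q', c)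
    · refine Eq.trans ?_ (if_pos hE).symm
      rw [lad_inc]
      rcases hex.1 hE with ⟨h1, h2⟩ | ⟨h1, h2⟩ | ⟨h1, h2⟩
      · have h3 : c ≠ 2 := by rw [← h2]; exact hb2
        have h4 : ¬ s q' = q := by rw [h1]; exact hs1 q'
        rw [if_neg h3, if_pos h2.symm, if_pos h1.symm, if_neg h4, add_zero]
      · have h3 : c ≠ 2 := by rw [← h2]; exact hb2
        have h4 : ¬ q' = q := by rw [← h1]; exact hs1' q
        rw [if_neg h3, if_pos h2.symm, if_neg h4, if_pos (hq.1 h1), zero_add]
      · rw [if_pos h2.symm, if_pos h1.symm]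
    · refine Eq.trans ?_ (if_neg hE).symm
      rw [lad_inc]
      rw [hex] at hE
      by_cases h2 : c = 2
      · rw [if_pos h2, if_neg]
        intro h1
        exact hE (Or.inr (Or.inr ⟨h1.symm, h2.symm⟩))
      · rw [if_neg h2]
        by_cases hc : c = rl b
        · rw [if_pos hc, if_neg, if_neg, add_zero]
          · intro h1
            exact hE (Or.inr (Or.inl ⟨hq.2 h1, hc.symm⟩))
          · intro h1
            exact hE (Or.inl ⟨h1.symm, hc.symm⟩)
        · rw [if_neg hc]

lemma lad_flow (hs1 : ∀ q, s q ≠ q) (φ : Q × Fin 3 → ZMod 2) : (lad Q s).Flow φ ↔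
    ∀ (q : Q) (b : Bool), φ (q, rl b) + φ (s.symm q, rl b) + φ (q, 2) = 0 := by
  constructor
  · intro h q b
    have := h (q, b)
    rw [star_sum (lad_star hs1 (q, b))] at this
    exact this
  · rintro h ⟨q, b⟩
    exact (star_sum (lad_star hs1 (q, b)) φ).trans (h q b)

/-- the flow along a square -/
def sqf (s : Q ≃ Q) (q : Q) : Q × Fin 3 → ZMod 2 := fun e =>
  if e.2 = 2 then (if e.1 = q ∨ e.1 = s q then 1 else 0) else (if e.1 = q then 1 else 0)

/-- the flow along the first rail -/
def rlf : Q × Fin 3 → ZMod 2 := fun e => if e.2 = 0 then 1 else 0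

lemma rl_ne (b : Bool) : rl b ≠ 2 := by cases b <;> decide

lemma sqf_flow (hs1 : ∀ q, s q ≠ q) (q₀ : Q) : (lad Q s).Flow (sqf s q₀) := by
  rw [lad_flow hs1]
  intro q b
  have hq : (s.symm q = q₀) ↔ q = s q₀ := by
    constructor
    · rintro rfl; exact (Equiv.apply_symm_apply s q).symm
    · rintro rfl; exact Equiv.symm_apply_apply s q₀
  simp only [sqf, rl_ne b, if_false, if_true, hq]
  by_cases h1 : q = q₀
  · have h2 : ¬ q = s q₀ := by rw [h1]; exact (hs1 q₀).symm
    rw [if_pos h1, if_neg h2, if_pos (Or.inl h1)]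
    decide
  · by_cases h2 : q = s q₀
    · rw [if_neg h1, if_pos h2, if_pos (Or.inr h2)]
      decide
    · rw [if_neg h1, if_neg h2, if_neg (by rintro (h | h); exacts [h1 h, h2 h])]
      decide

lemma rlf_flow (hs1 : ∀ q, s q ≠ q) : (lad Q s).Flow (rlf : Q × Fin 3 → ZMod 2) := by
  rw [lad_flow hs1]
  intro q b
  cases b <;> simp [rlf, rl]
  decide

lemma lad_br (hs1 : ∀ q, s q ≠ q) : (lad Q s).Bridgeless := by
  rintro ⟨q, c⟩
  refine ⟨_, sqf_flow hs1 q, ?_⟩
  simp [sqf]

lemma rl_aux : ∀ c c' : Fin 3, ((if c = 0 then (1 : ZMod 2) else 0) = if c' = 0 then 1 else 0) →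
    c ≠ 2 → c' ≠ 2 → c = c' := by decide

lemma lad_sep (hs1 : ∀ q, s q ≠ q) (hs2 : ∀ q, s (s q) ≠ q) {e e' : Q × Fin 3}
    (h : Eqv (lad Q s) e e') : e = e' := by
  obtain ⟨q, c⟩ := e
  obtain ⟨q', c'⟩ := e'
  have hsq : ∀ q₀, sqf s q₀ (q, c) = sqf s q₀ (q', c') := fun q₀ => h _ (sqf_flow hs1 q₀)
  have hrl : (rlf (q, c) : ZMod 2) = rlf (q', c') := h _ (rlf_flow hs1)
  simp only [sqf, rlf] at hsq hrl
  have h10 : (1 : ZMod 2) ≠ 0 := by decide
  by_cases hc : c = 2
  · subst hc
    by_cases hc' : c' = 2
    · subst hc'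
      by_cases hq : q = q'
      · rw [hq]
      · exfalso
        simp only [if_true] at hsq
        have h1 := hsq q
        rw [if_pos (Or.inl rfl)] at h1
        have h2 : q' = q ∨ q' = s q := by
          by_contra hcon
          rw [if_neg hcon] at h1
          exact h10 h1
        rcases h2 with h2 | h2
        · exact hq h2.symm
        · have h3 := hsq q'
          rw [if_pos (Or.inl rfl : q' = q' ∨ q' = s q')] at h3
          have h4 : q = q' ∨ q = s q' := by
            by_contra hcon
            rw [if_neg hcon] at h3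
            exact h10 h3.symm
          rcases h4 with h4 | h4
          · exact hq h4
          · rw [h2] at h4
            exact hs2 q h4.symm
    · exfalso
      simp only [if_true, if_neg hc'] at hsq
      by_cases hq : q' = q
      · have h1 := hsq (s.symm q)
        rw [if_pos (Or.inr (Equiv.apply_symm_apply s q).symm), if_neg] at h1
        · exact h10 h1
        · intro h2
          apply hs1 (s.symm q)
          rw [Equiv.apply_symm_apply, ← h2, hq]
      · have h1 := hsq q
        rw [if_pos (Or.inl rfl), if_neg hq] at h1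
        exact h10 h1
  · by_cases hc' : c' = 2
    · exfalso
      subst hc'
      simp only [if_true, if_neg hc] at hsq
      by_cases hq : q = q'
      · have h1 := hsq (s.symm q')
        rw [if_pos (Or.inr (Equiv.apply_symm_apply s q').symm : q' = s.symm q' ∨ _), if_neg] at h1
        · exact h10 h1.symm
        · intro h2
          apply hs1 (s.symm q')
          rw [Equiv.apply_symm_apply, ← h2, hq]
      · have h1 := hsq q'
        rw [if_neg hq, if_pos (Or.inl rfl : q' = q' ∨ q' = s q')] at h1
        exact h10 h1.symm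
    · simp only [if_neg hc, if_neg hc'] at hsq
      have h1 := hsq q
      rw [if_pos rfl] at h1
      have hq : q' = q := by
        by_contra hcon
        rw [if_neg hcon] at h1
        exact h10 h1
      rw [hq, rl_aux c c' hrl hc hc']

/-- the ladder maps to the graph with three parallel edges -/
lemma lad_th (hs1 : ∀ q, s q ≠ q) (κ : Q → Bool) (hκ : ∀ q, κ (s q) ≠ κ q) :
    ∃ g : Q × Fin 3 → Fin 3, CC (lad Q s) th g := by
  refine ⟨fun e => if e.2 = 2 then 2 else rl (κ e.1), fun φ hφ => ?_⟩
  have h1 := (th_flow φ).1 hφ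
  refine (lad_flow hs1 _).2 (fun q b => ?_)
  have h2 := hκ (s.symm q)
  rw [Equiv.apply_symm_apply] at h2
  simp only [Function.comp_apply, rl_ne b, if_false, if_true]
  rcases h3 : κ q with _ | _ <;> rcases h4 : κ (s.symm q) with _ | _
  · rw [h3, h4] at h2; exact absurd rfl h2
  · exact h1
  · change φ (1 : Fin 3) + φ (0 : Fin 3) + φ (2 : Fin 3) = 0
    rw [add_comm (φ (1 : Fin 3))]; exact h1
  · rw [h3, h4] at h2; exact absurd rfl h2

lemma lad_pair (hs1 : ∀ q, s q ≠ q) (hs2 : ∀ q, s (s q) ≠ q) (e f : Q × Fin 3)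
    (h : ((lad Q s).src e = (lad Q s).src f ∧ (lad Q s).tgt e = (lad Q s).tgt f) ∨
      ((lad Q s).src e = (lad Q s).tgt f ∧ (lad Q s).tgt e = (lad Q s).src f)) : e = f := by
  obtain ⟨q, c⟩ := e
  obtain ⟨q', c'⟩ := f
  change ((if c = 1 then (q, true) else (q, false)) = (if c' = 1 then (q', true) else (q', false)) ∧
      (if c = 0 then (s q, false) else if c = 1 then (s q, true) else (q, true)) =
        (if c' = 0 then (s q', false) else if c' = 1 then (s q', true) else (q', true))) ∨
    ((if c = 1 then (q, true) else (q, false)) =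
      (if c' = 0 then (s q', false) else if c' = 1 then (s q', true) else (q', true)) ∧
      (if c = 0 then (s q, false) else if c = 1 then (s q, true) else (q, true)) =
      (if c' = 1 then (q', true) else (q', false))) at h
  have key : ∀ x y : Q, x = s y → s x = y → False := by
    intro x y h1 h2
    rw [h1] at h2
    exact hs2 y h2
  fin_cases c <;> fin_cases c' <;> simp at h ⊢
  all_goals
    first
      | exact h
      | exact h.1
      | (rcases h with h | h
         · first
             | exact h
             | exact h.1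
         · exact (key _ _ h.1 h.2).elim)

end

end Pool.Agent.Y413.PO
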