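import Pool.Agent.Y413.PO.Chain

set_option autoImplicit false
set_option linter.dupNamespace false

/-!
Long alternating chains do not map to a given bridgeless graph without cuts of size two.
-/

open Finset

namespace Pool.Agent.Y413.PO

open Pool.Agent.H160R2.CC Pool.Agent.H160R2.CC.MGraph

/-- the pieces `A` and `B` cannot be on the same side of the cut formed by the exit star of `A` and
the entrance star of `B` -/
def Opp (A B : Pc) : Prop :=
  ∀ (c : MGraph), Tgt c → ∀ (f : A.G.E → c.E) (g : B.G.E → c.E), CC A.G c f → CC B.G c g →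
    ∀ p : c.V → ZMod 2, (∀ e, p (c.src e) ≠ p (c.tgt e) ↔ ∃ k, f (A.o k) = e) →
    (∀ e, p (c.src e) ≠ p (c.tgt e) ↔ ∃ k, g (B.i k) = e) →
    (∀ e, ¬ (p (c.src (f e)) = 1 ∧ p (c.tgt (f e)) = 1)) →
    (∀ e, ¬ (p (c.src (g e)) = 1 ∧ p (c.tgt (g e)) = 1)) → False

lemma three_others : ∀ k : Fin 3, ∃ k1 k2 : Fin 3, k1 ≠ k2 ∧ k1 ≠ k ∧ k2 ≠ k ∧
    ∀ x, x = k ∨ x = k1 ∨ x = k2 := by decide

lemma pump_step {c : MGraph} (hc : Tgt c) (T : Pc) {g : T.G.E → c.E} (hg : CC T.G c g)
    {p : c.V → ZMod 2} (hp : ∀ e, p (c.src e) ≠ p (c.tgt e) ↔ ∃ k, g (T.i k) = e)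
    (h0 : ∀ e, ¬ (p (c.src (g e)) = 0 ∧ p (c.tgt (g e)) = 0)) :
    ∃ q : c.V → ZMod 2, (∀ e, q (c.src e) ≠ q (c.tgt e) ↔ ∃ k, g (T.o k) = e) ∧
      (∀ e, ¬ (q (c.src (g e)) = 1 ∧ q (c.tgt (g e)) = 1)) ∧
      (univ.filter (fun v => q v = 1)).card < (univ.filter (fun v => p v = 1)).card := by
  classical
  have hgi := T.hp.mn.inj hc.br hg
  obtain ⟨p', hp', h1⟩ := star_cut hc T.hp hg T.ho
  have z1 : ∀ a : ZMod 2, a ≠ 0 → a = 1 := by decide
  have z0 : ∀ a : ZMod 2, a ≠ 1 → a = 0 := by decide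
  -- edges of the piece outside of the two cuts
  have eqp : ∀ e, ¬ (∃ k, g (T.i k) = g e) → p (c.src (g e)) = 1 ∧ p (c.tgt (g e)) = 1 := by
    intro e he
    rw [← hp, not_not] at he
    have := h0 e
    rw [← he, and_self] at this ⊢
    exact z1 _ this
  have eqp' : ∀ e, ¬ (∃ k, g (T.o k) = g e) → p' (c.src (g e)) = 0 ∧ p' (c.tgt (g e)) = 0 := by
    intro e he
    rw [← hp', not_not] at he
    have := h1 e
    rw [← he, and_self] at this ⊢
    exact z0 _ this
  let q : c.V → ZMod 2 := fun v => p v * p' v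
  have hout : ∀ e, (¬ ∃ k, g (T.o k) = e) → q (c.src e) = q (c.tgt e) := by
    intro e he
    by_cases h2 : ∃ k, g (T.i k) = e
    · obtain ⟨k, rfl⟩ := h2
      obtain ⟨h3, h4⟩ := eqp' _ he
      simp only [q, h3, h4, mul_zero]
    · have h3 := he
      rw [← hp', not_not] at h3
      rw [← hp, not_not] at h2
      simp only [q, h2, h3]
  have hin : ∀ k, (¬ ∃ l, T.i l = T.o k) → q (c.src (g (T.o k))) ≠ q (c.tgt (g (T.o k))) := by
    intro k hk
    obtain ⟨h3, h4⟩ := eqp (T.o k) (fun ⟨l, hl⟩ => hk ⟨l, hgi hl⟩)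
    simp only [q, h3, h4, one_mul]
    exact (hp' _).2 ⟨k, rfl⟩
  have hall : ∀ k, q (c.src (g (T.o k))) ≠ q (c.tgt (g (T.o k))) := by
    intro k
    by_cases hk : ∃ l, T.i l = T.o k
    · intro hcon
      -- the two other edges would form a cut
      have hoth : ∀ k', k' ≠ k → q (c.src (g (T.o k'))) ≠ q (c.tgt (g (T.o k'))) := by
        intro k' hkk
        apply hin
        rintro ⟨l', hl'⟩
        obtain ⟨l, hl⟩ := hk
        exact T.sh k' k l' l hkk hl'.symm hl.symm
      obtain ⟨k1, k2, h12, h1k, h2k, hall3⟩ := three_others k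
      have heq : g (T.o k1) = g (T.o k2) := by
        apply hc.sep
        intro φ hφ
        have hne : g (T.o k1) ≠ g (T.o k2) := fun h => h12 (T.ho.1 (hgi h))
        have h5 := cut_orth (G := c) q hφ
        rw [Finset.sum_eq_add (g (T.o k1)) (g (T.o k2)) hne] at h5
        · have hz : ∀ a b : ZMod 2, a ≠ b → a + b = 1 := by decide
          rw [hz _ _ (hoth k1 h1k), hz _ _ (hoth k2 h2k), one_mul, one_mul] at h5
          exact z2_eq_of_add _ _ h5
        · intro e _ he
          have : q (c.src e) = q (c.tgt e) := by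
            by_cases h6 : ∃ x, g (T.o x) = e
            · obtain ⟨x, rfl⟩ := h6
              rcases hall3 x with rfl | rfl | rfl
              · exact hcon
              · exact absurd rfl he.1
              · exact absurd rfl he.2
            · exact hout e h6
          rw [this, z2_add_self, zero_mul]
        · intro h; exact absurd (Finset.mem_univ _) h
        · intro h; exact absurd (Finset.mem_univ _) h
      exact h12 (T.ho.1 (hgi heq))
    · exact hin k hk
  refine ⟨q, fun e => ⟨fun h => ?_, ?_⟩, fun e he => h1 e ?_, ?_⟩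
  · by_contra hcon
    exact h (hout e hcon)
  · rintro ⟨k, rfl⟩
    exact hall k
  · have hz : ∀ a b : ZMod 2, a * b = 1 → b = 1 := by decide
    exact ⟨hz _ _ he.1, hz _ _ he.2⟩
  · apply Finset.card_lt_card
    rw [Finset.ssubset_iff_subset_ne]
    constructor
    · intro v hv
      simp only [Finset.mem_filter, Finset.mem_univ, true_and, q] at hv ⊢
      have hz : ∀ a b : ZMod 2, a * b = 1 → a = 1 := by decide
      exact hz _ _ hv
    · intro hcon
      have hpq : ∀ v, q v = p v := by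
        intro v
        have h7 : v ∈ univ.filter (fun v => q v = 1) ↔ v ∈ univ.filter (fun v => p v = 1) := by
          rw [hcon]
        simp only [Finset.mem_filter, Finset.mem_univ, true_and] at h7
        rcases z2 (p v) with h8 | h8
        · rw [h8] at h7 ⊢
          apply z0
          intro h9
          exact absurd (h7.1 h9) (by decide)
        · rw [h8, h7.2 h8]
      have key : ∀ k, ∃ l, T.o k = T.i l := by
        intro k
        have h8 := hall k
        rw [hpq, hpq] at h8
        obtain ⟨l, hl⟩ := (hp _).1 h8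
        exact ⟨l, (hgi hl).symm⟩
      obtain ⟨l, hl⟩ := key 0
      obtain ⟨l', hl'⟩ := key 1
      exact T.sh 0 1 l l' (by decide) hl hl'

theorem pump (T : ℕ → Pc) {c : MGraph} (hc : Tgt c) (n : ℕ)
    (hO : ∀ j, j < n → Opp (T j) (T (j + 1))) {h : (ch T n).G.E → c.E} (hh : CC (ch T n).G c h) :
    ∃ p : c.V → ZMod 2, (∀ e, p (c.src e) ≠ p (c.tgt e) ↔ ∃ k, h (io T n n ((T n).o k)) = e) ∧
      (∀ e, ¬ (p (c.src (h (io T n n e))) = 1 ∧ p (c.tgt (h (io T n n e))) = 1)) ∧
      n + (univ.filter (fun v => p v = 1)).card < Fintype.card c.V := by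
  classical
  induction n with
  | zero =>
    obtain ⟨p, hp, h1⟩ := star_cut hc (T 0).hp (f := fun e => h (io T 0 0 e))
      (hh.comp (io_cc T le_rfl)) (T 0).ho
    refine ⟨p, hp, h1, ?_⟩
    rw [zero_add]
    have hex : ∃ v, ¬ p v = 1 := by
      by_contra hcon
      push Not at hcon
      exact h1 ((T 0).o 0) ⟨hcon _, hcon _⟩
    obtain ⟨v, hv⟩ := hex
    rw [← Finset.card_univ]
    apply Finset.card_lt_card
    rw [Finset.ssubset_iff_subset_ne]
    refine ⟨Finset.subset_univ _, fun hcon => hv ?_⟩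
    have : v ∈ univ.filter (fun v => p v = 1) := by rw [hcon]; exact Finset.mem_univ v
    simpa using this
  | succ n ih =>
    obtain ⟨p, hp, h1, h2⟩ := ih (fun j hj => hO j (by omega)) (h := fun e => h (Sum.inl e))
      (hh.comp (ch_amal T n).cR)
    have hg : CC (T (n + 1)).G c (fun e => h (Sum.inr e)) := hh.comp ((ch_amal T n).cW ())
    have hj : ∀ k, h (Sum.inl (io T n n ((T n).o k))) = h (Sum.inr ((T (n + 1)).i k)) := by
      intro k
      apply hc.sep
      have := ((ch_amal T n).junc () k).map hh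
      rw [ch_a] at this
      exact this
    have hp2 : ∀ e, p (c.src e) ≠ p (c.tgt e) ↔ ∃ k, h (Sum.inr ((T (n + 1)).i k)) = e := by
      intro e
      rw [hp e]
      simp_rw [hj]
    have h3 : ∀ e, ¬ (p (c.src (h (Sum.inr e))) = 0 ∧ p (c.tgt (h (Sum.inr e))) = 0) := by
      have hinj := (T (n + 1)).hp.mn.inj hc.br hg
      rcases L1c hc (T (n + 1)).hp hg (p := p) (Or.inr
        ⟨fun k => h (Sum.inr ((T (n + 1)).i k)), fun k l hkl => (T (n + 1)).hi.1 (hinj hkl), hp2⟩)
        with h4 | h4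
      · exfalso
        exact hO n (by omega) c hc (fun e => h (Sum.inl (io T n n e))) _
          ((hh.comp (ch_amal T n).cR).comp (io_cc T le_rfl)) hg p hp hp2 h1 h4
      · exact h4
    obtain ⟨q, hq1, hq2, hq3⟩ := pump_step hc (T (n + 1)) hg hp2 h3
    refine ⟨q, ?_, ?_, by omega⟩
    · intro e
      simp_rw [io_last]
      exact hq1 e
    · intro e
      rw [io_last]
      exact hq2 e

/-- a long alternating chain does not map to `c` -/
theorem no_long (T : ℕ → Pc) {c : MGraph} (hc : Tgt c) {n : ℕ} (hn : Fintype.card c.V ≤ n)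
    (hO : ∀ j, j < n → Opp (T j) (T (j + 1))) {h : (ch T n).G.E → c.E} (hh : CC (ch T n).G c h) :
    False := by
  obtain ⟨p, -, -, h3⟩ := pump T hc n hO hh
  omega

end Pool.Agent.Y413.PO
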