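import Pool.Agent.Y413.PO.Chain

set_option autoImplicit false
set_option linter.dupNamespace false

/-!
Maps between chains of the same length are the identity or the reversal on the level of pieces.
-/

open Finset

namespace Pool.Agent.Y413.PO

open Pool.Agent.H160R2.CC Pool.Agent.H160R2.CC.MGraph

/-- the entrance star and the exit star share an edge -/
def Sh (T : Pc) : Prop := ∃ k l, T.o k = T.i l

lemma surj3 {α β : Type} {g : α → β} (hg : Function.Injective g) {s : Fin 3 → α} {s' : Fin 3 → β}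
    (hs : Function.Injective s) (h : ∀ k, ∃ l, g (s k) = s' l) (l : Fin 3) : ∃ k, g (s k) = s' l := by
  choose f hf using h
  have hfi : Function.Injective f := by
    intro k k' hkk
    apply hs
    apply hg
    rw [hf, hf, hkk]
  obtain ⟨k, hk⟩ := Finite.surjective_of_injective hfi l
  exact ⟨k, by rw [hf, hk]⟩

lemma three_same (T : Pc) {E' : Type} {g : T.G.E → E'} (hg : Function.Injective g) {s : Fin 3 → E'}
    (h1 : ∀ k, ∃ l, g (T.i k) = s l) (h2 : ∀ k, ∃ l, g (T.o k) = s l) : False := by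
  have key : ∀ k, ∃ l, T.o k = T.i l := by
    intro k
    obtain ⟨l, hl⟩ := h2 k
    obtain ⟨k', hk'⟩ := surj3 hg T.hi.1 h1 l
    exact ⟨k', hg (hl.trans hk'.symm)⟩
  obtain ⟨l, hl⟩ := key 0
  obtain ⟨l', hl'⟩ := key 1
  exact T.sh 0 1 l l' (by decide) hl hl'

lemma sh_iff (T T' : Pc) {g : T.G.E → T'.G.E} (hg : Function.Injective g)
    (h1 : ∀ k, ∃ l, g (T.i k) = T'.i l) (h2 : ∀ k, ∃ l, g (T.o k) = T'.o l) : Sh T ↔ Sh T' := by
  constructor
  · rintro ⟨k, l, hkl⟩
    obtain ⟨l', hl'⟩ := h1 l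
    obtain ⟨k', hk'⟩ := h2 k
    exact ⟨k', l', by rw [← hk', ← hl', hkl]⟩
  · rintro ⟨k', l', hkl⟩
    obtain ⟨l, hl⟩ := surj3 hg T.hi.1 h1 l'
    obtain ⟨k, hk⟩ := surj3 hg T.ho.1 h2 k'
    exact ⟨k, l, hg (by rw [hk, hl, hkl])⟩

lemma sh_iff' (T T' : Pc) {g : T.G.E → T'.G.E} (hg : Function.Injective g)
    (h1 : ∀ k, ∃ l, g (T.i k) = T'.o l) (h2 : ∀ k, ∃ l, g (T.o k) = T'.i l) : Sh T ↔ Sh T' := by
  constructor
  · rintro ⟨k, l, hkl⟩
    obtain ⟨l', hl'⟩ := h1 l
    obtain ⟨k', hk'⟩ := h2 k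
    exact ⟨l', k', by rw [← hk', ← hl', hkl]⟩
  · rintro ⟨k', l', hkl⟩
    obtain ⟨l, hl⟩ := surj3 hg T.hi.1 h1 k'
    obtain ⟨k, hk⟩ := surj3 hg T.ho.1 h2 l'
    exact ⟨k, l, hg (by rw [hk, hl, hkl])⟩

theorem rigid (T T' : ℕ → Pc) (L : ℕ) (hPar : ∀ i j, i % 2 ≠ j % 2 → ¬ ∃ g, CC (T i).G (T' j).G g)
    {h : (ch T L).G.E → (ch T' L).G.E} (hh : CC (ch T L).G (ch T' L).G h) :
    (∀ j, j + 2 ≤ L → (Sh (T (j + 1)) ↔ Sh (T' (j + 1)))) ∨
      (∀ j, j + 2 ≤ L → (Sh (T (j + 1)) ↔ Sh (T' (L - (j + 1))))) := by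
  classical
  have hex : ∀ i, ∃ j, ∃ g : (T i).G.E → (T' j).G.E, i ≤ L → (j ≤ L ∧ CC (T i).G (T' j).G g ∧
      ∀ e, Eqv (ch T' L).G (h (io T L i e)) (io T' L j (g e))) := by
    intro i
    by_cases hi : i ≤ L
    · obtain ⟨j, hj, g, hg, h1⟩ := ch_factor T' L (T i).hp (hh.comp (io_cc T hi))
      exact ⟨j, g, fun _ => ⟨hj, hg, h1⟩⟩
    · exact ⟨0, fun _ => (T' 0).o 0, fun h' => absurd h' hi⟩
  choose σ g hσ using hex
  have hle : ∀ i, i ≤ L → σ i ≤ L := fun i hi => (hσ i hi).1
  have hinj : ∀ i, i ≤ L → Function.Injective (g i) := fun i hi =>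
    (T i).hp.mn.inj (T' (σ i)).hp.mn.br (hσ i hi).2.1
  have hpar : ∀ i, i ≤ L → i % 2 = σ i % 2 := by
    intro i hi
    by_contra hne
    exact hPar i (σ i) hne ⟨g i, (hσ i hi).2.1⟩
  have hjunc : ∀ i, i + 1 ≤ L → ∀ k, Eqv (ch T' L).G (io T' L (σ i) (g i ((T i).o k)))
      (io T' L (σ (i + 1)) (g (i + 1) ((T (i + 1)).i k))) := by
    intro i hi k
    have h1 := (io_junc T hi k).map hh
    exact ((hσ i (by omega)).2.2 _).symm.trans (h1.trans ((hσ (i + 1) hi).2.2 _))
  let Up : ℕ → Prop := fun i => σ (i + 1) = σ i + 1 ∧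
    (∀ k, ∃ l, g i ((T i).o k) = (T' (σ i)).o l) ∧
    (∀ k, ∃ l, g (i + 1) ((T (i + 1)).i k) = (T' (σ (i + 1))).i l)
  let Dn : ℕ → Prop := fun i => σ i = σ (i + 1) + 1 ∧
    (∀ k, ∃ l, g i ((T i).o k) = (T' (σ i)).i l) ∧
    (∀ k, ∃ l, g (i + 1) ((T (i + 1)).i k) = (T' (σ (i + 1))).o l)
  have hstep : ∀ i, i + 1 ≤ L → Up i ∨ Dn i := by
    intro i hi
    have hne : σ i ≠ σ (i + 1) := by
      intro hcon
      have h1 := hpar i (by omega)
      have h2 := hpar (i + 1) hi
      omega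
    have h01 : g i ((T i).o 0) ≠ g i ((T i).o 1) := fun hcon =>
      absurd ((T i).ho.1 (hinj i (by omega) hcon)) (by decide)
    have h01' : g (i + 1) ((T (i + 1)).i 0) ≠ g (i + 1) ((T (i + 1)).i 1) := fun hcon =>
      absurd ((T (i + 1)).hi.1 (hinj (i + 1) hi hcon)) (by decide)
    rcases lt_or_gt_of_ne hne with hlt | hlt
    · left
      refine ⟨io_adj T' hlt (hle _ hi) h01 (hjunc i hi 0) (hjunc i hi 1), fun k => ?_, fun k => ?_⟩
      · exact (io_guts T' hlt (hle _ hi) (hjunc i hi k)).1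
      · exact (io_guts T' hlt (hle _ hi) (hjunc i hi k)).2
    · right
      refine ⟨io_adj T' hlt (hle _ (by omega)) h01' (hjunc i hi 0).symm (hjunc i hi 1).symm,
        fun k => ?_, fun k => ?_⟩
      · exact (io_guts T' hlt (hle _ (by omega)) (hjunc i hi k).symm).2
      · exact (io_guts T' hlt (hle _ (by omega)) (hjunc i hi k).symm).1
  have hUD : ∀ i, i + 2 ≤ L → Up i → Up (i + 1) := by
    intro i hi hu
    rcases hstep (i + 1) (by omega) with h1 | h1
    · exact h1
    · exact (three_same (T (i + 1)) (hinj (i + 1) (by omega)) hu.2.2 h1.2.1).elim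
  have hDU : ∀ i, i + 2 ≤ L → Dn i → Dn (i + 1) := by
    intro i hi hu
    rcases hstep (i + 1) (by omega) with h1 | h1
    · exact (three_same (T (i + 1)) (hinj (i + 1) (by omega)) hu.2.2 h1.2.1).elim
    · exact h1
  rcases Nat.eq_zero_or_pos L with hL | hL
  · left
    intro j hj
    omega
  rcases hstep 0 (by omega) with h0 | h0
  · left
    have hall : ∀ i, i + 1 ≤ L → Up i := by
      intro i
      induction i with
      | zero => exact fun _ => h0
      | succ i ih => exact fun hi => hUD i (by omega) (ih (by omega))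
    have hs : ∀ i, i ≤ L → σ i = σ 0 + i := by
      intro i
      induction i with
      | zero => exact fun _ => rfl
      | succ i ih =>
        intro hi
        have := (hall i hi).1
        rw [this, ih (by omega)]
        omega
    have h00 : σ 0 = 0 := by
      have := hs L le_rfl
      have := hle L le_rfl
      omega
    intro j hj
    have hsj : σ (j + 1) = j + 1 := by
      rw [hs (j + 1) (by omega), h00, zero_add]
    have := sh_iff (T (j + 1)) (T' (σ (j + 1))) (hinj (j + 1) (by omega))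
      (hall j (by omega)).2.2 (hall (j + 1) (by omega)).2.1
    rw [hsj] at this
    exact this
  · right
    have hall : ∀ i, i + 1 ≤ L → Dn i := by
      intro i
      induction i with
      | zero => exact fun _ => h0
      | succ i ih => exact fun hi => hDU i (by omega) (ih (by omega))
    have hs : ∀ i, i ≤ L → σ i + i = σ 0 := by
      intro i
      induction i with
      | zero => exact fun _ => rfl
      | succ i ih =>
        intro hi
        have h1 := (hall i hi).1
        have h2 := ih (by omega)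
        omega
    have h00 : σ 0 = L := by
      have := hs L le_rfl
      have := hle 0 (by omega)
      omega
    intro j hj
    have hsj : σ (j + 1) = L - (j + 1) := by
      have := hs (j + 1) (by omega)
      omega
    have := sh_iff' (T (j + 1)) (T' (σ (j + 1))) (hinj (j + 1) (by omega))
      (hall j (by omega)).2.2 (hall (j + 1) (by omega)).2.1
    rw [hsj] at this
    exact this

end Pool.Agent.Y413.PO
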