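import Pool.Agent.Y413.PO.Crit
import Pool.Agent.Y413.PO.Pump
import Pool.Agent.Y413.PO.Rigid

set_option autoImplicit false
set_option linter.dupNamespace false

/-!
The pieces with ports and the six kinds of chains.
-/

open Finset

namespace Pool.Agent.Y413.PO

open Pool.Agent.H160R2.CC Pool.Agent.H160R2.CC.MGraph

/-- the Petersen graph with two adjacent ports -/
def P1 : Pc where
  G := petersen
  hp := pet_piece
  u := (0 : Fin 10)
  w := (1 : Fin 10)
  i := st 0
  o := st 1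
  hi := st_star 0
  ho := st_star 1
  sh := fun k k' l l' hne h h' => hne (pet_simp 1 0 (by decide) k k' l l' h h')

/-- the Petersen graph with two non-adjacent ports -/
def P2 : Pc where
  G := petersen
  hp := pet_piece
  u := (0 : Fin 10)
  w := (2 : Fin 10)
  i := st 0
  o := st 2
  hi := st_star 0
  ho := st_star 2
  sh := fun k k' l l' hne h h' => hne (pet_simp 2 0 (by decide) k k' l l' h h')

lemma P1_sh : Sh P1 := ⟨0, 0, rfl⟩

lemma P2_sh : ¬ Sh P2 := by
  rintro ⟨k, l, h⟩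
  have : ∀ k l : Fin 3, st 2 k ≠ st 0 l := by decide
  exact this k l h

/-- a critical graph has two ports -/
lemma crit_pc {X : MGraph} (hX : Crit X) : ∃ T : Pc, T.G = X := by
  classical
  have hP := hX.piece
  have hcard := hX.card
  obtain ⟨e0⟩ : Nonempty X.E := Fintype.card_pos_iff.1 (by omega)
  obtain ⟨a, ha, -⟩ := hP.mn.star_at (hP.inc_src e0)
  obtain ⟨e1, he1⟩ : ∃ e1, ∀ k, a k ≠ e1 := by
    by_contra hcon
    push Not at hcon
    have := Fintype.card_le_of_surjective a hcon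
    rw [Fintype.card_fin] at this
    omega
  obtain ⟨b, hb, hb0⟩ := hP.mn.star_at (hP.inc_src e1)
  refine ⟨⟨X, hP, X.src e0, X.src e1, a, b, ha, hb, ?_⟩, rfl⟩
  intro k k' l l' hkk h h'
  have hll : l ≠ l' := by
    rintro rfl
    exact hkk (hb.1 (h.trans h'.symm))
  -- the third edges agree as well
  have hsa : ∀ φ, X.Flow φ → φ (a 0) + φ (a 1) + φ (a 2) = 0 := by
    intro φ hφ
    rw [← star_sum ha]; exact hφ _
  have hsb : ∀ φ, X.Flow φ → φ (b 0) + φ (b 1) + φ (b 2) = 0 := by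
    intro φ hφ
    rw [← star_sum hb]; exact hφ _
  have third : ∀ k k' : Fin 3, k ≠ k' → ∃ m : Fin 3, m ≠ k ∧ m ≠ k' ∧ (∀ x, x = k ∨ x = k' ∨ x = m) ∧
      ∀ f : Fin 3 → ZMod 2, f 0 + f 1 + f 2 = 0 → f m = f k + f k' := by decide
  obtain ⟨m, -, -, hm3, hm⟩ := third k k' hkk
  obtain ⟨n, -, -, -, hn⟩ := third l l' hll
  have hthird : b m = a n := by
    apply hP.mn.sep
    intro φ hφ
    have h1 := hm (fun x => φ (b x)) (hsb φ hφ)
    have h2 := hn (fun x => φ (a x)) (hsa φ hφ)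
    change φ (b m) = φ (b k) + φ (b k') at h1
    change φ (a n) = φ (a l) + φ (a l') at h2
    rw [h1, h2, h, h']
  have hall : ∀ x, ∃ y, a y = b x := by
    intro x
    rcases hm3 x with rfl | rfl | rfl
    · exact ⟨l, h.symm⟩
    · exact ⟨l', h'.symm⟩
    · exact ⟨n, hthird.symm⟩
  obtain ⟨y, hy⟩ := hall 0
  exact he1 y (hy.trans hb0)

/-- the code of a type -/
def cod (t : Fin 3 × Bool) : ℕ := 2 * t.1.val + (if t.2 then 1 else 0)

lemma cod_inj : ∀ t t' : Fin 3 × Bool, cod t = cod t' → t = t' := by decide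

lemma cod_le : ∀ t : Fin 3 × Bool, cod t ≤ 5 := by decide

/-- the pieces of the chain of type `t` -/
def pcs (XP : Pc) (t : Fin 3 × Bool) (j : ℕ) : Pc :=
  if j % 2 = 0 then XP else if j = 1 ∨ j = 3 + 2 * cod t then P1 else P2

section
variable {XP : Pc} (hX : Crit XP.G)

include hX

lemma no_PX : ¬ ∃ g, CC petersen XP.G g := by
  rintro ⟨g, hg⟩
  refine no_larger pet_piece hX.piece st st_star pet_simp ?_ ?_ hg
  · exact lt_of_lt_of_eq (by norm_num : 3 < 15) (Fintype.card_fin 15).symm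
  · exact lt_of_eq_of_lt (Fintype.card_fin 15) hX.card

lemma no_XP : ¬ ∃ g, CC XP.G petersen g := hX.no

omit hX in
lemma pcs_even (t : Fin 3 × Bool) {j : ℕ} (hj : j % 2 = 0) : pcs XP t j = XP := by
  unfold pcs
  rw [if_pos hj]

omit hX in
lemma pcs_odd (t : Fin 3 × Bool) {j : ℕ} (hj : j % 2 ≠ 0) : (pcs XP t j).G = petersen := by
  unfold pcs
  rw [if_neg hj]
  split_ifs <;> rfl

lemma pcs_par (t t' : Fin 3 × Bool) (i j : ℕ) (hij : i % 2 ≠ j % 2) :
    ¬ ∃ g, CC (pcs XP t i).G (pcs XP t' j).G g := by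
  by_cases hi : i % 2 = 0
  · have hj : j % 2 ≠ 0 := by omega
    rw [pcs_even t hi, pcs_odd t' hj]
    exact no_XP hX
  · have hj : j % 2 = 0 := by omega
    rw [pcs_odd t hi, pcs_even t' hj]
    exact no_PX hX

omit hX in
lemma pcs_sh (t : Fin 3 × Bool) {j : ℕ} (hj : j % 2 ≠ 0) :
    Sh (pcs XP t j) ↔ (j = 1 ∨ j = 3 + 2 * cod t) := by
  unfold pcs
  rw [if_neg hj]
  by_cases h : j = 1 ∨ j = 3 + 2 * cod t
  · rw [if_pos h]
    exact ⟨fun _ => h, fun _ => P1_sh⟩
  · rw [if_neg h]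
    exact ⟨fun h' => absurd h' P2_sh, fun h' => absurd h' h⟩

/-- chains of different types do not map to each other -/
theorem type_rigid (t t' : Fin 3 × Bool) (K : ℕ)
    {h : (ch (pcs XP t) (16 + 2 * K)).G.E → (ch (pcs XP t') (16 + 2 * K)).G.E}
    (hh : CC (ch (pcs XP t) (16 + 2 * K)).G (ch (pcs XP t') (16 + 2 * K)).G h) : t = t' := by
  have h5 := cod_le t
  have h5' := cod_le t'
  rcases rigid _ _ _ (pcs_par hX t t') hh with h1 | h1
  · have h2 := h1 (2 + 2 * cod t) (by omega)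
    have h3 := (pcs_sh (XP := XP) t (j := 2 + 2 * cod t + 1) (by omega)).2 (by omega)
    have h4 := (pcs_sh (XP := XP) t' (j := 2 + 2 * cod t + 1) (by omega)).1 (h2.1 h3)
    exact cod_inj t t' (by omega)
  · exfalso
    have h2 := h1 0 (by omega)
    have h3 := (pcs_sh (XP := XP) t (j := 0 + 1) (by omega)).2 (by omega)
    have h4 := (pcs_sh (XP := XP) t' (j := 16 + 2 * K - (0 + 1)) (by omega)).1 (h2.1 h3)
    omega

lemma opp_PX (b : Fin 10) {A : Pc} (hA : A.G = petersen) (hb : HEq A.o (st b)) : Opp A XP := by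
  obtain ⟨G, hp, u, w, i, o, hi, ho, sh⟩ := A
  change G = petersen at hA
  subst hA
  change HEq o (st b) at hb
  have hb' : o = st b := eq_of_heq hb
  subst hb'
  intro c hc f g hf hg p h1 h2 h3 h4
  exact L3 hc pet_piece hX.piece st st_star pet_simp
    (lt_of_eq_of_lt (Fintype.card_fin 15) hX.card) hf hg p b XP.i h1 h2 h3 h4

lemma opp_XP (b : Fin 10) {A : Pc} (hA : A.G = petersen) (hb : HEq A.i (st b)) : Opp XP A := by
  obtain ⟨G, hp, u, w, i, o, hi, ho, sh⟩ := A
  change G = petersen at hA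
  subst hA
  change HEq i (st b) at hb
  have hb' : i = st b := eq_of_heq hb
  subst hb'
  intro c hc f g hf hg p h1 h2 h3 h4
  exact L3 hc pet_piece hX.piece st st_star pet_simp
    (lt_of_eq_of_lt (Fintype.card_fin 15) hX.card) hg hf p b XP.o h2 h1 h4 h3

lemma pcs_opp (t : Fin 3 × Bool) (j : ℕ) : Opp (pcs XP t j) (pcs XP t (j + 1)) := by
  by_cases hj : j % 2 = 0
  · rw [pcs_even t hj]
    have hj' : (j + 1) % 2 ≠ 0 := by omega
    unfold pcs
    rw [if_neg hj']
    split_ifs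
    · exact opp_XP hX 0 (A := P1) rfl HEq.rfl
    · exact opp_XP hX 0 (A := P2) rfl HEq.rfl
  · have hj' : (j + 1) % 2 = 0 := by omega
    rw [pcs_even t hj']
    unfold pcs
    rw [if_neg hj]
    split_ifs
    · exact opp_PX hX 1 (A := P1) rfl HEq.rfl
    · exact opp_PX hX 2 (A := P2) rfl HEq.rfl

theorem pcs_long (t : Fin 3 × Bool) {c : MGraph} (hc : Tgt c) {n : ℕ} (hn : Fintype.card c.V ≤ n)
    {h : (ch (pcs XP t) n).G.E → c.E} (hh : CC (ch (pcs XP t) n).G c h) : False :=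
  no_long (pcs XP t) hc hn (fun j _ => pcs_opp hX t j) hh

end

end Pool.Agent.Y413.PO
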