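import Pool.Agent.Y413.PO.Am
import Pool.Agent.Y413.PO.Ring
import Pool.Agent.Y413.PO.Types

set_option autoImplicit false
set_option linter.dupNamespace false

/-!
The ring assemblies: the ladder of length `3n` with every vertex replaced by a chain; the type of
the chain tells the rail and the position modulo three.
-/

open Finset

namespace Pool.Agent.Y413.PO

open Pool.Agent.H160R2.CC Pool.Agent.H160R2.CC.MGraph

section
variable (n : ℕ)

/-- the positions in the ring -/
abbrev Qn : Type := ZMod n × Fin 3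

/-- the next position -/
def nx : Qn n ≃ Qn n where
  toFun := fun q => (if q.2 = 2 then q.1 + 1 else q.1, q.2 + 1)
  invFun := fun q => (if q.2 = 0 then q.1 - 1 else q.1, q.2 - 1)
  left_inv := by
    rintro ⟨i, j⟩
    fin_cases j
    · simp
    · simp
    · simp
      decide
  right_inv := by
    rintro ⟨i, j⟩
    fin_cases j
    · simp
      intro h
      exact absurd (by decide) h
    · simp
    · simp

lemma nx_snd (q : Qn n) : (nx n q).2 = q.2 + 1 := rfl

lemma fin3_ne : ∀ j : Fin 3, j + 1 ≠ j := by decide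

lemma fin3_ne2 : ∀ j : Fin 3, j + 1 + 1 ≠ j := by decide

lemma nx_ne (q : Qn n) : nx n q ≠ q := by
  intro h
  have := congrArg Prod.snd h
  rw [nx_snd] at this
  exact fin3_ne _ this

lemma nx_ne2 (q : Qn n) : nx n (nx n q) ≠ q := by
  intro h
  have := congrArg Prod.snd h
  rw [nx_snd, nx_snd] at this
  exact fin3_ne2 _ this

lemma nx3 (i : ZMod n) : nx n (nx n (nx n (i, 0))) = (i + 1, 0) := by
  change ((if (0 + 1 + 1 : Fin 3) = 2 then
      (if (0 + 1 : Fin 3) = 2 then (if (0 : Fin 3) = 2 then i + 1 else i) + 1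
        else (if (0 : Fin 3) = 2 then i + 1 else i)) + 1
    else (if (0 + 1 : Fin 3) = 2 then (if (0 : Fin 3) = 2 then i + 1 else i) + 1
        else (if (0 : Fin 3) = 2 then i + 1 else i))), (0 + 1 + 1 + 1 : Fin 3)) = (i + 1, 0)
  simp

/-- an invariant of a step is constant -/
lemma orbit [NeZero n] {α : Type} (F : Qn n → α) (h : ∀ q, F (nx n q) = F q) (q : Qn n) :
    F q = F (0, 0) := by
  have h0 : ∀ k : ℕ, F ((k : ZMod n), 0) = F (0, 0) := by
    intro k
    induction k with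
    | zero => rw [Nat.cast_zero]
    | succ k ih =>
      rw [Nat.cast_succ, ← nx3, h, h, h, ih]
  have h1 : ∀ i : ZMod n, F (i, 0) = F (0, 0) := by
    intro i
    have := h0 i.val
    rw [ZMod.natCast_zmod_val] at this
    exact this
  obtain ⟨i, j⟩ := q
  have h2 : F (i, 1) = F (i, 0) := by
    rw [← h (i, 0)]
    congr 1
  have h3 : F (i, 2) = F (i, 1) := by
    rw [← h (i, 1)]
    congr 1
  fin_cases j
  · exact h1 i
  · exact h2.trans (h1 i)
  · exact h3.trans (h2.trans (h1 i))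

/-- the parity of a position -/
def kp (hn : 2 ∣ n) (q : Qn n) : Bool :=
  decide (ZMod.castHom hn (ZMod 2) q.1 + (q.2.val : ZMod 2) = 0)

lemma kp_ne (hn : 2 ∣ n) (q : Qn n) : kp n hn (nx n q) ≠ kp n hn q := by
  obtain ⟨i, j⟩ := q
  have key : ∀ x y : ZMod 2, x = y + 1 → decide (x = 0) ≠ decide (y = 0) := by decide
  unfold kp
  apply key
  have e1 : (nx n (i, j)).1 = if j = 2 then i + 1 else i := rfl
  have e2 : (nx n (i, j)).2 = j + 1 := rfl
  rw [e1, e2]
  have k0 : ∀ z : ZMod 2, z + (((0 : Fin 3) + 1).val : ZMod 2) = z + ((0 : Fin 3).val : ZMod 2) + 1 :=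
    by decide
  have k1 : ∀ z : ZMod 2, z + (((1 : Fin 3) + 1).val : ZMod 2) = z + ((1 : Fin 3).val : ZMod 2) + 1 :=
    by decide
  have k2 : ∀ z : ZMod 2, z + 1 + (((2 : Fin 3) + 1).val : ZMod 2) =
    z + ((2 : Fin 3).val : ZMod 2) + 1 := by decide
  fin_cases j
  · exact k0 _
  · exact k1 _
  · change ZMod.castHom hn (ZMod 2) (i + 1) + _ = _
    rw [map_add, map_one]
    exact k2 _

end

section
variable (XP : Pc) (K : ℕ) (n : ℕ) [NeZero n]

/-- the chain at the vertex `v` -/
def Wc (v : Qn n × Bool) : Rt := ch (pcs XP (v.1.2, v.2)) (16 + 2 * K)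

/-- the ring assembly -/
def SN : MGraph := am (lad (Qn n) (nx n)) (lst (Qn n) (nx n)) (Wc XP K n)

omit [NeZero n] in
lemma Wc_br (v : Qn n × Bool) : (Wc XP K n v).G.Bridgeless := ch_br _ _

lemma SN_amal : Amal (SN XP K n) (lad (Qn n) (nx n)) (Qn n × Bool) (fun v => (Wc XP K n v).G)
    Sum.inl (fun v x => Sum.inr ⟨v, x⟩) (lst (Qn n) (nx n)) (fun v => (Wc XP K n v).a) :=
  am_amal (R := lad (Qn n) (nx n)) (a := lst (Qn n) (nx n)) (W := Wc XP K n)
    (fun v => lad_star (nx_ne n) v) (lad_br (nx_ne n)) (fun v => Wc_br XP K n v)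

lemma SN_br : (SN XP K n).Bridgeless := (SN_amal XP K n).br

variable {XP K n}

/-- the ring of length `N` maps to the ring of length `M` if `M` divides `N` -/
theorem SN_fwd {N M : ℕ} [NeZero N] [NeZero M] (h : M ∣ N) :
    ∃ f, CC (SN XP K N) (SN XP K M) f := by
  let red : Qn N → Qn M := fun q => (ZMod.castHom h (ZMod M) q.1, q.2)
  have hred : ∀ q, red ((nx N).symm q) = (nx M).symm (red q) := by
    rintro ⟨i, j⟩
    change (ZMod.castHom h (ZMod M) (if j = 0 then i - 1 else i), j - 1) =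
      ((if j = 0 then ZMod.castHom h (ZMod M) i - 1 else ZMod.castHom h (ZMod M) i), j - 1)
    split_ifs with h0
    · rw [map_sub, map_one]
    · rfl
  let F : (SN XP K N).E → (SN XP K M).E :=
    Sum.map (fun e : Qn N × Fin 3 => ((red e.1, e.2) : Qn M × Fin 3))
      (fun x : (Σ v : Qn N × Bool, (Wc XP K N v).G.E) =>
        (⟨(red x.1.1, x.1.2), x.2⟩ : Σ v : Qn M × Bool, (Wc XP K M v).G.E))
  refine ⟨F, fun φ hφ => ?_⟩
  have hM := SN_amal XP K M
  have hN := SN_amal XP K N
  obtain ⟨ψ, hψ, h1, h2⟩ := hN.flow (fun e => φ (Sum.inl (red e.1, e.2)))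
    (fun v x => φ (Sum.inr ⟨(red v.1, v.2), x⟩)) (by
      rw [lad_flow (nx_ne N)]
      intro q b
      have := (lad_flow (nx_ne M) _).1 (hM.cR φ hφ) (red q) b
      change φ (Sum.inl (red q, rl b)) + φ (Sum.inl (red ((nx N).symm q), rl b)) +
        φ (Sum.inl (red q, 2)) = 0
      rw [hred]
      exact this) (fun v => hM.cW (red v.1, v.2) φ hφ) (by
      intro v k
      have h3 := hM.eq φ hφ (red v.1, v.2) k
      have h4 : ((red (lst (Qn N) (nx N) v k).1, (lst (Qn N) (nx N) v k).2) : Qn M × Fin 3) =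
          lst (Qn M) (nx M) (red v.1, v.2) k := by
        fin_cases k
        · rfl
        · change (red ((nx N).symm v.1), rl v.2) = ((nx M).symm (red v.1), rl v.2)
          rw [hred]
        · rfl
      rw [h4]
      exact h3)
  have h3 : φ ∘ F = ψ := by
    funext e
    rcases e with e | ⟨v, x⟩
    · exact (h1 e).symm
    · exact (h2 v x).symm
  rw [h3]
  exact hψ

/-- a star of the ladder touches its vertex -/
lemma lst_end {Q : Type} [Fintype Q] [DecidableEq Q] {s : Q ≃ Q} (hs1 : ∀ q, s q ≠ q)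
    (x : Q × Bool) (k : Fin 3) :
    (lad Q s).src (lst Q s x k) = x ∨ (lad Q s).tgt (lst Q s x k) = x := by
  have h := (lad_star hs1 x).2 (lst Q s x k)
  rw [if_pos ⟨k, rfl⟩] at h
  by_contra hcon
  push Not at hcon
  unfold inc at h
  rw [if_neg hcon.1, if_neg hcon.2, add_zero] at h
  exact absurd h (by decide)

lemma two_star {Q : Type} [Fintype Q] [DecidableEq Q] {s : Q ≃ Q} (hs1 : ∀ q, s q ≠ q)
    (hs2 : ∀ q, s (s q) ≠ q) {v w : Q × Bool} (hvw : v ≠ w) {k l k' l' : Fin 3}
    (h : lst Q s v k = lst Q s w l) (h' : lst Q s v k' = lst Q s w l') : k = k' := by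
  apply (lad_star hs1 v).1
  apply lad_pair hs1 hs2
  have e1 := lst_end hs1 v k
  have e2 := lst_end hs1 w l
  have e3 := lst_end hs1 v k'
  have e4 := lst_end hs1 w l'
  rw [← h] at e2
  rw [← h'] at e4
  rcases e1 with e1 | e1 <;> rcases e2 with e2 | e2
  · exact absurd (e1.symm.trans e2) hvw
  · rcases e3 with e3 | e3 <;> rcases e4 with e4 | e4
    · exact absurd (e3.symm.trans e4) hvw
    · left
      exact ⟨e1.trans e3.symm, e2.trans e4.symm⟩
    · right
      exact ⟨e1.trans e3.symm, e2.trans e4.symm⟩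
    · exact absurd (e3.symm.trans e4) hvw
  · rcases e3 with e3 | e3 <;> rcases e4 with e4 | e4
    · exact absurd (e3.symm.trans e4) hvw
    · right
      exact ⟨e2.trans e4.symm, e1.trans e3.symm⟩
    · left
      exact ⟨e2.trans e4.symm, e1.trans e3.symm⟩
    · exact absurd (e3.symm.trans e4) hvw
  · exact absurd (e1.symm.trans e2) hvw

omit [NeZero n] in
lemma pcs_noth (hX : Crit XP.G) (t : Fin 3 × Bool) (j : ℕ) : ¬ ∃ g, CC (pcs XP t j).G th g := by
  by_cases hj : j % 2 = 0
  · rw [pcs_even t hj]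
    rintro ⟨g, hg⟩
    exact hX.no ⟨_, th_pet.comp hg⟩
  · rw [pcs_odd t hj]
    rintro ⟨g, hg⟩
    exact pet_th hg

/-- a chain in a ring is inside of one of the chains of the ring -/
theorem W_in (hn : 2 ∣ n) (T : ℕ → Pc) (L : ℕ) (hT : ∀ j, ¬ ∃ g, CC (T j).G th g)
    {f : (ch T L).G.E → (SN XP K n).E} (hf : CC (ch T L).G (SN XP K n) f) :
    ∃ w : Qn n × Bool, ∃ g : (ch T L).G.E → (Wc XP K n w).G.E, CC (ch T L).G (Wc XP K n w).G g ∧
      ∀ e, Eqv (SN XP K n) (f e) (Sum.inr ⟨w, g e⟩) := by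
  classical
  have hM := SN_amal XP K n
  have hex : ∀ j, ∃ w : Qn n × Bool, ∃ g : (T j).G.E → (Wc XP K n w).G.E, j ≤ L →
      (CC (T j).G (Wc XP K n w).G g ∧
      ∀ e, Eqv (SN XP K n) (f (io T L j e)) (Sum.inr ⟨w, g e⟩)) := by
    intro j
    by_cases hj : j ≤ L
    · rcases hM.factor (T j).hp (hf.comp (io_cc T hj)) with ⟨g, hg, -⟩ | ⟨w, g, hg, h1⟩
      · exfalso
        obtain ⟨g', hg'⟩ := lad_th (nx_ne n) (kp n hn) (kp_ne n hn)
        exact hT j ⟨_, hg'.comp hg⟩
      · exact ⟨w, g, fun _ => ⟨hg, h1⟩⟩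
    · exact ⟨((0, 0), false), fun _ => (Wc XP K n _).a 0, fun h' => absurd h' hj⟩
  choose w g hwg using hex
  have hstep : ∀ j, j + 1 ≤ L → w j = w (j + 1) := by
    intro j hj
    by_contra hne
    have hjunc : ∀ k, Eqv (SN XP K n) (Sum.inr ⟨w j, g j ((T j).o k)⟩)
        (Sum.inr ⟨w (j + 1), g (j + 1) ((T (j + 1)).i k)⟩) := by
      intro k
      have h1 := (io_junc T hj k).map hf
      exact ((hwg j (by omega)).2 _).symm.trans (h1.trans ((hwg (j + 1) hj).2 _))
    obtain ⟨k, l, h1, -, h3⟩ := hM.WW hne (hjunc 0)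
    obtain ⟨k', l', h1', -, h3'⟩ := hM.WW hne (hjunc 1)
    have h4 := lad_sep (nx_ne n) (nx_ne2 n) h3
    have h4' := lad_sep (nx_ne n) (nx_ne2 n) h3'
    have h5 := two_star (nx_ne n) (nx_ne2 n) hne h4 h4'
    rw [← h5] at h1'
    have h6 := (T j).hp.mn.inj' (Wc_br XP K n _) (hwg j (by omega)).1 (h1.trans h1'.symm)
    exact absurd ((T j).ho.1 h6) (by decide)
  have hall : ∀ j, j ≤ L → w j = w 0 := by
    intro j
    induction j with
    | zero => exact fun _ => rfl
    | succ j ih => exact fun hj => (hstep j hj).symm.trans (ih (by omega))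
  have hfin : ∀ e : (ch T L).G.E, ∃ x : (Wc XP K n (w 0)).G.E,
      Eqv (SN XP K n) (f e) (Sum.inr ⟨w 0, x⟩) := by
    intro e
    obtain ⟨j, hj, x, rfl⟩ := io_surj T L e
    have : ∃ x' : (Wc XP K n (w j)).G.E, Eqv (SN XP K n) (f (io T L j x)) (Sum.inr ⟨w j, x'⟩) :=
      ⟨_, (hwg j hj).2 x⟩
    rw [hall j hj] at this
    exact this
  choose g' hg' using hfin
  refine ⟨w 0, g', fun χ hχ => ?_, hg'⟩
  obtain ⟨ψ, hψ, h1⟩ := hM.extW (w 0) hχ
  have h2 : χ ∘ g' = ψ ∘ f := by
    funext e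
    simp only [Function.comp_apply]
    rw [hg' e ψ hψ, h1]
  rw [h2]
  exact hf ψ hψ

/-- if the ring of length `N` maps to the ring of length `M` then `M` divides `N` -/
theorem SN_rev (hX : Crit XP.G) {N M : ℕ} [NeZero N] [NeZero M] (h2 : 2 ∣ M)
    {f : (SN XP K N).E → (SN XP K M).E} (hf : CC (SN XP K N) (SN XP K M) f) : M ∣ N := by
  classical
  have hN := SN_amal XP K N
  have hM := SN_amal XP K M
  have hex := fun v : Qn N × Bool => W_in h2 (pcs XP (v.1.2, v.2)) (16 + 2 * K)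
    (pcs_noth hX (v.1.2, v.2)) (f := fun e => f (Sum.inr ⟨v, e⟩)) (hf.comp (hN.cW v))
  choose w g hg hwg using hex
  have hty : ∀ v, (v.1.2, v.2) = ((w v).1.2, (w v).2) := fun v =>
    type_rigid hX (v.1.2, v.2) ((w v).1.2, (w v).2) K (hg v)
  have hw2 : ∀ v, (w v).2 = v.2 := fun v => (congrArg Prod.snd (hty v)).symm
  have hw12 : ∀ v, (w v).1.2 = v.1.2 := fun v => (congrArg Prod.fst (hty v)).symm
  let Φ : Qn N → Qn M := fun q => (w (q, false)).1
  have hΦ : ∀ q, w (q, false) = (Φ q, false) := fun q => Prod.ext rfl (hw2 _)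
  have hΦ2 : ∀ q, (Φ q).2 = q.2 := fun q => hw12 _
  have step : ∀ q, Φ (nx N q) = nx M (Φ q) := by
    intro q
    have j1 := hN.junc (q, false) 0
    have j2 := hN.junc (nx N q, false) 1
    have e1 : lst (Qn N) (nx N) (nx N q, false) 1 = lst (Qn N) (nx N) (q, false) 0 := by
      change ((nx N).symm (nx N q), rl false) = (q, rl false)
      rw [Equiv.symm_apply_apply]
    rw [e1] at j2
    have h3 := (j1.symm.trans j2).map hf
    have h4 := (hwg (q, false) _).symm.trans (h3.trans (hwg (nx N q, false) _))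
    have hne : w (q, false) ≠ w (nx N q, false) := by
      intro h
      have h5 := hw12 (q, false)
      have h6 := hw12 (nx N q, false)
      rw [← h, h5] at h6
      exact fin3_ne q.2 h6.symm
    obtain ⟨k, l, -, -, h5⟩ := hM.WW hne h4
    have h6 := lad_sep (nx_ne M) (nx_ne2 M) h5
    rw [hΦ, hΦ] at h6
    have t1 : (Φ (nx N q)).2 = (Φ q).2 + 1 := by rw [hΦ2, hΦ2]; rfl
    have key : Φ q = Φ (nx N q) ∨ Φ (nx N q) = nx M (Φ q) ∨ Φ q = nx M (Φ (nx N q)) := by
      have hr : (0 : Fin 3) ≠ 2 := by decide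
      have hs : ∀ x y : Qn M, (nx M).symm x = y → x = nx M y := by
        rintro x y rfl
        exact (Equiv.apply_symm_apply _ _).symm
      have hfst := congrArg Prod.fst h6
      fin_cases k <;> fin_cases l
      · exact Or.inl hfst
      · exact Or.inr (Or.inl (hs _ _ hfst.symm))
      · exact Or.inl hfst
      · exact Or.inr (Or.inr (hs _ _ hfst))
      · exact Or.inl ((nx M).symm.injective hfst)
      · exact absurd (congrArg Prod.snd h6) hr
      · exact Or.inl hfst
      · exact absurd (congrArg Prod.snd h6) hr.symm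
      · exact Or.inl hfst
    rcases key with h7 | h7 | h7
    · rw [← h7] at t1
      exact absurd t1.symm (fin3_ne _)
    · exact h7
    · exfalso
      have t2 := congrArg Prod.snd h7
      rw [nx_snd, t1] at t2
      exact fin3_ne2 _ t2.symm
  have hk : ∀ k : ℕ, Φ ((k : ZMod N), 0) = ((Φ (0, 0)).1 + (k : ZMod M), 0) := by
    intro k
    induction k with
    | zero =>
      rw [Nat.cast_zero, Nat.cast_zero, add_zero]
      exact Prod.ext rfl (hΦ2 _)
    | succ k ih =>
      rw [Nat.cast_succ, Nat.cast_succ, ← nx3, step, step, step, ih, nx3, add_assoc]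
  have h8 := hk N
  rw [ZMod.natCast_self] at h8
  have h9 := congrArg Prod.fst h8
  change (Φ (0, 0)).1 = (Φ (0, 0)).1 + (N : ZMod M) at h9
  exact (ZMod.natCast_eq_zero_iff N M).1 (left_eq_add.1 h9)

/-- the rings do not map to a small graph -/
theorem SN_no (hX : Crit XP.G) {c : MGraph} (hc : Tgt c) (hcard : Fintype.card c.V ≤ 16 + 2 * K)
    {f : (SN XP K n).E → c.E} (hf : CC (SN XP K n) c f) : False :=
  pcs_long hX ((0 : Fin 3), false) hc hcard (hf.comp ((SN_amal XP K n).cW ((0, 0), false)))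

end

end Pool.Agent.Y413.PO
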