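import Pool.Agent.Y413.PO.Amal

set_option autoImplicit false
set_option linter.dupNamespace false

/-!
Chains of pieces.
-/

open Finset

namespace Pool.Agent.Y413.PO

open Pool.Agent.H160R2.CC Pool.Agent.H160R2.CC.MGraph

/-- a piece with an entrance star `i` and an exit star `o` which share at most one edge -/
structure Pc where
  G : MGraph
  hp : Piece G
  u : G.V
  w : G.V
  i : Fin 3 → G.E
  o : Fin 3 → G.E
  hi : G.IsStar u i
  ho : G.IsStar w o
  sh : ∀ k k' l l', k ≠ k' → o k = i l → o k' = i l' → False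

/-- a graph with a star -/
structure Rt where
  G : MGraph
  v : G.V
  a : Fin 3 → G.E
  ha : G.IsStar v a

lemma Pc.ne (T : Pc) : T.w ≠ T.u := by
  intro h
  have key : ∀ k, ∃ l, T.o k = T.i l := by
    intro k
    have h1 := T.ho.2 (T.o k)
    rw [if_pos ⟨k, rfl⟩, h, T.hi.2] at h1
    by_contra hcon
    rw [if_neg (fun ⟨l, hl⟩ => hcon ⟨l, hl.symm⟩)] at h1
    exact absurd h1 (by decide)
  obtain ⟨l, hl⟩ := key 0
  obtain ⟨l', hl'⟩ := key 1
  exact T.sh 0 1 l l' (by decide) hl hl'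

lemma step_star (R : Rt) (T : Pc) : (glue R.G T.G R.v T.u R.a T.i).IsStar
    (Sum.inl (Sum.inr T.w)) (fun k => Sum.inr (T.o k)) := by
  refine ⟨fun k l hkl => T.ho.1 (Sum.inr_injective hkl), ?_⟩
  rintro (e | e)
  · rw [glue_inc_BA, if_neg]
    rintro ⟨k, hk⟩
    cases hk
  · rw [glue_inc_BB T.hi, if_neg T.ne, T.ho.2]
    by_cases he : ∃ k, T.o k = e
    · obtain ⟨k, hk⟩ := he
      rw [if_pos ⟨k, hk⟩, if_pos ⟨k, congrArg Sum.inr hk⟩]
    · rw [if_neg he, if_neg]
      rintro ⟨k, hk⟩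
      exact he ⟨k, Sum.inr_injective hk⟩

/-- attach a piece -/
def step (R : Rt) (T : Pc) : Rt where
  G := glue R.G T.G R.v T.u R.a T.i
  v := Sum.inl (Sum.inr T.w)
  a := fun k => Sum.inr (T.o k)
  ha := step_star R T

/-- the chain with the pieces `T 0, …, T n`, with its last exit star -/
def ch (T : ℕ → Pc) : ℕ → Rt
  | 0 => ⟨(T 0).G, (T 0).w, (T 0).o, (T 0).ho⟩
  | n + 1 => step (ch T n) (T (n + 1))

/-- the inclusion of the piece `T j` in the chain -/
noncomputable def io (T : ℕ → Pc) : (n j : ℕ) → (T j).G.E → (ch T n).G.E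
  | 0, j => fun e => if h : j = 0 then (h ▸ e : (T 0).G.E) else (T 0).o 0
  | n + 1, j => fun e => if h : j = n + 1 then
      (Sum.inr (h ▸ e : (T (n + 1)).G.E) : (ch T n).G.E ⊕ (T (n + 1)).G.E)
      else (Sum.inl (io T n j e) : (ch T n).G.E ⊕ (T (n + 1)).G.E)

lemma io_zero (T : ℕ → Pc) (e : (T 0).G.E) : io T 0 0 e = e := by
  simp [io]

lemma io_last (T : ℕ → Pc) (n : ℕ) (e : (T (n + 1)).G.E) :
    io T (n + 1) (n + 1) e = (Sum.inr e : (ch T n).G.E ⊕ (T (n + 1)).G.E) := by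
  simp [io]

lemma io_prev (T : ℕ → Pc) {n j : ℕ} (hj : j ≤ n) (e : (T j).G.E) :
    io T (n + 1) j e = (Sum.inl (io T n j e) : (ch T n).G.E ⊕ (T (n + 1)).G.E) := by
  have : j ≠ n + 1 := by omega
  simp [io, this]

lemma ch_a (T : ℕ → Pc) (n : ℕ) (k : Fin 3) : (ch T n).a k = io T n n ((T n).o k) := by
  cases n with
  | zero => rw [io_zero]; rfl
  | succ n => rw [io_last]; rfl

lemma glue_amal {A B : MGraph} {v : A.V} {u : B.V} {a : Fin 3 → A.E} {b : Fin 3 → B.E}
    (ha : A.IsStar v a) (hb : B.IsStar u b) (hA : A.Bridgeless) (hB : B.Bridgeless) :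
    Amal (glue A B v u a b) A Unit (fun _ => B) Sum.inl (fun _ => Sum.inr) (fun _ => a)
      (fun _ => b) where
  surj := by
    rintro (e | e)
    · exact Or.inl ⟨e, rfl⟩
    · exact Or.inr ⟨(), e, rfl⟩
  cR := glue_inl ha
  cW := fun _ => glue_inr hb
  eq := fun ψ hψ _ k => glue_eq ha hb hψ k
  flow := fun φ χ hφ hχ hm => ⟨Sum.elim φ (χ ()), glue_flow ha hb hφ (hχ ()) (fun k => hm () k),
    fun _ => rfl, fun _ _ => rfl⟩
  brR := hA
  brW := fun _ => hB
  stR := fun _ => ⟨v, ha⟩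
  stW := fun _ => ⟨u, hb⟩

lemma ch_br (T : ℕ → Pc) (n : ℕ) : (ch T n).G.Bridgeless := by
  induction n with
  | zero => exact (T 0).hp.mn.br
  | succ n ih => exact (glue_amal (ch T n).ha (T (n + 1)).hi ih (T (n + 1)).hp.mn.br).br

lemma ch_amal (T : ℕ → Pc) (n : ℕ) : Amal (ch T (n + 1)).G (ch T n).G Unit
    (fun _ => (T (n + 1)).G) Sum.inl (fun _ => Sum.inr) (fun _ => (ch T n).a)
      (fun _ => (T (n + 1)).i) :=
  glue_amal (ch T n).ha (T (n + 1)).hi (ch_br T n) (T (n + 1)).hp.mn.br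

lemma io_cc (T : ℕ → Pc) {n j : ℕ} (hj : j ≤ n) : CC (T j).G (ch T n).G (io T n j) := by
  induction n with
  | zero =>
    obtain rfl : j = 0 := by omega
    intro φ hφ
    have : φ ∘ io T 0 0 = φ := by
      funext e
      simp only [Function.comp_apply]
      rw [io_zero]
    rw [this]; exact hφ
  | succ n ih =>
    intro φ hφ
    rcases Nat.lt_or_ge n j with h | h
    · obtain rfl : j = n + 1 := by omega
      have := (ch_amal T n).cW () φ hφ
      refine (congrArg (fun x => (T (n + 1)).G.Flow x) ?_).mp this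
      funext e
      simp only [Function.comp_apply]
      rw [io_last]
    · have := ih h _ ((ch_amal T n).cR φ hφ)
      refine (congrArg (fun x => (T j).G.Flow x) ?_).mp this
      funext e
      simp only [Function.comp_apply]
      rw [io_prev T h]

lemma io_ext (T : ℕ → Pc) {n j : ℕ} (hj : j ≤ n) {χ : (T j).G.E → ZMod 2}
    (hχ : (T j).G.Flow χ) : ∃ ψ, (ch T n).G.Flow ψ ∧ ∀ e, ψ (io T n j e) = χ e := by
  induction n with
  | zero =>
    obtain rfl : j = 0 := by omega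
    exact ⟨χ, hχ, fun e => by rw [io_zero]⟩
  | succ n ih =>
    rcases Nat.lt_or_ge n j with h | h
    · obtain rfl : j = n + 1 := by omega
      obtain ⟨ψ, hψ, h2⟩ := (ch_amal T n).extW () hχ
      exact ⟨ψ, hψ, fun e => by rw [io_last]; exact h2 e⟩
    · obtain ⟨ψ, hψ, h1⟩ := ih h
      obtain ⟨ψ', hψ', h2⟩ := (ch_amal T n).extR hψ
      exact ⟨ψ', hψ', fun e => by rw [io_prev T h, h2]; exact h1 e⟩

lemma io_eqv (T : ℕ → Pc) {n j : ℕ} (hj : j ≤ n) {x y : (T j).G.E}
    (h : Eqv (ch T n).G (io T n j x) (io T n j y)) : x = y := by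
  apply (T j).hp.mn.sep
  intro χ hχ
  obtain ⟨ψ, hψ, h1⟩ := io_ext T hj hχ
  rw [← h1, ← h1]; exact h ψ hψ

lemma io_surj (T : ℕ → Pc) (n : ℕ) (e : (ch T n).G.E) : ∃ j, j ≤ n ∧ ∃ x, e = io T n j x := by
  induction n with
  | zero => exact ⟨0, le_rfl, e, (io_zero T e).symm⟩
  | succ n ih =>
    rcases (ch_amal T n).surj e with ⟨x, rfl⟩ | ⟨_, x, rfl⟩
    · obtain ⟨j, hj, y, hy⟩ := ih x
      exact ⟨j, by omega, y, by rw [io_prev T hj, hy]⟩
    · exact ⟨n + 1, le_rfl, x, by rw [io_last]⟩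

lemma io_junc (T : ℕ → Pc) {n j : ℕ} (hj : j + 1 ≤ n) (k : Fin 3) :
    Eqv (ch T n).G (io T n j ((T j).o k)) (io T n (j + 1) ((T (j + 1)).i k)) := by
  induction n with
  | zero => omega
  | succ n ih =>
    rcases Nat.lt_or_ge n (j + 1) with h | h
    · obtain rfl : j = n := by omega
      rw [io_prev T le_rfl, io_last, ← ch_a]
      exact (ch_amal T j).junc () k
    · rw [io_prev T (show j ≤ n by omega), io_prev T h]
      exact (ih h).map (ch_amal T n).cR

/-- equivalent edges of different pieces belong to the stars towards each other -/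
lemma io_guts (T : ℕ → Pc) {n j j' : ℕ} (hjj : j < j') (hj : j' ≤ n) {x : (T j).G.E}
    {y : (T j').G.E} (h : Eqv (ch T n).G (io T n j x) (io T n j' y)) :
    (∃ k, x = (T j).o k) ∧ ∃ k, y = (T j').i k := by
  induction n generalizing j j' with
  | zero => omega
  | succ n ih =>
    rcases Nat.lt_or_ge n j' with h1 | h1
    · obtain rfl : j' = n + 1 := by omega
      rw [io_prev T (show j ≤ n by omega), io_last] at h
      obtain ⟨k, hk⟩ := (ch_amal T n).outR (i := ()) h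
      obtain ⟨l, hl⟩ := (ch_amal T n).outW (i := ()) h.symm (Or.inl ⟨_, rfl⟩)
      refine ⟨?_, l, (T (n + 1)).hp.mn.sep hl⟩
      rw [ch_a] at hk
      rcases Nat.lt_or_ge j n with h2 | h2
      · exact (ih h2 le_rfl hk).1
      · obtain rfl : j = n := by omega
        exact ⟨k, io_eqv T le_rfl hk⟩
    · rw [io_prev T (show j ≤ n by omega), io_prev T h1] at h
      exact ih hjj h1 ((ch_amal T n).eqvR h)

lemma io_adj (T : ℕ → Pc) {n j j' : ℕ} (hjj : j < j') (hj : j' ≤ n) {x x' : (T j).G.E}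
    {y y' : (T j').G.E} (hne : x ≠ x') (h : Eqv (ch T n).G (io T n j x) (io T n j' y))
    (h' : Eqv (ch T n).G (io T n j x') (io T n j' y')) : j' = j + 1 := by
  by_contra hcon
  obtain ⟨⟨k, rfl⟩, -⟩ := io_guts T hjj hj h
  obtain ⟨⟨k', rfl⟩, -⟩ := io_guts T hjj hj h'
  have h1 := (io_junc T (n := n) (j := j) (by omega) k).symm.trans h
  have h2 := (io_junc T (n := n) (j := j) (by omega) k').symm.trans h'
  obtain ⟨⟨l, hl⟩, -⟩ := io_guts T (show j + 1 < j' by omega) hj h1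
  obtain ⟨⟨l', hl'⟩, -⟩ := io_guts T (show j + 1 < j' by omega) hj h2
  have hll : l ≠ l' := by
    rintro rfl
    exact hne (by rw [(T (j + 1)).hi.1 (hl.trans hl'.symm)])
  exact (T (j + 1)).sh l l' k k' hll hl.symm hl'.symm

/-- maps from pieces to chains factor through pieces -/
theorem ch_factor (T : ℕ → Pc) (n : ℕ) {Z : MGraph} (hZ : Piece Z) {f : Z.E → (ch T n).G.E}
    (hf : CC Z (ch T n).G f) : ∃ j, j ≤ n ∧ ∃ g : Z.E → (T j).G.E, CC Z (T j).G g ∧
      ∀ e, Eqv (ch T n).G (f e) (io T n j (g e)) := by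
  induction n with
  | zero => exact ⟨0, le_rfl, f, hf, fun e φ _ => congrArg φ (io_zero T (f e)).symm⟩
  | succ n ih =>
    rcases (ch_amal T n).factor hZ hf with ⟨g, hg, h1⟩ | ⟨_, g, hg, h1⟩
    · obtain ⟨j, hj, g', hg', h2⟩ := ih hg
      refine ⟨j, by omega, g', hg', fun e => ?_⟩
      rw [io_prev T hj]
      exact (h1 e).trans ((h2 e).map (ch_amal T n).cR)
    · exact ⟨n + 1, le_rfl, g, hg, fun e => by rw [io_last]; exact h1 e⟩

end Pool.Agent.Y413.PO
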