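import Pool.Agent.Y413.PO.PetD
import Pool.Agent.TH372.Pet.Props
import Pool.Agent.W829.CC.Main

set_option autoImplicit false
set_option linter.dupNamespace false

/-!
A second piece: a smallest bridgeless graph that does not map to the Petersen graph.
-/

open Finset

namespace Pool.Agent.Y413.PO

open Pool.Agent.H160R2.CC Pool.Agent.H160R2.CC.MGraph

/-- a smallest bridgeless graph without a map to the Petersen graph -/
structure Crit (X : MGraph) : Prop where
  br : X.Bridgeless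
  no : ¬ ∃ g, CC X petersen g
  min : ∀ Y : MGraph, Y.Bridgeless → Fintype.card Y.E < Fintype.card X.E → ∃ g, CC Y petersen g

lemma exists_crit : ∃ X, Crit X := by
  classical
  have hP : ∃ n : ℕ, ∃ X : MGraph, X.Bridgeless ∧ (¬ ∃ g, CC X petersen g) ∧
      Fintype.card X.E = n :=
    ⟨_, TH372.Pet.ceG, bridgeless_of_not_hasCutEdge TH372.Pet.no_cutEdge,
      fun h => TH372.Pet.not_succ (succ_iff.2 h), rfl⟩
  obtain ⟨X, h1, h2, h3⟩ := Nat.find_spec hP
  refine ⟨X, h1, h2, fun Y hY hlt => ?_⟩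
  by_contra hcon
  rw [h3] at hlt
  exact Nat.find_min hP hlt ⟨Y, hY, hcon, rfl⟩

lemma Crit.minG {X : MGraph} (hX : Crit X) : MinG X := by
  refine ⟨hX.br, fun Y hY hf => ?_⟩
  by_contra hlt
  obtain ⟨g, hg⟩ := hX.min Y hY (not_le.1 hlt)
  obtain ⟨f, hf⟩ := hf
  exact hX.no ⟨_, hg.comp hf⟩

lemma Crit.card {X : MGraph} (hX : Crit X) : 15 < Fintype.card X.E := by
  by_contra h
  exact hX.no (small_to_pet hX.minG (not_lt.1 h))

/-- colouring after contraction of one side -/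
lemma Crit.half {X : MGraph} (hX : Crit X) (p : X.V → ZMod 2) (t : ZMod 2)
    (he : ∃ e, p (X.src e) = t ∧ p (X.tgt e) = t) :
    ∃ F : X.E → Fin 15, ∀ φ, petersen.Flow φ → ∃ ψ, X.Flow ψ ∧
      ∀ e, ¬ (p (X.src e) = t ∧ p (X.tgt e) = t) → ψ e = φ (F e) := by
  classical
  obtain ⟨Z, i, h1, h2, h3, h4⟩ := exists_restrict _ X rfl
    {e | ¬ (p (X.src e) = t ∧ p (X.tgt e) = t)}
  obtain ⟨e0, he0⟩ := he
  have hlt : Fintype.card Z.E < Fintype.card X.E := by
    refine lt_of_le_of_ne (Fintype.card_le_of_injective i h1) (fun hc => ?_)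
    have hb : Function.Bijective i := (Fintype.bijective_iff_injective_and_card i).2 ⟨h1, hc⟩
    have : e0 ∈ Set.range i := hb.2 e0
    rw [h2] at this
    exact this he0
  have hbr : Z.Bridgeless := by
    intro z
    obtain ⟨φ, hφ, hz⟩ := hX.br (i z)
    exact ⟨_, h3 φ hφ, hz⟩
  obtain ⟨g, hg⟩ := hX.min Z hbr hlt
  have hF : ∃ F : X.E → Fin 15, ∀ z, F (i z) = g z :=
    ⟨Function.extend i (fun z => (g z : Fin 15)) (fun _ => 0), fun z => h1.extend_apply _ _ z⟩
  obtain ⟨F, hF⟩ := hF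
  refine ⟨F, fun φ hφ => ?_⟩
  obtain ⟨ψ, hψ, hψ2⟩ := h4 _ (hg φ hφ)
  refine ⟨ψ, hψ, fun e he => ?_⟩
  have hz : ∃ z, i z = e := by
    have : e ∈ Set.range i := by rw [h2]; exact he
    exact this
  obtain ⟨z, rfl⟩ := hz
  exact (congrFun hψ2 z).trans (congrArg φ (hF z).symm)

lemma Crit.cyc {X : MGraph} (hX : Crit X) (p : X.V → ZMod 2)
    (h3 : (univ.filter (fun e : X.E => p (X.src e) ≠ p (X.tgt e))).card ≤ 3) :
    (∀ e, ¬ (p (X.src e) = 1 ∧ p (X.tgt e) = 1)) ∨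
      (∀ e, ¬ (p (X.src e) = 0 ∧ p (X.tgt e) = 0)) := by
  classical
  by_contra hcon
  rw [not_or] at hcon
  obtain ⟨hc1, hc0⟩ := hcon
  push Not at hc1 hc0
  obtain ⟨F0, hF0⟩ := hX.half p 0 hc0
  obtain ⟨F1, hF1⟩ := hX.half p 1 hc1
  have z01 : ∀ x : ZMod 2, x = 0 → x ≠ 1 := by decide
  have z10 : ∀ x : ZMod 2, x = 1 → x ≠ 0 := by decide
  -- maps that agree on the cut
  have key : ∃ (G0 G1 : X.E → Fin 15),
      (∀ φ, petersen.Flow φ → ∃ ψ, X.Flow ψ ∧
        ∀ e, ¬ (p (X.src e) = 0 ∧ p (X.tgt e) = 0) → ψ e = φ (G0 e)) ∧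
      (∀ φ, petersen.Flow φ → ∃ ψ, X.Flow ψ ∧
        ∀ e, ¬ (p (X.src e) = 1 ∧ p (X.tgt e) = 1) → ψ e = φ (G1 e)) ∧
      ∀ e, p (X.src e) ≠ p (X.tgt e) → G0 e = G1 e := by
    set D := univ.filter (fun e : X.E => p (X.src e) ≠ p (X.tgt e)) with hD
    have hmem : ∀ e, p (X.src e) ≠ p (X.tgt e) ↔ e ∈ D := by intro e; simp [hD]
    have hsum : ∀ φ, X.Flow φ → ∑ e ∈ D, φ e = 0 := by
      intro φ hφ
      have := cut_orth p hφ
      rw [← this, hD, Finset.sum_filter]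
      refine Finset.sum_congr rfl (fun e _ => ?_)
      by_cases h : p (X.src e) ≠ p (X.tgt e)
      · rw [if_pos h]
        have hz : ∀ a b : ZMod 2, a ≠ b → a + b = 1 := by decide
        rw [hz _ _ h, one_mul]
      · rw [if_neg h]
        rw [not_not] at h
        rw [h, z2_add_self, zero_mul]
    interval_cases hcard : D.card
    · rw [Finset.card_eq_zero] at hcard
      refine ⟨F0, F1, hF0, hF1, fun e he => ?_⟩
      rw [hmem, hcard] at he
      simp at he
    · obtain ⟨e, he⟩ := Finset.card_eq_one.1 hcard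
      exfalso
      obtain ⟨φ, hφ, h1⟩ := hX.br e
      have := hsum φ hφ
      rw [he, Finset.sum_singleton, h1] at this
      exact absurd this (by decide)
    · obtain ⟨e, e', hne, he⟩ := Finset.card_eq_two.1 hcard
      exfalso
      apply hne
      apply hX.minG.sep
      intro φ hφ
      have := hsum φ hφ
      rw [he, Finset.sum_pair hne] at this
      exact z2_eq_of_add _ _ this
    · obtain ⟨s0, s1, s2, h01, h02, h12, he⟩ := Finset.card_eq_three.1 hcard
      have hs : ∀ φ, X.Flow φ → φ s0 + φ s1 + φ s2 = 0 := by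
        intro φ hφ
        have := hsum φ hφ
        rw [he, Finset.sum_insert (by simp [h01, h02]), Finset.sum_pair h12] at this
        rw [add_assoc]; exact this
      have hd : ∀ e, e = s0 ∨ e = s1 ∨ e = s2 → p (X.src e) ≠ p (X.tgt e) := by
        intro e h
        rw [hmem, he]
        simpa using h
      have hn0 : ∀ e, p (X.src e) ≠ p (X.tgt e) → ¬ (p (X.src e) = 0 ∧ p (X.tgt e) = 0) :=
        fun e h h' => h (h'.1.trans h'.2.symm)
      have hn1 : ∀ e, p (X.src e) ≠ p (X.tgt e) → ¬ (p (X.src e) = 1 ∧ p (X.tgt e) = 1) :=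
        fun e h h' => h (h'.1.trans h'.2.symm)
      obtain ⟨γ0, hγ0, hγ0'⟩ := norm (t := ![F0 s0, F0 s1, F0 s2]) (by
        intro φ hφ
        obtain ⟨ψ, hψ, hψ2⟩ := hF0 φ hφ
        have := hs ψ hψ
        rw [hψ2 _ (hn0 _ (hd _ (Or.inl rfl))), hψ2 _ (hn0 _ (hd _ (Or.inr (Or.inl rfl)))),
          hψ2 _ (hn0 _ (hd _ (Or.inr (Or.inr rfl))))] at this
        exact this)
      obtain ⟨γ1, hγ1, hγ1'⟩ := norm (t := ![F1 s0, F1 s1, F1 s2]) (by
        intro φ hφ
        obtain ⟨ψ, hψ, hψ2⟩ := hF1 φ hφ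
        have := hs ψ hψ
        rw [hψ2 _ (hn1 _ (hd _ (Or.inl rfl))), hψ2 _ (hn1 _ (hd _ (Or.inr (Or.inl rfl)))),
          hψ2 _ (hn1 _ (hd _ (Or.inr (Or.inr rfl))))] at this
        exact this)
      refine ⟨γ0 ∘ F0, γ1 ∘ F1, fun φ hφ => hF0 _ (hγ0 φ hφ), fun φ hφ => hF1 _ (hγ1 φ hφ),
        fun e h => ?_⟩
      rw [hmem, he] at h
      simp only [Finset.mem_insert, Finset.mem_singleton] at h
      rcases h with rfl | rfl | rfl
      · exact (hγ0' 0).trans (hγ1' 0).symm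
      · exact (hγ0' 1).trans (hγ1' 1).symm
      · exact (hγ0' 2).trans (hγ1' 2).symm
  obtain ⟨G0, G1, h0, h1, hag⟩ := key
  apply hX.no
  let G : X.E → Fin 15 := fun e => if p (X.src e) = 0 ∧ p (X.tgt e) = 0 then G1 e else G0 e
  have hGp : ∀ e, (p (X.src e) = 0 ∧ p (X.tgt e) = 0) → G e = G1 e := fun e h => if_pos h
  have hGn : ∀ e, ¬ (p (X.src e) = 0 ∧ p (X.tgt e) = 0) → G e = G0 e := fun e h => if_neg h
  refine ⟨G, fun φ hφ w => ?_⟩
  have hz01 : ∀ x : ZMod 2, x ≠ 0 → x = 1 := by decide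
  rcases z2 (p w) with hw | hw
  · obtain ⟨ψ, hψ, hψ2⟩ := h1 φ hφ
    refine Eq.trans ?_ (hψ w)
    unfold bd
    refine Finset.sum_congr rfl (fun e _ => ?_)
    rcases z2 (X.inc w e) with hi | hi
    · rw [hi, zero_mul, zero_mul]
    · congr 1
      have hor : p (X.src e) = 0 ∨ p (X.tgt e) = 0 := by
        rcases X.one_end hi with ⟨h, -⟩ | ⟨-, h⟩
        · left; rw [h]; exact hw
        · right; rw [h]; exact hw
      have hn : ¬ (p (X.src e) = 1 ∧ p (X.tgt e) = 1) := by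
        rintro ⟨a, b⟩
        rcases hor with h | h
        · exact z01 _ h a
        · exact z01 _ h b
      rw [hψ2 e hn]
      refine congrArg φ ?_
      by_cases h : p (X.src e) = 0 ∧ p (X.tgt e) = 0
      · exact hGp e h
      · refine (hGn e h).trans (hag e (fun hcon => h ?_))
        rcases hor with h' | h'
        · exact ⟨h', hcon ▸ h'⟩
        · exact ⟨hcon.symm ▸ h', h'⟩
  · obtain ⟨ψ, hψ, hψ2⟩ := h0 φ hφ
    refine Eq.trans ?_ (hψ w)
    unfold bd
    refine Finset.sum_congr rfl (fun e _ => ?_)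
    rcases z2 (X.inc w e) with hi | hi
    · rw [hi, zero_mul, zero_mul]
    · congr 1
      have hn : ¬ (p (X.src e) = 0 ∧ p (X.tgt e) = 0) := by
        rintro ⟨a, b⟩
        rcases X.one_end hi with ⟨h, -⟩ | ⟨-, h⟩
        · rw [h] at a; exact z10 _ hw a
        · rw [h] at b; exact z10 _ hw b
      rw [hψ2 e hn]
      exact congrArg φ (hGn e hn)

lemma Crit.piece {X : MGraph} (hX : Crit X) : Piece X := by
  refine ⟨hX.minG, ?_, hX.cyc⟩
  have := hX.card
  have h2 : 1 < Fintype.card X.E := by omega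
  obtain ⟨x, y, h⟩ := Fintype.one_lt_card_iff.1 h2
  exact ⟨x, y, h⟩

end Pool.Agent.Y413.PO
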