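import Pool.Agent.Y413.PO.Asm

set_option autoImplicit false
set_option linter.dupNamespace false

/-!
Disjoint unions of finitely many graphs, and maps from ring assemblies to disjoint unions.
-/

open Finset

namespace Pool.Agent.Y413.PO

open Pool.Agent.H160R2.CC Pool.Agent.H160R2.CC.MGraph

section
variable (I : Type) [Fintype I] [DecidableEq I] (G : I → MGraph)

/-- the disjoint union -/
def ds : MGraph where
  V := Σ i, (G i).V
  E := Σ i, (G i).E
  src := fun e => ⟨e.1, (G e.1).src e.2⟩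
  tgt := fun e => ⟨e.1, (G e.1).tgt e.2⟩

end

section
variable {I : Type} [Fintype I] [DecidableEq I] {G : I → MGraph}

lemma ds_inc (i : I) (v : (G i).V) (e : (G i).E) :
    (ds I G).inc ⟨i, v⟩ ⟨i, e⟩ = (G i).inc v e := by
  have key : ∀ y : (G i).V, ((⟨i, y⟩ : Σ i, (G i).V) = ⟨i, v⟩) ↔ y = v := by
    intro y
    constructor
    · intro h
      simpa using h
    · rintro rfl; rfl
  change (if (⟨i, (G i).src e⟩ : Σ i, (G i).V) = ⟨i, v⟩ then (1 : ZMod 2) else 0) +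
    (if (⟨i, (G i).tgt e⟩ : Σ i, (G i).V) = ⟨i, v⟩ then 1 else 0) = _
  simp only [key]
  rfl

lemma ds_inc' {i j : I} (hne : j ≠ i) (v : (G i).V) (e : (G j).E) :
    (ds I G).inc ⟨i, v⟩ ⟨j, e⟩ = 0 := by
  have key : ∀ y : (G j).V, (⟨j, y⟩ : Σ i, (G i).V) ≠ ⟨i, v⟩ := fun y h =>
    hne (congrArg Sigma.fst h)
  change (if (⟨j, (G j).src e⟩ : Σ i, (G i).V) = ⟨i, v⟩ then (1 : ZMod 2) else 0) +
    (if (⟨j, (G j).tgt e⟩ : Σ i, (G i).V) = ⟨i, v⟩ then 1 else 0) = _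
  rw [if_neg (key _), if_neg (key _), add_zero]

lemma ds_flow (ψ : (Σ i, (G i).E) → ZMod 2) :
    (ds I G).Flow ψ ↔ ∀ i, (G i).Flow (fun e => ψ ⟨i, e⟩) := by
  have key : ∀ (i : I) (v : (G i).V), (ds I G).bd ψ ⟨i, v⟩ = (G i).bd (fun e => ψ ⟨i, e⟩) v := by
    intro i v
    change ∑ e : (Σ i, (G i).E), (ds I G).inc ⟨i, v⟩ e * ψ e = _
    rw [Fintype.sum_sigma, Finset.sum_eq_single i]
    · simp_rw [ds_inc]
      rfl
    · intro j _ hne
      refine Finset.sum_eq_zero (fun e _ => ?_)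
      rw [ds_inc' hne, zero_mul]
    · intro h; exact absurd (Finset.mem_univ _) h
  constructor
  · intro h i v
    rw [← key]
    exact h ⟨i, v⟩
  · rintro h ⟨i, v⟩
    rw [key]
    exact h i v

lemma ds_in (i : I) : CC (G i) (ds I G) (fun e => ⟨i, e⟩) := fun ψ hψ => (ds_flow ψ).1 hψ i

lemma ds_only (i : I) {φ : (G i).E → ZMod 2} (hφ : (G i).Flow φ) :
    ∃ ψ : (Σ i, (G i).E) → ZMod 2, (ds I G).Flow ψ ∧ (∀ e, ψ ⟨i, e⟩ = φ e) ∧
      ∀ j e, j ≠ i → ψ ⟨j, e⟩ = 0 := by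
  classical
  let χ : ∀ j, (G j).E → ZMod 2 := Function.update (fun _ _ => 0) i φ
  refine ⟨fun x => χ x.1 x.2, (ds_flow _).2 fun j => ?_, fun e => ?_, fun j e hj => ?_⟩
  · change (G j).Flow (χ j)
    by_cases hj : j = i
    · subst hj
      simp only [χ, Function.update_self]
      exact hφ
    · simp only [χ, Function.update_of_ne hj]
      exact Flow.zero _
  · simp only [χ, Function.update_self]
  · simp only [χ, Function.update_of_ne hj]

lemma ds_br (h : ∀ i, (G i).Bridgeless) : (ds I G).Bridgeless := by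
  rintro ⟨i, e⟩
  obtain ⟨φ, hφ, h1⟩ := h i e
  obtain ⟨ψ, hψ, h2, -⟩ := ds_only i hφ
  exact ⟨ψ, hψ, (h2 e).trans h1⟩

lemma ds_map {H : MGraph} (h : ∀ i, ∃ f, CC (G i) H f) : ∃ f, CC (ds I G) H f := by
  choose f hf using h
  exact ⟨fun x => f x.1 x.2, fun φ hφ => (ds_flow _).2 fun i => hf i φ hφ⟩

lemma ds_eqv (h : ∀ i, (G i).Bridgeless) {x y : Σ i, (G i).E} (he : Eqv (ds I G) x y) :
    x.1 = y.1 := by
  obtain ⟨i, x⟩ := x
  obtain ⟨j, y⟩ := y
  by_contra hne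
  obtain ⟨φ, hφ, h1⟩ := h i x
  obtain ⟨ψ, hψ, h2, h3⟩ := ds_only i hφ
  have h4 := he ψ hψ
  rw [h2, h1, h3 j y (Ne.symm hne)] at h4
  exact absurd h4 (by decide)

lemma ds_piece (h : ∀ i, (G i).Bridgeless) {Z : MGraph} (hZ : Piece Z) {f : Z.E → Σ i, (G i).E}
    (hf : CC Z (ds I G) f) (e e' : Z.E) : (f e).1 = (f e').1 := by
  have := hZ.L1 hf (fun g => g.1 = (f e).1) (fun _ => False) ?_ ?_ ?_
  · rcases this with h1 | h1
    · exact absurd rfl (h1 e)
    · rcases h1 e' with h2 | h2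
      · exact h2.symm
      · exact h2.elim
  · intro s hs
    have : s = ∅ := by
      rw [Finset.eq_empty_iff_forall_notMem]
      intro x hx
      exact (hs x hx).2
    rw [this]; simp
  · rintro ⟨i, g⟩ hg
    obtain ⟨φ, hφ, h1⟩ := h i g
    obtain ⟨ψ, hψ, h2, h3⟩ := ds_only i hφ
    refine ⟨ψ, hψ, ?_, (h2 g).trans h1⟩
    rintro ⟨j, x⟩ hx
    exact h3 j x (fun hj => hx (hj.trans hg))
  · rintro ⟨i, g⟩ hg -
    obtain ⟨φ, hφ, h1⟩ := h i g
    obtain ⟨ψ, hψ, h2, h3⟩ := ds_only i hφ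
    refine ⟨ψ, hψ, ?_, (h2 g).trans h1⟩
    rintro ⟨j, x⟩ hx
    exact h3 j x (fun hj => hg (hj.symm.trans hx))

lemma ds_chain (h : ∀ i, (G i).Bridgeless) (T : ℕ → Pc) (L : ℕ)
    {f : (ch T L).G.E → Σ i, (G i).E} (hf : CC (ch T L).G (ds I G) f) (e e' : (ch T L).G.E) :
    (f e).1 = (f e').1 := by
  have h1 : ∀ j, j ≤ L → ∀ x x' : (T j).G.E, (f (io T L j x)).1 = (f (io T L j x')).1 :=
    fun j hj x x' => ds_piece h (T j).hp (f := fun x => f (io T L j x)) (hf.comp (io_cc T hj)) x x'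
  have h2 : ∀ j, j ≤ L → ∀ x : (T j).G.E, (f (io T L j x)).1 = (f (io T L 0 ((T 0).o 0))).1 := by
    intro j
    induction j with
    | zero => exact fun hj x => h1 0 hj _ _
    | succ j ih =>
      intro hj x
      have h3 := ds_eqv h ((io_junc T hj 0).map hf)
      rw [h1 (j + 1) hj x ((T (j + 1)).i 0), ← h3]
      exact ih (by omega) _
  obtain ⟨j, hj, x, rfl⟩ := io_surj T L e
  obtain ⟨j', hj', x', rfl⟩ := io_surj T L e'
  rw [h2 j hj, h2 j' hj']

/-- a ring which maps to a disjoint union maps to one of the parts -/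
theorem ds_ring (h : ∀ i, (G i).Bridgeless) {XP : Pc} {K n : ℕ} [NeZero n]
    {f : (SN XP K n).E → Σ i, (G i).E} (hf : CC (SN XP K n) (ds I G) f) :
    ∃ i, ∃ g, CC (SN XP K n) (G i) g := by
  classical
  have hN := SN_amal XP K n
  have h1 : ∀ (v : Qn n × Bool) (e e' : (Wc XP K n v).G.E),
      (f (Sum.inr ⟨v, e⟩)).1 = (f (Sum.inr ⟨v, e'⟩)).1 := fun v e e' =>
    ds_chain h (pcs XP (v.1.2, v.2)) (16 + 2 * K) (f := fun e => f (Sum.inr ⟨v, e⟩))
      (hf.comp (hN.cW v)) e e'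
  let cv : Qn n × Bool → I := fun v => (f (Sum.inr ⟨v, (Wc XP K n v).a 0⟩)).1
  have h2 : ∀ v k, (f (Sum.inl (lst (Qn n) (nx n) v k))).1 = cv v := by
    intro v k
    have := ds_eqv h ((hN.junc v k).map hf)
    rw [this]
    exact h1 v _ _
  have h3 : ∀ q, cv (nx n q, false) = cv (q, false) := by
    intro q
    rw [← h2 (q, false) 0, ← h2 (nx n q, false) 1]
    have e1 : lst (Qn n) (nx n) (nx n q, false) 1 = lst (Qn n) (nx n) (q, false) 0 := by
      change ((nx n).symm (nx n q), rl false) = (q, rl false)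
      rw [Equiv.symm_apply_apply]
    rw [e1]
  have h4 : ∀ q, cv (q, true) = cv (q, false) := by
    intro q
    rw [← h2 (q, false) 2, ← h2 (q, true) 2]
    rfl
  have h5 : ∀ v, cv v = cv ((0, 0), false) := by
    rintro ⟨q, b⟩
    have h6 := orbit n (fun q => cv (q, false)) h3 q
    cases b
    · exact h6
    · exact (h4 q).trans h6
  have h6 : ∀ x, ∃ y : (G (cv ((0, 0), false))).E, f x = ⟨_, y⟩ := by
    intro x
    have h7 : (f x).1 = cv ((0, 0), false) := by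
      rcases x with ⟨q, c⟩ | ⟨v, e⟩
      · have hc : c = 0 ∨ c = 1 ∨ c = 2 := by
          have : ∀ c : Fin 3, c = 0 ∨ c = 1 ∨ c = 2 := by decide
          exact this c
        rcases hc with rfl | rfl | rfl
        · exact (h2 (q, false) 0).trans (h5 _)
        · exact (h2 (q, true) 0).trans (h5 _)
        · exact (h2 (q, false) 2).trans (h5 _)
      · exact (h1 v e _).trans (h5 v)
    rcases hfx : f x with ⟨i, y⟩
    rw [hfx] at h7
    subst h7
    exact ⟨y, rfl⟩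
  choose g hg using h6
  refine ⟨_, g, fun φ hφ => ?_⟩
  obtain ⟨ψ, hψ, h7, -⟩ := ds_only _ hφ
  have h8 : φ ∘ g = ψ ∘ f := by
    funext x
    simp only [Function.comp_apply]
    rw [hg x, h7]
  rw [h8]
  exact hf ψ hψ

end

end Pool.Agent.Y413.PO
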