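import Pool.Agent.H160R2.CC.Core2

set_option autoImplicit false
set_option linter.dupNamespace false

/-!
Bridgeless graphs all of whose cycle-continuous maps to bridgeless graphs are injective.
-/

open Finset

namespace Pool.Agent.Y413.PO

open Pool.Agent.H160R2.CC Pool.Agent.H160R2.CC.MGraph

/-! ### Merging two edges at a vertex -/

/-- the end of `e` other than `v` -/
def oe (G : MGraph) (v : G.V) (e : G.E) : G.V := if G.src e = v then G.tgt e else G.src e

/-- the edges `e₁`, `e₂` at `v` are replaced by one edge between their other ends -/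
def merge (G : MGraph) (v : G.V) (e₁ e₂ : G.E) : MGraph where
  V := G.V
  E := {e : G.E // e ≠ e₂}
  src := fun e => if e.1 = e₁ then oe G v e₁ else G.src e.1
  tgt := fun e => if e.1 = e₁ then oe G v e₂ else G.tgt e.1

lemma oe_inc (G : MGraph) {v : G.V} {e : G.E} (h : G.inc v e = 1) (w : G.V) :
    G.inc w e = (if v = w then 1 else 0) + (if oe G v e = w then 1 else 0) := by
  unfold inc oe
  rcases one_end G h with ⟨h1, h2⟩ | ⟨h1, h2⟩
  · rw [if_pos h1, h1]
  · rw [if_neg h1, h2, add_comm]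

lemma merge_inc (G : MGraph) {v : G.V} {e₁ e₂ : G.E} (h1 : G.inc v e₁ = 1) (h2 : G.inc v e₂ = 1)
    (w : G.V) (e : {e : G.E // e ≠ e₂}) : (merge G v e₁ e₂).inc w e =
      G.inc w e.1 + (if e.1 = e₁ then G.inc w e₂ else 0) := by
  change (if (if e.1 = e₁ then oe G v e₁ else G.src e.1) = w then (1 : ZMod 2) else 0) +
    (if (if e.1 = e₁ then oe G v e₂ else G.tgt e.1) = w then 1 else 0) = _
  by_cases h : e.1 = e₁
  · rw [if_pos h, if_pos h, if_pos h, h, oe_inc G h1 w, oe_inc G h2 w]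
    have := z2_add_self (if v = w then (1 : ZMod 2) else 0)
    linear_combination -this
  · rw [if_neg h, if_neg h, if_neg h, add_zero]
    rfl

lemma merge_bd (G : MGraph) {v : G.V} {e₁ e₂ : G.E} (hne : e₁ ≠ e₂) (h1 : G.inc v e₁ = 1)
    (h2 : G.inc v e₂ = 1) (φ : G.E → ZMod 2) (h : φ e₁ = φ e₂) (w : G.V) :
    (merge G v e₁ e₂).bd (fun e : {e : G.E // e ≠ e₂} => φ e.1) w = G.bd φ w := by
  change ∑ e : {e : G.E // e ≠ e₂}, (merge G v e₁ e₂).inc w e * φ e.1 = ∑ e : G.E, G.inc w e * φ e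
  rw [Fintype.sum_eq_add_sum_subtype_ne _ e₂]
  have h3 : ∀ e : {e : G.E // e ≠ e₂}, (merge G v e₁ e₂).inc w e * φ e.1 =
      G.inc w e.1 * φ e.1 + (if e = ⟨e₁, hne⟩ then G.inc w e₂ * φ e₂ else 0) := by
    intro e
    rw [merge_inc G h1 h2]
    by_cases he : e.1 = e₁
    · have : e = ⟨e₁, hne⟩ := Subtype.ext he
      rw [if_pos he, if_pos this, add_mul, he, h]
    · have : e ≠ ⟨e₁, hne⟩ := fun h => he (congrArg Subtype.val h)
      rw [if_neg he, if_neg this, add_zero, add_zero]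
  rw [Finset.sum_congr rfl (fun e _ => h3 e), Finset.sum_add_distrib, Finset.sum_ite_eq']
  rw [if_pos (Finset.mem_univ _), add_comm]

/-! ### Restriction (contraction of all other edges) -/

/-- contraction of the edges outside of `S` -/
lemma exists_restrict : ∀ (n : ℕ) (Y : MGraph) (_ : Fintype.card Y.E = n) (S : Set Y.E),
    ∃ (Z : MGraph) (i : Z.E → Y.E), Function.Injective i ∧ Set.range i = S ∧
      (∀ φ, Y.Flow φ → Z.Flow (φ ∘ i)) ∧ (∀ ψ, Z.Flow ψ → ∃ φ, Y.Flow φ ∧ φ ∘ i = ψ) := by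
  classical
  intro n
  induction n using Nat.strong_induction_on with
  | _ n ih =>
    intro Y hY S
    by_cases hS : S = Set.univ
    · subst hS
      exact ⟨Y, id, Function.injective_id, Set.range_id, fun φ h => h, fun ψ h => ⟨ψ, h, rfl⟩⟩
    · obtain ⟨e₀, he₀⟩ := (Set.ne_univ_iff_exists_notMem S).1 hS
      have hlt : Fintype.card (Y.contract e₀).E < n := by
        rw [← hY]
        change Fintype.card {e : Y.E // e ≠ e₀} < Fintype.card Y.E
        exact Fintype.card_subtype_lt (x := e₀) (by simp)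
      obtain ⟨Z, i, h1, h2, h3, h4⟩ := ih _ hlt (Y.contract e₀) rfl
        (fun e : {e : Y.E // e ≠ e₀} => e.1 ∈ S)
      have h2' : ∀ y : {e : Y.E // e ≠ e₀}, (∃ z, i z = y) ↔ y.1 ∈ S := fun y =>
        Set.ext_iff.1 h2 y
      refine ⟨Z, fun z => (i z).1, ?_, ?_, ?_, ?_⟩
      · intro z z' hz
        exact h1 (Subtype.ext hz)
      · ext e
        constructor
        · rintro ⟨z, rfl⟩
          exact (h2' (i z)).1 ⟨z, rfl⟩
        · intro he
          have hne : e ≠ e₀ := fun h => he₀ (h ▸ he)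
          obtain ⟨z, hz⟩ := (h2' ⟨e, hne⟩).2 he
          exact ⟨z, congrArg Subtype.val hz⟩
      · intro φ hφ
        exact h3 _ (contract_restrict Y e₀ hφ)
      · intro ψ hψ
        obtain ⟨χ, hχ, hχ2⟩ := h4 ψ hψ
        obtain ⟨φ, hφ, hφ2⟩ := contract_extend Y e₀ χ hχ
        refine ⟨φ, hφ, ?_⟩
        rw [← hχ2]
        funext z
        exact hφ2 (i z)

/-! ### Minimal graphs -/

/-- `c` is bridgeless and no bridgeless graph below `c` has fewer edges -/
structure MinG (c : MGraph) : Prop where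
  br : c.Bridgeless
  min : ∀ Y : MGraph, Y.Bridgeless → (∃ f, CC c Y f) → Fintype.card c.E ≤ Fintype.card Y.E

/-- below every bridgeless graph there is a minimal one -/
lemma exists_minG (A : MGraph) (hA : A.Bridgeless) : ∃ c, MinG c ∧ ∃ f, CC A c f := by
  classical
  have hP : ∃ n : ℕ, ∃ c : MGraph, c.Bridgeless ∧ (∃ f, CC A c f) ∧ Fintype.card c.E = n :=
    ⟨_, A, hA, ⟨id, CC.id A⟩, rfl⟩
  obtain ⟨c, h1, h2, h3⟩ := Nat.find_spec hP
  refine ⟨c, ⟨h1, fun Y hY hf => ?_⟩, h2⟩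
  rw [h3]
  obtain ⟨f, hf⟩ := hf
  obtain ⟨g, hg⟩ := h2
  exact Nat.find_min' hP ⟨Y, hY, ⟨_, hf.comp hg⟩, rfl⟩

/-- the image of a map -/
lemma exists_image {G Y : MGraph} (hY : Y.Bridgeless) {f : G.E → Y.E} (hf : CC G Y f) :
    ∃ (Z : MGraph) (i : Z.E → Y.E) (g : G.E → Z.E), Z.Bridgeless ∧ CC G Z g ∧ CC Z Y i ∧
      Function.Injective i ∧ Function.Surjective g ∧ i ∘ g = f := by
  classical
  obtain ⟨Z, i, h1, h2, h3, h4⟩ := exists_restrict _ Y rfl (Set.range f)
  have hg : ∀ e, ∃ z, i z = f e := by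
    intro e
    have : f e ∈ Set.range i := by rw [h2]; exact ⟨e, rfl⟩
    exact this
  choose g hg using hg
  refine ⟨Z, i, g, ?_, ?_, fun φ hφ => h3 φ hφ, h1, ?_, funext hg⟩
  · intro z
    obtain ⟨φ, hφ, hz⟩ := hY (i z)
    exact ⟨_, h3 φ hφ, hz⟩
  · intro ψ hψ
    obtain ⟨φ, hφ, rfl⟩ := h4 ψ hψ
    have : (φ ∘ i) ∘ g = φ ∘ f := by
      funext e
      simp [hg]
    rw [this]
    exact hf φ hφ
  · intro z
    have : i z ∈ Set.range f := by rw [← h2]; exact ⟨z, rfl⟩
    obtain ⟨e, he⟩ := this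
    exact ⟨e, h1 ((hg e).trans he)⟩

namespace MinG

variable {c : MGraph} (hc : MinG c)

include hc

/-- maps to bridgeless graphs are injective -/
lemma inj {Y : MGraph} (hY : Y.Bridgeless) {f : c.E → Y.E} (hf : CC c Y f) :
    Function.Injective f := by
  classical
  obtain ⟨Z, i, g, h1, h2, h3, h4, h5, h6⟩ := exists_image hY hf
  have hle := hc.min Z h1 ⟨g, h2⟩
  have hge : Fintype.card Z.E ≤ Fintype.card c.E := Fintype.card_le_of_surjective g h5
  have hbij : Function.Bijective g :=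
    (Fintype.bijective_iff_surjective_and_card g).2 ⟨h5, le_antisymm hle hge⟩
  rw [← h6]
  exact h4.comp hbij.1

/-- maps to bridgeless graphs are injective up to equivalence of edges in the target -/
lemma inj' {Y : MGraph} (hY : Y.Bridgeless) {f : c.E → Y.E} (hf : CC c Y f) {e e' : c.E}
    (h : ∀ ψ, Y.Flow ψ → ψ (f e) = ψ (f e')) : e = e' := by
  classical
  by_contra hne
  have hcc : CC c Y (Function.update f e' (f e)) := by
    intro φ hφ
    have : φ ∘ Function.update f e' (f e) = φ ∘ f := by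
      funext x
      by_cases hx : x = e'
      · subst hx; simp [h φ hφ]
      · simp [hx]
    rw [this]; exact hf φ hφ
  have hinj := hc.inj hY hcc
  apply hne
  apply hinj
  rw [Function.update_self, Function.update_of_ne hne]

lemma sep {e e' : c.E} (h : ∀ φ, c.Flow φ → φ e = φ e') : e = e' :=
  hc.inj' hc.br (CC.id c) h

lemma nz {e : c.E} (h : ∀ φ, c.Flow φ → φ e = 0) : False := by
  obtain ⟨φ, hφ, h1⟩ := hc.br e
  rw [h φ hφ] at h1
  exact absurd h1 (by decide)

/-- splitting two edges off a vertex -/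
lemma split_exists {v : c.V} {e₁ e₂ : c.E} (hne : e₁ ≠ e₂) (h1 : c.inc v e₁ = 1)
    (h2 : c.inc v e₂ = 1) : ∃ x, ∀ φ, c.Flow φ → φ x = φ e₁ + φ e₂ := by
  classical
  by_contra hno
  push Not at hno
  let g : c.E → {e : c.E // e ≠ e₂} := fun e => if h : e ≠ e₂ then ⟨e, h⟩ else ⟨e₁, hne⟩
  have hg1 : ∀ e (h : e ≠ e₂), g e = ⟨e, h⟩ := fun e h => dif_pos h
  have hg2 : g e₂ = ⟨e₁, hne⟩ := dif_neg (by simp)
  have hg : CC c (merge c v e₁ e₂) g := by
    intro χ hχ w
    have h3 : (χ ∘ g) e₁ = (χ ∘ g) e₂ := by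
      change χ (g e₁) = χ (g e₂)
      rw [hg1 e₁ hne, hg2]
    rw [← merge_bd c hne h1 h2 _ h3 w, ← hχ w]
    congr 1
    funext e
    change χ (g e.1) = χ e
    rw [hg1 e.1 e.2]
  have hbr : (merge c v e₁ e₂).Bridgeless := by
    rintro ⟨x, hx⟩
    have key : ∃ φ, c.Flow φ ∧ φ e₁ = φ e₂ ∧ φ x = 1 := by
      by_contra hcon
      push Not at hcon
      have hker : ∀ φ, c.Flow φ → φ e₁ = φ e₂ → φ x = 0 := by
        intro φ hφ h12
        rcases z2 (φ x) with h | h
        · exact h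
        · exact absurd h (hcon φ hφ h12)
      obtain ⟨φ₁, hφ₁, hφ₁b⟩ := hc.br x
      obtain ⟨φ₂, hφ₂, hφ₂b⟩ := hno x
      have hd : φ₁ e₁ + φ₁ e₂ = 1 := by
        rcases z2 (φ₁ e₁ + φ₁ e₂) with h | h
        · have := hker φ₁ hφ₁ (z2_eq_of_add _ _ h)
          rw [hφ₁b] at this
          exact absurd this (by decide)
        · exact h
      apply hφ₂b
      rcases z2 (φ₂ e₁ + φ₂ e₂) with h | h
      · rw [h]; exact hker φ₂ hφ₂ (z2_eq_of_add _ _ h)
      · have h5 : (φ₂ + φ₁) e₁ = (φ₂ + φ₁) e₂ := by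
          apply z2_eq_of_add
          have : (φ₂ + φ₁) e₁ + (φ₂ + φ₁) e₂ = (φ₂ e₁ + φ₂ e₂) + (φ₁ e₁ + φ₁ e₂) := by
            simp only [Pi.add_apply]; ring
          rw [this, h, hd]; decide
        have h6 := hker _ (hφ₂.add hφ₁) h5
        rw [Pi.add_apply, hφ₁b] at h6
        rw [h]
        have h7 : ∀ a : ZMod 2, a + 1 = 0 → a = 1 := by decide
        exact h7 _ h6
    obtain ⟨φ, hφ, h12, hx1⟩ := key
    refine ⟨fun e : {e : c.E // e ≠ e₂} => φ e.1, fun w => ?_, hx1⟩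
    rw [merge_bd c hne h1 h2 φ h12 w]
    exact hφ w
  have hinj := hc.inj hbr hg
  apply hne
  apply hinj
  rw [hg2, hg1 e₁ hne]

end MinG

end Pool.Agent.Y413.PO
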