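import Pool.Agent.Y413.PO.Min

set_option autoImplicit false
set_option linter.dupNamespace false

/-!
Minimal graphs are cubic up to isolated vertices.
-/

open Finset

namespace Pool.Agent.Y413.PO

open Pool.Agent.H160R2.CC Pool.Agent.H160R2.CC.MGraph

namespace MinG

variable {c : MGraph} (hc : MinG c)

include hc

/-- three edges at a vertex sum to zero -/
lemma three_sum {v : c.V} {e₁ e₂ e₃ : c.E} (h12 : e₁ ≠ e₂) (h13 : e₁ ≠ e₃) (h23 : e₂ ≠ e₃)
    (i1 : c.inc v e₁ = 1) (i2 : c.inc v e₂ = 1) (i3 : c.inc v e₃ = 1) :
    ∀ φ, c.Flow φ → φ e₁ + φ e₂ + φ e₃ = 0 := by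
  by_contra hno
  push Not at hno
  obtain ⟨φ₀, hφ₀, hφ₀'⟩ := hno
  obtain ⟨x, hx⟩ := hc.split_exists h12 i1 i2
  obtain ⟨y, hy⟩ := hc.split_exists h13 i1 i3
  have zaux : ∀ a b : ZMod 2, a = a + b → b = 0 := by decide
  have zaux2 : ∀ a b : ZMod 2, b = a + b → a = 0 := by decide
  have x1 : x ≠ e₁ := by
    rintro rfl; exact hc.nz (fun φ hφ => zaux _ _ (hx φ hφ))
  have x2 : x ≠ e₂ := by
    rintro rfl; exact hc.nz (fun φ hφ => zaux2 _ _ (hx φ hφ))
  have x3 : x ≠ e₃ := by
    rintro rfl
    apply hφ₀'
    rw [hx φ₀ hφ₀]; exact z2_add_self _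
  have y1 : y ≠ e₁ := by
    rintro rfl; exact hc.nz (fun φ hφ => zaux _ _ (hy φ hφ))
  have y3 : y ≠ e₃ := by
    rintro rfl; exact hc.nz (fun φ hφ => zaux2 _ _ (hy φ hφ))
  have y2 : y ≠ e₂ := by
    rintro rfl
    apply hφ₀'
    rw [hy φ₀ hφ₀]
    have : φ₀ e₁ + (φ₀ e₁ + φ₀ e₃) + φ₀ e₃ = (φ₀ e₁ + φ₀ e₁) + (φ₀ e₃ + φ₀ e₃) := by ring
    rw [this, z2_add_self, z2_add_self, add_zero]
  have xy : x ≠ y := by
    rintro rfl
    apply h23
    apply hc.sep
    intro φ hφ
    exact add_left_cancel ((hx φ hφ).symm.trans (hy φ hφ))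
  obtain ⟨p, hpv, hp⟩ := Core.cut3 (c := c) v (a := e₁) (b := e₂) (d := x) (by
    intro φ hφ
    rw [hx φ hφ]; exact z2_add_self _)
  obtain ⟨q, hqv, hq⟩ := Core.cut3 (c := c) v (a := e₁) (b := e₃) (d := y) (by
    intro φ hφ
    rw [hy φ hφ]; exact z2_add_self _)
  -- the two auxiliary cuts
  have key : ∀ φ, c.Flow φ →
      φ e₂ + (1 + q (c.src x)) * φ x + p (c.src y) * φ y = 0 ∧
      φ e₃ + q (c.src x) * φ x + (1 + p (c.src y)) * φ y = 0 := by
    intro φ hφ
    have hqx : q (c.src x) = q (c.tgt x) := by
      have := hq x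
      rw [if_neg x1, if_neg x3, if_neg xy] at this
      exact z2_eq_of_add _ _ (by rw [← this]; decide)
    have hpy : p (c.src y) = p (c.tgt y) := by
      have := hp y
      rw [if_neg y1, if_neg y2, if_neg xy.symm] at this
      exact z2_eq_of_add _ _ (by rw [← this]; decide)
    have hpx : (1 : ZMod 2) = p (c.src x) + p (c.tgt x) := by
      have := hp x
      rw [if_neg x1, if_neg x2, if_pos rfl] at this
      rw [← this]; decide
    have hqy : (1 : ZMod 2) = q (c.src y) + q (c.tgt y) := by
      have := hq y
      rw [if_neg y1, if_neg y3, if_pos rfl] at this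
      rw [← this]; decide
    have hp1 : (1 : ZMod 2) = p (c.src e₁) + p (c.tgt e₁) := by
      have := hp e₁
      rw [if_pos rfl, if_neg h12, if_neg x1.symm] at this
      rw [← this]; decide
    have hq1 : (1 : ZMod 2) = q (c.src e₁) + q (c.tgt e₁) := by
      have := hq e₁
      rw [if_pos rfl, if_neg h13, if_neg y1.symm] at this
      rw [← this]; decide
    have hp2 : (1 : ZMod 2) = p (c.src e₂) + p (c.tgt e₂) := by
      have := hp e₂
      rw [if_neg h12.symm, if_pos rfl, if_neg x2.symm] at this
      rw [← this]; decide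
    have hq2 : (0 : ZMod 2) = q (c.src e₂) + q (c.tgt e₂) := by
      have := hq e₂
      rw [if_neg h12.symm, if_neg h23, if_neg y2.symm] at this
      rw [← this]; decide
    have hp3 : (0 : ZMod 2) = p (c.src e₃) + p (c.tgt e₃) := by
      have := hp e₃
      rw [if_neg h13.symm, if_neg h23.symm, if_neg x3.symm] at this
      rw [← this]; decide
    have hq3 : (1 : ZMod 2) = q (c.src e₃) + q (c.tgt e₃) := by
      have := hq e₃
      rw [if_neg h13.symm, if_pos rfl, if_neg y3.symm] at this
      rw [← this]; decide
    have oth : ∀ e, e ≠ e₁ → e ≠ e₂ → e ≠ e₃ → e ≠ x → e ≠ y →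
        p (c.src e) = p (c.tgt e) ∧ q (c.src e) = q (c.tgt e) := by
      intro e g1 g2 g3 gx gy
      have a1 := hp e
      have a2 := hq e
      rw [if_neg g1, if_neg g2, if_neg gx] at a1
      rw [if_neg g1, if_neg g3, if_neg gy] at a2
      exact ⟨z2_eq_of_add _ _ (by rw [← a1]; decide), z2_eq_of_add _ _ (by rw [← a2]; decide)⟩
    constructor
    · have h := cut_orth (G := c) (fun w => p w * (1 + q w)) hφ
      rw [← h]
      have hpt : ∀ e, (p (c.src e) * (1 + q (c.src e)) + p (c.tgt e) * (1 + q (c.tgt e))) =
          (if e = e₂ then 1 else 0) + (if e = x then (1 + q (c.src x)) else 0) +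
            (if e = y then p (c.src y) else 0) := by
        intro e
        by_cases g1 : e = e₁
        · subst g1
          rw [if_neg h12, if_neg x1.symm, if_neg y1.symm]
          rcases c.one_end i1 with ⟨ha, -⟩ | ⟨-, ha⟩ <;> rw [ha] at hp1 hq1 ⊢ <;>
            rw [hpv] at hp1 ⊢ <;> rw [hqv] at hq1 ⊢
          · rw [zero_add] at hp1 hq1
            rw [← hp1, ← hq1]; decide
          · rw [add_zero] at hp1 hq1
            rw [← hp1, ← hq1]; decide
        · by_cases g2 : e = e₂
          · subst g2
            rw [if_pos rfl, if_neg x2.symm, if_neg y2.symm]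
            rcases c.one_end i2 with ⟨ha, -⟩ | ⟨-, ha⟩ <;> rw [ha] at hp2 hq2 ⊢ <;>
              rw [hpv] at hp2 ⊢ <;> rw [hqv] at hq2 ⊢
            · rw [zero_add] at hp2 hq2
              rw [← hp2, ← hq2]; decide
            · rw [add_zero] at hp2 hq2
              rw [← hp2, ← hq2]; decide
          · by_cases g3 : e = e₃
            · subst g3
              rw [if_neg h23.symm, if_neg x3.symm, if_neg y3.symm]
              rcases c.one_end i3 with ⟨ha, -⟩ | ⟨-, ha⟩ <;> rw [ha] at hp3 hq3 ⊢ <;>
                rw [hpv] at hp3 ⊢ <;> rw [hqv] at hq3 ⊢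
              · rw [zero_add] at hp3
                rw [← hp3]; ring
              · rw [add_zero] at hp3
                rw [← hp3]; ring
            · by_cases gx : e = x
              · subst gx
                rw [if_neg x2, if_pos rfl, if_neg xy, ← hqx]
                rw [← add_mul, ← hpx]; ring
              · by_cases gy : e = y
                · subst gy
                  rw [if_neg y2, if_neg xy.symm, if_pos rfl, ← hpy]
                  rw [← mul_add]
                  have : (1 + q (c.src e) + (1 + q (c.tgt e))) = 1 := by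
                    have h2 : (1 + q (c.src e) + (1 + q (c.tgt e))) =
                      (1 + 1) + (q (c.src e) + q (c.tgt e)) := by ring
                    rw [h2, ← hqy]; decide
                  rw [this]; ring
                · rw [if_neg g2, if_neg gx, if_neg gy]
                  obtain ⟨a1, a2⟩ := oth e g1 g2 g3 gx gy
                  rw [a1, a2, z2_add_self]; decide
      simp_rw [hpt, add_mul, ite_mul, one_mul, zero_mul]
      rw [Finset.sum_add_distrib, Finset.sum_add_distrib, Finset.sum_ite_eq', Finset.sum_ite_eq',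
        Finset.sum_ite_eq']
      simp only [Finset.mem_univ, if_true]
      ring
    · have h := cut_orth (G := c) (fun w => q w * (1 + p w)) hφ
      rw [← h]
      have hpt : ∀ e, (q (c.src e) * (1 + p (c.src e)) + q (c.tgt e) * (1 + p (c.tgt e))) =
          (if e = e₃ then 1 else 0) + (if e = x then q (c.src x) else 0) +
            (if e = y then (1 + p (c.src y)) else 0) := by
        intro e
        by_cases g1 : e = e₁
        · subst g1
          rw [if_neg h13, if_neg x1.symm, if_neg y1.symm]
          rcases c.one_end i1 with ⟨ha, -⟩ | ⟨-, ha⟩ <;> rw [ha] at hp1 hq1 ⊢ <;>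
            rw [hpv] at hp1 ⊢ <;> rw [hqv] at hq1 ⊢
          · rw [zero_add] at hp1 hq1
            rw [← hp1, ← hq1]; decide
          · rw [add_zero] at hp1 hq1
            rw [← hp1, ← hq1]; decide
        · by_cases g2 : e = e₂
          · subst g2
            rw [if_neg h23, if_neg x2.symm, if_neg y2.symm]
            rcases c.one_end i2 with ⟨ha, -⟩ | ⟨-, ha⟩ <;> rw [ha] at hp2 hq2 ⊢ <;>
              rw [hpv] at hp2 ⊢ <;> rw [hqv] at hq2 ⊢
            · rw [zero_add] at hq2
              rw [← hq2]; ring
            · rw [add_zero] at hq2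
              rw [← hq2]; ring
          · by_cases g3 : e = e₃
            · subst g3
              rw [if_pos rfl, if_neg x3.symm, if_neg y3.symm]
              rcases c.one_end i3 with ⟨ha, -⟩ | ⟨-, ha⟩ <;> rw [ha] at hp3 hq3 ⊢ <;>
                rw [hpv] at hp3 ⊢ <;> rw [hqv] at hq3 ⊢
              · rw [zero_add] at hp3 hq3
                rw [← hp3, ← hq3]; decide
              · rw [add_zero] at hp3 hq3
                rw [← hp3, ← hq3]; decide
            · by_cases gx : e = x
              · subst gx
                rw [if_neg x3, if_pos rfl, if_neg xy, ← hqx]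
                rw [← mul_add]
                have : (1 + p (c.src e) + (1 + p (c.tgt e))) = 1 := by
                  have h2 : (1 + p (c.src e) + (1 + p (c.tgt e))) =
                    (1 + 1) + (p (c.src e) + p (c.tgt e)) := by ring
                  rw [h2, ← hpx]; decide
                rw [this]; ring
              · by_cases gy : e = y
                · subst gy
                  rw [if_neg y3, if_neg xy.symm, if_pos rfl, ← hpy]
                  rw [← add_mul, ← hqy]; ring
                · rw [if_neg g3, if_neg gx, if_neg gy]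
                  obtain ⟨a1, a2⟩ := oth e g1 g2 g3 gx gy
                  rw [a1, a2, z2_add_self]; decide
      simp_rw [hpt, add_mul, ite_mul, one_mul, zero_mul]
      rw [Finset.sum_add_distrib, Finset.sum_add_distrib, Finset.sum_ite_eq', Finset.sum_ite_eq',
        Finset.sum_ite_eq']
      simp only [Finset.mem_univ, if_true]
      ring
  rcases z2 (q (c.src x)) with hs | hs <;> rcases z2 (p (c.src y)) with ht | ht
  · -- `e₂ = x`
    refine x2 (hc.sep (fun φ hφ => ?_)).symm
    have := (key φ hφ).1
    rw [hs, ht] at this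
    refine z2_eq_of_add _ _ ?_
    rw [← this]; ring
  · refine hc.nz (e := e₃) (fun φ hφ => ?_)
    have := (key φ hφ).2
    rw [hs, ht] at this
    have h11 : (1 : ZMod 2) + 1 = 0 := by decide
    rw [h11, zero_mul, zero_mul, add_zero, add_zero] at this
    exact this
  · refine hc.nz (e := e₂) (fun φ hφ => ?_)
    have := (key φ hφ).1
    rw [hs, ht] at this
    have h11 : (1 : ZMod 2) + 1 = 0 := by decide
    rw [h11, zero_mul, zero_mul, add_zero, add_zero] at this
    exact this
  · refine x3 (hc.sep (fun φ hφ => ?_)).symm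
    have := (key φ hφ).2
    rw [hs, ht] at this
    have h11 : (1 : ZMod 2) + 1 = 0 := by decide
    rw [h11, zero_mul, add_zero, one_mul] at this
    exact z2_eq_of_add _ _ this

/-- every edge at a vertex belongs to a star -/
lemma star_at {v : c.V} {e : c.E} (he : c.inc v e = 1) :
    ∃ a : Fin 3 → c.E, c.IsStar v a ∧ a 0 = e := by
  classical
  set S : Finset c.E := {x | c.inc v x = 1} with hS
  have hbd : ∀ φ, c.Flow φ → ∑ x ∈ S, φ x = 0 := by
    intro φ hφ
    have := hφ v
    unfold bd at this
    rw [← this, hS, Finset.sum_filter]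
    refine Finset.sum_congr rfl (fun x _ => ?_)
    rcases z2 (c.inc v x) with h | h <;> simp [h]
  have heS : e ∈ S := by simp [hS, he]
  have hcard : 1 < (S.erase e).card := by
    by_contra hlt
    push Not at hlt
    interval_cases h : (S.erase e).card
    · rw [Finset.card_eq_zero] at h
      have hSe : S = {e} := by
        rw [← Finset.insert_erase heS, h]; rfl
      refine hc.nz (e := e) (fun φ hφ => ?_)
      have := hbd φ hφ
      rw [hSe, Finset.sum_singleton] at this
      exact this
    · rw [Finset.card_eq_one] at h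
      obtain ⟨x, hx⟩ := h
      have hxe : x ≠ e := by
        intro h
        have : x ∈ S.erase e := by rw [hx]; simp
        rw [h] at this
        simp at this
      have hSe : S = {e, x} := by
        rw [← Finset.insert_erase heS, hx]
      apply hxe
      apply hc.sep
      intro φ hφ
      have := hbd φ hφ
      rw [hSe, Finset.sum_pair hxe.symm] at this
      exact (z2_eq_of_add _ _ this).symm
  obtain ⟨x, hx, y, hy, hxy⟩ := Finset.one_lt_card.1 hcard
  rw [Finset.mem_erase] at hx hy
  have ix : c.inc v x = 1 := by simpa [hS] using hx.2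
  have iy : c.inc v y = 1 := by simpa [hS] using hy.2
  have hall : ∀ z, c.inc v z = 1 → z = e ∨ z = x ∨ z = y := by
    intro z hz
    by_contra hno
    push Not at hno
    obtain ⟨z1, z2', z3⟩ := hno
    have s1 := hc.three_sum hx.1.symm hy.1.symm hxy he ix iy
    have s2 := hc.three_sum hx.1.symm (Ne.symm z1) (Ne.symm z2') he ix hz
    apply z3
    apply hc.sep
    intro φ hφ
    have := (s1 φ hφ).trans (s2 φ hφ).symm
    exact (add_left_cancel this).symm
  refine ⟨![e, x, y], ⟨?_, ?_⟩, rfl⟩
  · intro i j hij
    fin_cases i <;> fin_cases j <;> simp_all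
  · intro z
    by_cases hz : ∃ i, (![e, x, y] : Fin 3 → c.E) i = z
    · rw [if_pos hz]
      obtain ⟨i, rfl⟩ := hz
      fin_cases i
      · exact he
      · exact ix
      · exact iy
    · rw [if_neg hz]
      rcases z2 (c.inc v z) with h | h
      · exact h
      · exfalso
        apply hz
        rcases hall z h with rfl | rfl | rfl
        · exact ⟨0, rfl⟩
        · exact ⟨1, rfl⟩
        · exact ⟨2, rfl⟩


lemma noloop (h2 : ∃ x y : c.E, x ≠ y) (e : c.E) : c.src e ≠ c.tgt e := by
  intro hl
  obtain ⟨e₀, he₀⟩ : ∃ e₀, e₀ ≠ e := by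
    obtain ⟨x, y, hxy⟩ := h2
    by_cases hx : x = e
    · exact ⟨y, fun h => hxy (hx.trans h.symm)⟩
    · exact ⟨x, hx⟩
  have hcc : CC c c (Function.update id e e₀) := by
    intro φ hφ w
    have := hφ w
    unfold bd at this ⊢
    rw [← this]
    refine Finset.sum_congr rfl (fun x _ => ?_)
    by_cases hx : x = e
    · subst hx
      have : c.inc w x = 0 := by
        unfold inc
        rw [hl]; exact z2_add_self _
      rw [this, zero_mul, zero_mul]
    · simp [hx]
  have hinj := hc.inj hc.br hcc
  apply he₀
  apply hinj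
  rw [Function.update_self, Function.update_of_ne he₀]
  rfl

end MinG

end Pool.Agent.Y413.PO
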