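import Pool.Agent.Y413.PO.Side
import Pool.Agent.H160R2.CC.Pet

set_option autoImplicit false
set_option linter.dupNamespace false

/-!
The Petersen graph: cuts of size at most three, stars, no map to the graph with three parallel
edges.
-/

open Finset

namespace Pool.Agent.Y413.PO

open Pool.Agent.H160R2.CC Pool.Agent.H160R2.CC.MGraph

/-- two vertices joined by three parallel edges -/
def th : MGraph where
  V := Fin 2
  E := Fin 3
  src := fun _ => 0
  tgt := fun _ => 1

lemma th_flow (φ : Fin 3 → ZMod 2) : th.Flow φ ↔ φ 0 + φ 1 + φ 2 = 0 := by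
  have h0 : th.bd φ (0 : Fin 2) = φ 0 + φ 1 + φ 2 := by
    change ∑ e : Fin 3, ((if (0 : Fin 2) = 0 then (1 : ZMod 2) else 0) +
      (if (1 : Fin 2) = 0 then 1 else 0)) * φ e = _
    rw [Fin.sum_univ_three]
    simp
  have h1 : th.bd φ (1 : Fin 2) = φ 0 + φ 1 + φ 2 := by
    change ∑ e : Fin 3, ((if (0 : Fin 2) = 1 then (1 : ZMod 2) else 0) +
      (if (1 : Fin 2) = 1 then 1 else 0)) * φ e = _
    rw [Fin.sum_univ_three]
    simp
  constructor
  · intro h
    rw [← h0]; exact h _
  · intro h v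
    change Fin 2 at v
    fin_cases v
    · exact h0.trans h
    · exact h1.trans h

/-! ### cuts -/

/-- number of true entries -/
def cnt : List Bool → ℕ
  | [] => 0
  | b :: l => (bif b then 1 else 0) + cnt l

/-- the pairs of ends of the edges of the Petersen graph -/
def prs (b : Fin 10 → Bool) : List (Bool × Bool) :=
  [(b 0, b 1), (b 1, b 2), (b 2, b 3), (b 3, b 4), (b 4, b 0), (b 0, b 5), (b 1, b 6), (b 2, b 7),
    (b 3, b 8), (b 4, b 9), (b 5, b 7), (b 6, b 8), (b 7, b 9), (b 8, b 5), (b 9, b 6)]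

lemma cyc_bool : ∀ b0 b1 b2 b3 b4 b5 b6 b7 b8 b9 : Bool,
    (fun l : List (Bool × Bool) => (Nat.ble (cnt (l.map (fun x => xor x.1 x.2))) 3 = true →
      (l.all (fun x => !(x.1 && x.2)) || l.all (fun x => x.1 || x.2)) = true))
    (prs ![b0, b1, b2, b3, b4, b5, b6, b7, b8, b9]) := by
  decide +kernel

lemma cnt_eq (S : Fin 15 → Bool) : ∑ e : Fin 15, (bif S e then 1 else 0) =
    cnt [S 0, S 1, S 2, S 3, S 4, S 5, S 6, S 7, S 8, S 9, S 10, S 11, S 12, S 13, S 14] := rfl

lemma all15 (S : Fin 15 → Bool) (h : [S 0, S 1, S 2, S 3, S 4, S 5, S 6, S 7, S 8, S 9, S 10,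
    S 11, S 12, S 13, S 14].all id = true) : ∀ e, S e = true := by
  simp only [List.all_cons, List.all_nil, id, Bool.and_eq_true, Bool.and_true] at h
  obtain ⟨h0, h1, h2, h3, h4, h5, h6, h7, h8, h9, h10, h11, h12, h13, h14⟩ := h
  intro e
  fin_cases e <;> assumption

lemma pet_cyc (p : petersen.V → ZMod 2)
    (h : (univ.filter (fun e : petersen.E => p (petersen.src e) ≠ p (petersen.tgt e))).card ≤ 3) :
    (∀ e, ¬ (p (petersen.src e) = 1 ∧ p (petersen.tgt e) = 1)) ∨
      (∀ e, ¬ (p (petersen.src e) = 0 ∧ p (petersen.tgt e) = 0)) := by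
  let b : Fin 10 → Bool := fun i => decide (p i = 1)
  have hb : ∀ i j : Fin 10, (p i ≠ p j) ↔ xor (b i) (b j) = true := by
    intro i j
    simp only [b]
    generalize p i = x
    generalize p j = y
    revert x y
    decide
  have hS : (univ.filter (fun e : Fin 15 => p (petersen.src e) ≠ p (petersen.tgt e))).card =
      ∑ e : Fin 15, (bif xor (b (petersen.src e)) (b (petersen.tgt e)) then 1 else 0) := by
    rw [Finset.card_filter]
    refine Finset.sum_congr rfl (fun e _ => ?_)
    by_cases h : p (petersen.src e) ≠ p (petersen.tgt e)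
    · rw [if_pos h, (hb _ _).1 h]; rfl
    · rw [if_neg h]
      have : xor (b (petersen.src e)) (b (petersen.tgt e)) = false := by
        rw [Bool.eq_false_iff]
        exact fun h' => h ((hb _ _).2 h')
      rw [this]; rfl
  have h1 := cyc_bool (b 0) (b 1) (b 2) (b 3) (b 4) (b 5) (b 6) (b 7) (b 8) (b 9)
  have h2 : (![b 0, b 1, b 2, b 3, b 4, b 5, b 6, b 7, b 8, b 9] : Fin 10 → Bool) = b := by
    funext i; fin_cases i <;> rfl
  rw [h2] at h1
  have h3 : Nat.ble (cnt ((prs b).map (fun x => xor x.1 x.2))) 3 = true := by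
    rw [Nat.ble_eq]
    have h4 : (univ.filter (fun e : Fin 15 => p (petersen.src e) ≠ p (petersen.tgt e))).card ≤ 3 := h
    rw [hS, cnt_eq] at h4
    exact h4
  have h5 := h1 h3
  rw [Bool.or_eq_true] at h5
  rcases h5 with h5 | h5
  · left
    have h6 := all15 (fun e => !(b (petersen.src e) && b (petersen.tgt e))) h5
    rintro e ⟨e1, e2⟩
    have h7 := h6 e
    simp only [b, e1, e2] at h7
    exact absurd h7 (by decide)
  · right
    have h6 := all15 (fun e => (b (petersen.src e) || b (petersen.tgt e))) h5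
    rintro e ⟨e1, e2⟩
    have h7 := h6 e
    simp only [b, e1, e2] at h7
    exact absurd h7 (by decide)

lemma pet_simp : ∀ v w : Fin 10, v ≠ w → ∀ i j k l : Fin 3, st v i = st w k → st v j = st w l →
    i = j := by decide +kernel

/-! ### no map to three parallel edges -/

lemma pm_inter : ∀ k l : Fin 6, ∃ e : Fin 15, pm k e = true ∧ pm l e = true := by decide +kernel

lemma three_aux : ∀ x y z : Fin 3,
    (∀ φ : Fin 3 → ZMod 2, φ 0 + φ 1 + φ 2 = 0 → φ x + φ y + φ z = 0) →
    x ≠ y ∧ x ≠ z ∧ y ≠ z := by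
  intro x y z h
  have h1 := h ![1, 1, 0] (by decide)
  have h2 := h ![0, 1, 1] (by decide)
  clear h
  revert x y z
  decide

lemma three_aux2 : ∀ x y z c : Fin 3, x ≠ y → x ≠ z → y ≠ z →
    (x = c ∧ y ≠ c ∧ z ≠ c) ∨ (x ≠ c ∧ y = c ∧ z ≠ c) ∨ (x ≠ c ∧ y ≠ c ∧ z = c) := by decide

lemma pet_th {f : Fin 15 → Fin 3} (hf : CC petersen th f) : False := by
  have hstar : ∀ (u : Fin 10) (φ : Fin 3 → ZMod 2), φ 0 + φ 1 + φ 2 = 0 →
      φ (f (st u 0)) + φ (f (st u 1)) + φ (f (st u 2)) = 0 := by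
    intro u φ hφ
    have := hf φ ((th_flow φ).2 hφ) u
    rwa [star_sum (st_star u)] at this
  have hpm : ∀ c : Fin 3, ∃ k, (fun e => decide (f e = c)) = pm k := by
    intro c
    apply pm_list
    intro u
    obtain ⟨h1, h2, h3⟩ := three_aux _ _ _ (hstar u)
    rcases three_aux2 _ _ _ c h1 h2 h3 with ⟨a, b, d⟩ | ⟨a, b, d⟩ | ⟨a, b, d⟩
    · refine ⟨0, by simpa using a, fun i hi => ?_⟩
      fin_cases i
      · rfl
      · exact absurd (by simpa using hi) b
      · exact absurd (by simpa using hi) d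
    · refine ⟨1, by simpa using b, fun i hi => ?_⟩
      fin_cases i
      · exact absurd (by simpa using hi) a
      · rfl
      · exact absurd (by simpa using hi) d
    · refine ⟨2, by simpa using d, fun i hi => ?_⟩
      fin_cases i
      · exact absurd (by simpa using hi) a
      · exact absurd (by simpa using hi) b
      · rfl
  obtain ⟨k, hk⟩ := hpm 0
  obtain ⟨l, hl⟩ := hpm 1
  obtain ⟨e, h1, h2⟩ := pm_inter k l
  rw [← hk] at h1
  rw [← hl] at h2
  simp only [decide_eq_true_eq] at h1 h2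
  rw [h1] at h2
  exact absurd h2 (by decide)

end Pool.Agent.Y413.PO
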