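import Pool.Agent.Y413.PO.PetA
import Pool.Agent.TH362.TF.Main
import Pool.Agent.TH362.TF.Contr

set_option autoImplicit false
set_option linter.dupNamespace false

/-!
The Petersen graph is a piece, and every minimal graph with at most fifteen edges maps to it.
-/

open Finset

namespace Pool.Agent.Y413.PO

open Pool.Agent.H160R2.CC Pool.Agent.H160R2.CC.MGraph
open Pool.Agent.TH362.TF (N1 NZ PQ IsPQ Joins padj F Cons)

lemma n1_of_br {Y : MGraph} (hY : Y.Bridgeless) : N1 Y.src Y.tgt univ := by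
  intro x hx
  obtain ⟨e, he⟩ := Finset.card_eq_one.1 hx
  obtain ⟨φ, hφ, h1⟩ := hY e
  have h2 := cut_orth (G := Y) (fun v => if x v = true then 1 else 0) hφ
  have hmem : ∀ e', x (Y.src e') ≠ x (Y.tgt e') ↔ e' = e := by
    intro e'
    have : e' ∈ TH362.TF.cut Y.src Y.tgt univ x ↔ e' ∈ ({e} : Finset Y.E) := by rw [he]
    simpa [TH362.TF.cut] using this
  rw [Finset.sum_eq_single e] at h2
  · have h3 := (hmem e).2 rfl
    rw [h1, mul_one] at h2
    rcases h4 : x (Y.src e) with _ | _ <;> rcases h5 : x (Y.tgt e) with _ | _ <;>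
      simp [h4, h5] at h2 h3
  · intro e' _ hne
    have h3 : x (Y.src e') = x (Y.tgt e') := by
      by_contra hcon
      exact hne ((hmem e').1 hcon)
    rw [h3, z2_add_self, zero_mul]
  · intro h3; exact absurd (Finset.mem_univ e) h3

lemma odd_le {Y : MGraph} (hY : N1 Y.src Y.tgt univ) :
    3 * (TH362.TF.odd Y.src Y.tgt univ).card ≤ 2 * Fintype.card Y.E := by
  have hdeg : ∀ v ∈ TH362.TF.odd Y.src Y.tgt univ, 3 ≤ TH362.TF.deg Y.src Y.tgt univ v := by
    intro v hv
    have hodd : Odd (TH362.TF.deg Y.src Y.tgt univ v) := by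
      simpa [TH362.TF.odd] using hv
    by_contra hlt
    have h1 : TH362.TF.deg Y.src Y.tgt univ v = 1 := by
      obtain ⟨k, hk⟩ := hodd
      omega
    refine hY (fun w => decide (w = v)) ?_
    rw [← h1]
    unfold TH362.TF.cut TH362.TF.deg
    rw [Finset.card_filter]
    refine Finset.sum_congr rfl (fun e he => ?_)
    have h2 : (if Y.src e = v then 1 else 0) + (if Y.tgt e = v then 1 else 0) ≤ 1 :=
      (Finset.single_le_sum (f := fun e => (if Y.src e = v then 1 else 0) +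
        (if Y.tgt e = v then 1 else 0)) (fun _ _ => Nat.zero_le _) he).trans h1.le
    by_cases h3 : Y.src e = v <;> by_cases h4 : Y.tgt e = v
    · simp [h3, h4] at h2
    · simp [h3, h4]
    · simp [h3, h4]
    · simp [h3, h4]
  have hsum : ∑ v, TH362.TF.deg Y.src Y.tgt univ v = 2 * Fintype.card Y.E := by
    unfold TH362.TF.deg
    rw [Finset.sum_comm]
    have : ∀ e : Y.E, ∑ v, ((if Y.src e = v then 1 else 0) + (if Y.tgt e = v then 1 else 0)) = 2 := by
      intro e
      rw [Finset.sum_add_distrib, Finset.sum_ite_eq, Finset.sum_ite_eq]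
      simp
    rw [Finset.sum_congr rfl (fun e _ => this e), Finset.sum_const, Finset.card_univ, smul_eq_mul,
      mul_comm]
  rw [← hsum]
  calc 3 * (TH362.TF.odd Y.src Y.tgt univ).card
      = ∑ v ∈ TH362.TF.odd Y.src Y.tgt univ, 3 := by rw [Finset.sum_const, smul_eq_mul, mul_comm]
    _ ≤ ∑ v ∈ TH362.TF.odd Y.src Y.tgt univ, TH362.TF.deg Y.src Y.tgt univ v :=
        Finset.sum_le_sum hdeg
    _ ≤ _ := Finset.sum_le_sum_of_subset (Finset.subset_univ _)

lemma dich {Y : MGraph} (hY : Y.Bridgeless) (h : Fintype.card Y.E ≤ 15) :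
    NZ Y.src Y.tgt univ ∨ PQ Y.src Y.tgt univ := by
  have h1 := n1_of_br hY
  have h2 := odd_le h1
  exact TH362.TF.main16 _ _ _ h1 (by omega)

/-- the edge of the triple with three parallel edges belonging to a non-zero value -/
def col (x : F) : Fin 3 := if x = (1, 0) then 0 else if x = (0, 1) then 1 else 2

lemma col_lin : ∀ (a b : ZMod 2) (x : F), x ≠ 0 →
    (![a, b, a + b] : Fin 3 → ZMod 2) (col x) = a * x.1 + b * x.2 := by decide

lemma th_of_nz {Y : MGraph} (h : NZ Y.src Y.tgt univ) : ∃ g : Y.E → Fin 3, CC Y th g := by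
  obtain ⟨φ, h1, h2⟩ := h
  refine ⟨fun e => col (φ e), fun ψ hψ v => ?_⟩
  have hψ2 : ∀ x : F, x ≠ 0 → ψ (col x) = ψ (0 : Fin 3) * x.1 + ψ (1 : Fin 3) * x.2 := by
    intro x hx
    rw [← col_lin _ _ x hx]
    have h3 := (th_flow ψ).1 hψ
    have hz : ∀ a b c : ZMod 2, a + b + c = 0 → c = a + b := by decide
    have hfun : ∀ i : Fin 3, ψ i = (![ψ (0 : Fin 3), ψ (1 : Fin 3), ψ (0 : Fin 3) + ψ (1 : Fin 3)] :
        Fin 3 → ZMod 2) i := by
      intro i
      fin_cases i
      · rfl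
      · rfl
      · exact hz _ _ _ h3
    exact hfun _
  have h3 := h2 v
  unfold Cons at h3
  have h4 := congrArg Prod.fst h3
  have h5 := congrArg Prod.snd h3
  rw [Prod.fst_sum] at h4
  rw [Prod.snd_sum] at h5
  change ∑ e, Y.inc v e * ψ (col (φ e)) = 0
  have h6 : ∀ e, Y.inc v e * ψ (col (φ e)) =
      ψ (0 : Fin 3) * ((if Y.src e = v then φ e else 0) + (if Y.tgt e = v then φ e else 0) : F).1 +
      ψ (1 : Fin 3) * ((if Y.src e = v then φ e else 0) + (if Y.tgt e = v then φ e else 0) : F).2 := by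
    intro e
    rw [hψ2 _ (h1 e (Finset.mem_univ e))]
    unfold inc
    by_cases ha : Y.src e = v <;> by_cases hb : Y.tgt e = v <;> simp [ha, hb]
    all_goals ring_nf
  rw [Finset.sum_congr rfl (fun e _ => h6 e), Finset.sum_add_distrib, ← Finset.mul_sum,
    ← Finset.mul_sum]
  have h4' : ∑ e, ((if Y.src e = v then φ e else 0) + (if Y.tgt e = v then φ e else 0) : F).1 = 0 :=
    h4
  have h5' : ∑ e, ((if Y.src e = v then φ e else 0) + (if Y.tgt e = v then φ e else 0) : F).2 = 0 :=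
    h5
  rw [h4', h5', mul_zero, mul_zero, add_zero]

lemma pet_adj : ∀ e : Fin 15, padj (petersen.src e) (petersen.tgt e) = true := by
  decide

/-- the ends of the edges -/
def psrc : Fin 15 → Fin 10 := ![0, 1, 2, 3, 4, 0, 1, 2, 3, 4, 5, 6, 7, 8, 9]

/-- the ends of the edges -/
def ptgt : Fin 15 → Fin 10 := ![1, 2, 3, 4, 0, 5, 6, 7, 8, 9, 7, 8, 9, 5, 6]

lemma pet_pair : ∀ e e' : Fin 15, (psrc e = psrc e' ∧ ptgt e = ptgt e') ∨
    (psrc e = ptgt e' ∧ ptgt e = psrc e') → e = e' := by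
  decide +kernel

lemma pq_edges {Y : MGraph} {κ : Y.V → Fin 10} (h : IsPQ Y.src Y.tgt univ κ) :
    ∃ y : Fin 15 → Y.E, Function.Injective y ∧
      ∀ e, Joins κ Y.src Y.tgt (petersen.src e) (petersen.tgt e) (y e) := by
  have h1 : ∀ e : Fin 15, ∃ y, Joins κ Y.src Y.tgt (petersen.src e) (petersen.tgt e) y := by
    intro e
    obtain ⟨y, _, hy⟩ := h.2 _ _ (pet_adj e)
    exact ⟨y, hy⟩
  choose y hy using h1
  refine ⟨y, fun e e' hee => ?_, hy⟩
  have h2 := hy e
  have h3 := hy e'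
  rw [← hee] at h3
  apply pet_pair
  rcases h2 with ⟨a, b⟩ | ⟨a, b⟩ <;> rcases h3 with ⟨c, d⟩ | ⟨c, d⟩
  · exact Or.inl ⟨a.symm.trans c, b.symm.trans d⟩
  · exact Or.inr ⟨a.symm.trans c, b.symm.trans d⟩
  · exact Or.inr ⟨b.symm.trans d, a.symm.trans c⟩
  · exact Or.inl ⟨b.symm.trans d, a.symm.trans c⟩

lemma pet_min : MinG petersen := by
  refine ⟨petersen_bridgeless, fun Y hY hf => ?_⟩
  obtain ⟨f, hf⟩ := hf
  have h15 : Fintype.card petersen.E = 15 := Fintype.card_fin 15
  rw [h15]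
  by_contra hlt
  rcases dich hY (by omega) with h | ⟨κ, h⟩
  · obtain ⟨g, hg⟩ := th_of_nz h
    exact pet_th (hg.comp hf)
  · obtain ⟨y, hy, -⟩ := pq_edges h
    have := Fintype.card_le_of_injective y hy
    rw [Fintype.card_fin] at this
    omega

lemma pet_piece : Piece petersen :=
  ⟨pet_min, ⟨(0 : Fin 15), (1 : Fin 15), (by decide : (0 : Fin 15) ≠ 1)⟩, pet_cyc⟩

/-- the graph with three parallel edges maps to the Petersen graph -/
lemma th_pet : CC th petersen (st 0) := by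
  intro φ hφ
  refine (th_flow _).2 ?_
  have := hφ (0 : Fin 10)
  rwa [star_sum (st_star 0)] at this

end Pool.Agent.Y413.PO
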