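import Pool.Agent.Y413.PO.PetB

set_option autoImplicit false
set_option linter.dupNamespace false

/-!
Every minimal graph with at most fifteen edges maps to the Petersen graph.
-/

open Finset

namespace Pool.Agent.Y413.PO

open Pool.Agent.H160R2.CC Pool.Agent.H160R2.CC.MGraph
open Pool.Agent.TH362.TF (N1 NZ PQ IsPQ Joins padj F Cons)

lemma pinc_iff : ∀ (k : Fin 10) (e : Fin 15), ((if psrc e = k then (1 : ZMod 2) else 0) +
    (if ptgt e = k then 1 else 0) = 1) ↔ ¬ (psrc e = k ↔ ptgt e = k) := by decide +kernel

lemma pne : ∀ e : Fin 15, psrc e ≠ ptgt e := by decide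

theorem small_to_pet {X : MGraph} (hX : MinG X) (h : Fintype.card X.E ≤ 15) :
    ∃ g : X.E → Fin 15, CC X petersen g := by
  classical
  rcases dich hX.br h with h1 | ⟨κ, hκ⟩
  · obtain ⟨g, hg⟩ := th_of_nz h1
    exact ⟨_, th_pet.comp hg⟩
  · obtain ⟨y, hy, hyj⟩ := pq_edges hκ
    have hcard : Fintype.card X.E = 15 := by
      have := Fintype.card_le_of_injective y hy
      rw [Fintype.card_fin] at this
      omega
    have hbij : Function.Bijective y :=
      (Fintype.bijective_iff_injective_and_card y).2 ⟨hy, by rw [hcard, Fintype.card_fin]⟩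
    let e : Fin 15 ≃ X.E := Equiv.ofBijective y hbij
    have hye : ∀ i, e i = y i := fun i => rfl
    -- the ends of the edge `y i`
    have hends : ∀ i, (κ (X.src (y i)) = psrc i ∧ κ (X.tgt (y i)) = ptgt i) ∨
        (κ (X.src (y i)) = ptgt i ∧ κ (X.tgt (y i)) = psrc i) := hyj
    refine ⟨e.symm, fun φ hφ v => ?_⟩
    by_cases hv : ∃ x, X.inc v x = 1
    · obtain ⟨x0, hx0⟩ := hv
      obtain ⟨a, ha, -⟩ := hX.star_at hx0
      set k := κ v with hk
      let C : Finset X.E := TH362.TF.cut X.src X.tgt univ (fun w => decide (κ w = k))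
      have hC3 : C.card = 3 := hκ.1 k
      have hCmem : ∀ i, y i ∈ C ↔ ¬ (psrc i = k ↔ ptgt i = k) := by
        intro i
        have : y i ∈ C ↔ ¬ (κ (X.src (y i)) = k ↔ κ (X.tgt (y i)) = k) := by
          simp only [C, TH362.TF.cut, Finset.mem_filter, Finset.mem_univ, true_and, ne_eq,
            decide_eq_decide]
        rw [this]
        rcases hends i with ⟨h1, h2⟩ | ⟨h1, h2⟩
        · rw [h1, h2]
        · rw [h1, h2, not_iff_not]
          exact ⟨Iff.symm, Iff.symm⟩
      have hin : ∀ i, X.inc v (y i) = 1 → y i ∈ C := by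
        intro i hi
        rw [hCmem]
        have hne := pne i
        intro hcon
        have hor : κ (X.src (y i)) = k ∨ κ (X.tgt (y i)) = k := by
          rcases X.one_end hi with ⟨h1, -⟩ | ⟨-, h1⟩
          · left; rw [h1]
          · right; rw [h1]
        rcases hends i with ⟨h1, h2⟩ | ⟨h1, h2⟩
        · rw [h1, h2] at hor
          rcases hor with h | h
          · exact hne (h.trans (hcon.1 h).symm)
          · exact hne ((hcon.2 h).trans h.symm)
        · rw [h1, h2] at hor
          rcases hor with h | h
          · exact hne ((hcon.2 h).trans h.symm)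
          · exact hne (h.trans (hcon.1 h).symm)
      have hinc1 : ∀ j, X.inc v (a j) = 1 := by
        intro j
        rw [ha.2, if_pos ⟨j, rfl⟩]
      have himg : univ.image a = C := by
        apply Finset.eq_of_subset_of_card_le
        · intro x hx
          rw [Finset.mem_image] at hx
          obtain ⟨j, -, rfl⟩ := hx
          obtain ⟨i, hi⟩ := hbij.2 (a j)
          rw [← hi]
          apply hin
          rw [hi]; exact hinc1 j
        · rw [hC3, Finset.card_image_of_injective _ ha.1, Finset.card_univ, Fintype.card_fin]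
      have hout : ∀ i, y i ∈ C → X.inc v (y i) = 1 := by
        intro i hi
        rw [← himg, Finset.mem_image] at hi
        obtain ⟨j, -, hj⟩ := hi
        rw [← hj]; exact hinc1 j
      have heq : ∀ i : Fin 15, X.inc v (y i) = petersen.inc k i := by
        intro i
        have h1 : petersen.inc k i = 1 ↔ ¬ (psrc i = k ↔ ptgt i = k) := pinc_iff k i
        rcases z2 (X.inc v (y i)) with h2 | h2
        · rcases z2 (petersen.inc k i) with h3 | h3
          · rw [h2, h3]
          · rw [hout i ((hCmem i).2 (h1.1 h3))] at h2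
            exact absurd h2 (by decide)
        · rw [h2, h1.2 ((hCmem i).1 (hin i h2))]
      have hbd := hφ k
      rw [← hbd]
      change ∑ x : X.E, X.inc v x * φ (e.symm x) = ∑ i : Fin 15, petersen.inc k i * φ i
      rw [← Equiv.sum_comp e]
      refine Finset.sum_congr rfl (fun i _ => ?_)
      rw [Equiv.symm_apply_apply, hye, heq]
    · push Not at hv
      change ∑ x : X.E, X.inc v x * φ (e.symm x) = 0
      refine Finset.sum_eq_zero (fun x _ => ?_)
      have : X.inc v x = 0 := by
        rcases z2 (X.inc v x) with h | h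
        · exact h
        · exact absurd h (hv x)
      rw [this, zero_mul]

end Pool.Agent.Y413.PO
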