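import Pool.Agent.Y413.PO.PetC

set_option autoImplicit false
set_option linter.dupNamespace false

/-!
The automorphism group of the Petersen graph is transitive on labelled stars.
-/

open Finset

namespace Pool.Agent.Y413.PO

open Pool.Agent.H160R2.CC Pool.Agent.H160R2.CC.MGraph

/-- the permutations of three elements -/
def pr : Fin 6 → Fin 3 → Fin 3 :=
  ![![0, 1, 2], ![0, 2, 1], ![1, 0, 2], ![1, 2, 0], ![2, 0, 1], ![2, 1, 0]]

/-- automorphisms of the Petersen graph -/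
def gam : Fin 10 → Fin 6 → Fin 15 → Fin 15 :=
  ![![![0, 1, 2, 3, 4, 5, 6, 7, 8, 9, 10, 11, 12, 13, 14],
      ![0, 1, 7, 10, 5, 4, 6, 2, 12, 13, 3, 14, 8, 9, 11],
      ![4, 3, 2, 1, 0, 5, 9, 8, 7, 6, 13, 12, 11, 10, 14],
      ![5, 10, 7, 1, 0, 4, 13, 12, 2, 6, 9, 8, 14, 3, 11],
      ![4, 3, 8, 13, 5, 0, 9, 2, 11, 10, 1, 14, 7, 6, 12],
      ![5, 10, 12, 9, 4, 0, 13, 7, 14, 3, 1, 11, 2, 6, 8]],
    ![![0, 4, 3, 2, 1, 6, 5, 9, 8, 7, 14, 13, 12, 11, 10],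
      ![0, 5, 10, 7, 1, 6, 4, 13, 12, 2, 11, 9, 8, 14, 3],
      ![4, 0, 1, 2, 3, 9, 5, 6, 7, 8, 14, 10, 11, 12, 13],
      ![5, 0, 1, 7, 10, 13, 4, 6, 2, 12, 11, 3, 14, 8, 9],
      ![4, 5, 10, 12, 9, 3, 0, 13, 7, 14, 8, 1, 11, 2, 6],
      ![5, 4, 3, 8, 13, 10, 0, 9, 2, 11, 12, 1, 14, 7, 6]],
    ![![1, 0, 4, 3, 2, 7, 6, 5, 9, 8, 10, 14, 13, 12, 11],
      ![1, 0, 5, 10, 7, 2, 6, 4, 13, 12, 3, 11, 9, 8, 14],
      ![3, 4, 0, 1, 2, 8, 9, 5, 6, 7, 13, 14, 10, 11, 12],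
      ![10, 5, 0, 1, 7, 12, 13, 4, 6, 2, 9, 11, 3, 14, 8],
      ![3, 4, 5, 13, 8, 2, 9, 0, 10, 11, 1, 12, 6, 7, 14],
      ![10, 5, 4, 9, 12, 7, 13, 0, 3, 14, 1, 8, 6, 2, 11]],
    ![![2, 1, 0, 4, 3, 8, 7, 6, 5, 9, 11, 10, 14, 13, 12],
      ![7, 1, 0, 5, 10, 12, 2, 6, 4, 13, 14, 3, 11, 9, 8],
      ![2, 3, 4, 0, 1, 7, 8, 9, 5, 6, 12, 13, 14, 10, 11],
      ![7, 10, 5, 0, 1, 2, 12, 13, 4, 6, 8, 9, 11, 3, 14],
      ![12, 9, 4, 5, 10, 7, 14, 3, 0, 13, 2, 6, 8, 1, 11],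
      ![8, 13, 5, 4, 3, 2, 11, 10, 0, 9, 7, 6, 12, 1, 14]],
    ![![3, 2, 1, 0, 4, 9, 8, 7, 6, 5, 12, 11, 10, 14, 13],
      ![10, 7, 1, 0, 5, 13, 12, 2, 6, 4, 8, 14, 3, 11, 9],
      ![1, 2, 3, 4, 0, 6, 7, 8, 9, 5, 11, 12, 13, 14, 10],
      ![1, 7, 10, 5, 0, 6, 2, 12, 13, 4, 14, 8, 9, 11, 3],
      ![10, 12, 9, 4, 5, 13, 7, 14, 3, 0, 11, 2, 6, 8, 1],
      ![3, 8, 13, 5, 4, 9, 2, 11, 10, 0, 14, 7, 6, 12, 1]],
    ![![1, 2, 8, 11, 6, 0, 7, 3, 13, 14, 4, 10, 9, 5, 12],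
      ![1, 7, 12, 14, 6, 0, 2, 10, 9, 11, 5, 3, 13, 4, 8],
      ![3, 2, 7, 12, 9, 4, 8, 1, 10, 14, 0, 13, 6, 5, 11],
      ![10, 7, 2, 8, 13, 5, 12, 1, 3, 11, 0, 9, 6, 4, 14],
      ![3, 8, 11, 14, 9, 4, 2, 13, 6, 12, 5, 1, 10, 0, 7],
      ![10, 12, 14, 11, 13, 5, 7, 9, 6, 8, 4, 1, 3, 0, 2]],
    ![![1, 6, 14, 12, 7, 2, 0, 11, 9, 10, 8, 4, 13, 3, 5],
      ![1, 6, 11, 8, 2, 7, 0, 14, 13, 3, 12, 5, 9, 10, 4],
      ![3, 9, 14, 11, 8, 2, 4, 12, 6, 13, 7, 0, 10, 1, 5],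
      ![10, 13, 11, 14, 12, 7, 5, 8, 6, 9, 2, 0, 3, 1, 4],
      ![3, 9, 12, 7, 2, 8, 4, 14, 10, 1, 11, 5, 6, 13, 0],
      ![10, 13, 8, 2, 7, 12, 5, 11, 3, 1, 14, 4, 6, 9, 0]],
    ![![2, 1, 6, 11, 8, 3, 7, 0, 14, 13, 4, 12, 5, 9, 10],
      ![7, 1, 6, 14, 12, 10, 2, 0, 11, 9, 5, 8, 4, 13, 3],
      ![2, 3, 9, 12, 7, 1, 8, 4, 14, 10, 0, 11, 5, 6, 13],
      ![7, 10, 13, 8, 2, 1, 12, 5, 11, 3, 0, 14, 4, 6, 9],
      ![12, 9, 3, 2, 7, 10, 14, 4, 8, 1, 5, 11, 0, 13, 6],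
      ![8, 13, 10, 7, 2, 3, 11, 5, 12, 1, 4, 14, 0, 9, 6]],
    ![![12, 14, 6, 1, 7, 10, 9, 11, 0, 2, 13, 4, 8, 5, 3],
      ![8, 11, 6, 1, 2, 3, 13, 14, 0, 7, 9, 5, 12, 4, 10],
      ![7, 2, 3, 9, 12, 10, 1, 8, 4, 14, 13, 0, 11, 5, 6],
      ![2, 7, 10, 13, 8, 3, 1, 12, 5, 11, 9, 0, 14, 4, 6],
      ![7, 12, 9, 3, 2, 1, 10, 14, 4, 8, 6, 5, 11, 0, 13],
      ![2, 8, 13, 10, 7, 1, 3, 11, 5, 12, 6, 4, 14, 0, 9]],
    ![![7, 12, 14, 6, 1, 2, 10, 9, 11, 0, 3, 13, 4, 8, 5],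
      ![2, 8, 11, 6, 1, 7, 3, 13, 14, 0, 10, 9, 5, 12, 4],
      ![8, 11, 14, 9, 3, 2, 13, 6, 12, 4, 1, 10, 0, 7, 5],
      ![12, 14, 11, 13, 10, 7, 9, 6, 8, 5, 1, 3, 0, 2, 4],
      ![2, 7, 12, 9, 3, 8, 1, 10, 14, 4, 13, 6, 5, 11, 0],
      ![7, 2, 8, 13, 10, 12, 1, 3, 11, 5, 9, 6, 4, 14, 0]]]

/-- a basis of the cycle space -/
def cyb : Fin 6 → Fin 15 → Bool :=
  ![![true, true, true, true, true, false, false, false, false, false, false, false, false, false, false],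
    ![true, true, false, false, false, true, false, true, false, false, true, false, false, false, false],
    ![false, false, false, true, true, true, false, false, true, false, false, false, false, true, false],
    ![true, false, false, false, false, true, true, false, false, false, false, true, false, true, false],
    ![false, false, false, false, true, true, false, false, false, true, true, false, true, false, false],
    ![true, false, false, false, true, false, true, false, false, true, false, false, false, false, true]]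

lemma gam_star : ∀ (v : Fin 10) (p : Fin 6) (u : Fin 10), ∃ (w : Fin 10) (q : Fin 6),
    ∀ k, gam v p (st u k) = st w (pr q k) := by decide +kernel

lemma gam_norm : ∀ (v : Fin 10) (p : Fin 6) (k : Fin 3), gam v p (st v (pr p k)) = st 0 k := by
  decide +kernel

lemma pr_sum : ∀ (p : Fin 6) (f : Fin 3 → ZMod 2), f 0 + f 1 + f 2 = 0 →
    f (pr p 0) + f (pr p 1) + f (pr p 2) = 0 := by decide +kernel

lemma triple : ∀ x y z : Fin 15, x ≠ y → x ≠ z → y ≠ z →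
    (∀ i, xor (cyb i x) (xor (cyb i y) (cyb i z)) = false) →
    ∃ (v : Fin 10) (p : Fin 6), x = st v (pr p 0) ∧ y = st v (pr p 1) ∧ z = st v (pr p 2) := by
  decide +kernel

lemma cyb_star : ∀ (i : Fin 6) (u : Fin 10), ((if cyb i (st u 0) = true then (1 : ZMod 2) else 0) +
    (if cyb i (st u 1) = true then 1 else 0)) + (if cyb i (st u 2) = true then 1 else 0) = 0 := by
  decide +kernel

lemma cyb_flow (i : Fin 6) :
    petersen.Flow (fun e : Fin 15 => if cyb i e = true then (1 : ZMod 2) else 0) := by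
  intro u
  exact (star_sum (st_star u) _).trans (cyb_star i u)

lemma gam_cc (v : Fin 10) (p : Fin 6) : CC petersen petersen (gam v p) := by
  intro φ hφ u
  rw [star_sum (st_star u)]
  obtain ⟨w, q, h⟩ := gam_star v p u
  change φ (gam v p (st u 0)) + φ (gam v p (st u 1)) + φ (gam v p (st u 2)) = 0
  rw [h, h, h]
  have h1 := hφ w
  rw [star_sum (st_star w)] at h1
  exact pr_sum q (fun k => φ (st w k)) h1

/-- every three edges with sum zero can be moved to the star of the vertex `0` -/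
lemma norm {t : Fin 3 → Fin 15} (ht : ∀ φ, petersen.Flow φ → φ (t 0) + φ (t 1) + φ (t 2) = 0) :
    ∃ γ : Fin 15 → Fin 15, CC petersen petersen γ ∧ ∀ k, γ (t k) = st 0 k := by
  have hz : ∀ a b : ZMod 2, a + a + b = 0 → b = 0 := by decide
  have hz2 : ∀ a b : ZMod 2, a + b + a = 0 → b = 0 := by decide
  have hz3 : ∀ a b : ZMod 2, b + a + a = 0 → b = 0 := by decide
  have h01 : t 0 ≠ t 1 := by
    intro h
    obtain ⟨φ, hφ, h1⟩ := petersen_bridgeless (t 2)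
    have := ht φ hφ
    rw [h] at this
    rw [hz _ _ this] at h1
    exact absurd h1 (by decide)
  have h02 : t 0 ≠ t 2 := by
    intro h
    obtain ⟨φ, hφ, h1⟩ := petersen_bridgeless (t 1)
    have := ht φ hφ
    rw [h] at this
    rw [hz2 _ _ this] at h1
    exact absurd h1 (by decide)
  have h12 : t 1 ≠ t 2 := by
    intro h
    obtain ⟨φ, hφ, h1⟩ := petersen_bridgeless (t 0)
    have := ht φ hφ
    rw [h] at this
    rw [hz3 _ _ this] at h1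
    exact absurd h1 (by decide)
  obtain ⟨v, p, e0, e1, e2⟩ := triple (t 0) (t 1) (t 2) h01 h02 h12 (by
    intro i
    have h1 : (if cyb i (t 0) = true then (1 : ZMod 2) else 0) +
      (if cyb i (t 1) = true then 1 else 0) + (if cyb i (t 2) = true then 1 else 0) = 0 :=
      ht _ (cyb_flow i)
    revert h1
    generalize cyb i (t 0) = a
    generalize cyb i (t 1) = b
    generalize cyb i (t 2) = c
    revert a b c
    decide)
  refine ⟨gam v p, gam_cc v p, fun k => ?_⟩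
  rw [← gam_norm v p k]
  congr 1
  fin_cases k
  · exact e0
  · exact e1
  · exact e2

end Pool.Agent.Y413.PO
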