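import Pool.Agent.Y413.PO.Min2

set_option autoImplicit false
set_option linter.dupNamespace false

/-!
Pieces: minimal graphs without non-trivial cuts of size at most three. Two pieces of different sizes
cannot be mapped to the same side of a cut of size three.
-/

open Finset

namespace Pool.Agent.Y413.PO

open Pool.Agent.H160R2.CC Pool.Agent.H160R2.CC.MGraph

/-! ### Linear algebra -/

lemma lin_aux : ∀ a0 a1 b0 b1 c0 c1 d0 d1 : ZMod 2, ∃ x y z w : ZMod 2,
    x * a0 + y * b0 + z * c0 + w * d0 = 0 ∧ x * a1 + y * b1 + z * c1 + w * d1 = 0 ∧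
    x * 1 + y * (b0 + 1) + z * (c1 + 1) + w * (d0 + d1 + 1) = 1 := by decide +kernel

lemma z2_ne {a b : ZMod 2} (h : a ≠ b) : a = b + 1 := by revert a b; decide

lemma flow_smul {G : MGraph} (x : ZMod 2) {φ : G.E → ZMod 2} (hφ : G.Flow φ) :
    G.Flow (fun e => x * φ e) := by
  rcases z2 x with rfl | rfl
  · simpa using Flow.zero G
  · simpa using hφ

/-- an edge that is not equivalent to an edge of a triple with sum zero has a flow that vanishes on
the triple -/
lemma M1 {G : MGraph} (s : Fin 3 → G.E)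
    (hs : ∀ φ, G.Flow φ → φ (s 0) + φ (s 1) + φ (s 2) = 0) (e : G.E)
    (he : ∃ φ, G.Flow φ ∧ φ e = 1) (hne : ∀ k, ∃ φ, G.Flow φ ∧ φ e ≠ φ (s k)) :
    ∃ φ, G.Flow φ ∧ (∀ k, φ (s k) = 0) ∧ φ e = 1 := by
  obtain ⟨α, hα, hα1⟩ := he
  obtain ⟨β, hβ, hβ1⟩ := hne 0
  obtain ⟨γ, hγ, hγ1⟩ := hne 1
  obtain ⟨δ, hδ, hδ1⟩ := hne 2
  have hs2 : ∀ φ, G.Flow φ → φ (s 2) = φ (s 0) + φ (s 1) := fun φ hφ =>
    (z2_eq_of_add _ _ (hs φ hφ)).symm
  rw [hs2 δ hδ] at hδ1
  obtain ⟨x, y, z, w, h0, h1, h2⟩ := lin_aux (α (s 0)) (α (s 1)) (β (s 0)) (β (s 1)) (γ (s 0))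
    (γ (s 1)) (δ (s 0)) (δ (s 1))
  have h2' : x * α e + y * β e + z * γ e + w * δ e = 1 := by
    rw [hα1, z2_ne hβ1, z2_ne hγ1, z2_ne hδ1]
    exact h2
  have hfl := (((flow_smul x hα).add (flow_smul y hβ)).add (flow_smul z hγ)).add (flow_smul w hδ)
  refine ⟨_, hfl, fun k => ?_, h2'⟩
  fin_cases k
  · exact h0
  · exact h1
  · have := hs2 _ hfl
    refine this.trans ?_
    change (x * α (s 0) + y * β (s 0) + z * γ (s 0) + w * δ (s 0)) +
      (x * α (s 1) + y * β (s 1) + z * γ (s 1) + w * δ (s 1)) = 0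
    rw [h0, h1, add_zero]

/-! ### Pieces -/

/-- a minimal graph without non-trivial cuts of size at most three -/
structure Piece (Z : MGraph) : Prop where
  mn : MinG Z
  two : ∃ x y : Z.E, x ≠ y
  cyc : ∀ p : Z.V → ZMod 2, (univ.filter (fun e : Z.E => p (Z.src e) ≠ p (Z.tgt e))).card ≤ 3 →
    (∀ e, ¬ (p (Z.src e) = 1 ∧ p (Z.tgt e) = 1)) ∨ (∀ e, ¬ (p (Z.src e) = 0 ∧ p (Z.tgt e) = 0))

namespace Piece

variable {Z : MGraph} (hZ : Piece Z)

include hZ

lemma inc_src (e : Z.E) : Z.inc (Z.src e) e = 1 := by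
  rw [inc_cases Z _ e (hZ.mn.noloop hZ.two e)]; simp

lemma inc_tgt (e : Z.E) : Z.inc (Z.tgt e) e = 1 := by
  rw [inc_cases Z _ e (hZ.mn.noloop hZ.two e)]; simp

lemma inc_iff (v : Z.V) (e : Z.E) : Z.inc v e = 1 ↔ (Z.src e = v ∨ Z.tgt e = v) := by
  rw [inc_cases Z _ e (hZ.mn.noloop hZ.two e)]
  by_cases h : (Z.src e = v ∨ Z.tgt e = v) <;> simp [h]

/-- the separation lemma -/
theorem L1 {S : MGraph} {f : Z.E → S.E} (hf : CC Z S f) (E1 B : S.E → Prop)
    (hB : ∀ s : Finset Z.E, (∀ e ∈ s, ¬ E1 (f e) ∧ B (f e)) → s.card ≤ 3)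
    (F1 : ∀ g, E1 g → ∃ φ, S.Flow φ ∧ (∀ x, ¬ E1 x → φ x = 0) ∧ φ g = 1)
    (F2 : ∀ g, ¬ E1 g → ¬ B g → ∃ φ, S.Flow φ ∧ (∀ x, E1 x → φ x = 0) ∧ φ g = 1) :
    (∀ e, ¬ E1 (f e)) ∨ (∀ e, E1 (f e) ∨ B (f e)) := by
  classical
  -- the local statement
  have loc : ∀ (v : Z.V) (e e' : Z.E), Z.inc v e = 1 → Z.inc v e' = 1 → ¬ E1 (f e) → E1 (f e') →
      B (f e) := by
    intro v e e' hv hv' he he'
    by_contra hnB
    obtain ⟨a, ha, hae⟩ := hZ.mn.star_at hv
    have hsum : ∀ φ, S.Flow φ → φ (f (a 0)) + φ (f (a 1)) + φ (f (a 2)) = 0 := by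
      intro φ hφ
      have := hf φ hφ v
      rwa [star_sum ha] at this
    rw [hae] at hsum
    have hi : a 1 = e' ∨ a 2 = e' := by
      have := ha.2 e'
      rw [hv'] at this
      have h3 : ∃ i, a i = e' := by
        by_contra hcon
        rw [if_neg hcon] at this
        exact absurd this (by decide)
      obtain ⟨i, hi⟩ := h3
      fin_cases i
      · exfalso
        apply he
        change a 0 = e' at hi
        rw [← hae, hi]; exact he'
      · exact Or.inl hi
      · exact Or.inr hi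
    obtain ⟨φ, hφ, hφ0, hφ1⟩ := F2 _ he hnB
    have s1 := hsum φ hφ
    rcases hi with hi | hi
    · rw [hi, hφ1, hφ0 _ he'] at s1
      by_cases h2 : E1 (f (a 2))
      · rw [hφ0 _ h2] at s1
        exact absurd s1 (by decide)
      · obtain ⟨ψ, hψ, hψ0, hψ1⟩ := F1 _ he'
        have s2 := hsum ψ hψ
        rw [hi, hψ1, hψ0 _ he, hψ0 _ h2] at s2
        exact absurd s2 (by decide)
    · rw [hi, hφ1, hφ0 _ he'] at s1
      by_cases h2 : E1 (f (a 1))
      · rw [hφ0 _ h2] at s1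
        exact absurd s1 (by decide)
      · obtain ⟨ψ, hψ, hψ0, hψ1⟩ := F1 _ he'
        have s2 := hsum ψ hψ
        rw [hi, hψ1, hψ0 _ he, hψ0 _ h2] at s2
        exact absurd s2 (by decide)
  let p : Z.V → ZMod 2 := fun v => if ∃ e, Z.inc v e = 1 ∧ E1 (f e) then 1 else 0
  have p1 : ∀ v, p v = 1 → ∃ e, Z.inc v e = 1 ∧ E1 (f e) := by
    intro v hv
    by_contra hcon
    simp only [p, if_neg hcon] at hv
    exact absurd hv (by decide)
  have pE : ∀ v e, Z.inc v e = 1 → E1 (f e) → p v = 1 := by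
    intro v e h1 h2
    simp only [p]
    rw [if_pos ⟨e, h1, h2⟩]
  have hend : ∀ v e, Z.inc v e = 1 → p v = 1 → E1 (f e) ∨ B (f e) := by
    intro v e h1 h2
    by_cases hE : E1 (f e)
    · exact Or.inl hE
    · obtain ⟨e', h3, h4⟩ := p1 v h2
      exact Or.inr (loc v e e' h1 h3 hE h4)
  have hcut : ∀ e, p (Z.src e) ≠ p (Z.tgt e) → ¬ E1 (f e) ∧ B (f e) := by
    intro e he
    have hE : ¬ E1 (f e) := by
      intro hE
      apply he
      rw [pE _ e (hZ.inc_src e) hE, pE _ e (hZ.inc_tgt e) hE]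
    refine ⟨hE, ?_⟩
    rcases z2 (p (Z.src e)) with h | h
    · have h2 : p (Z.tgt e) = 1 := by
        rcases z2 (p (Z.tgt e)) with h' | h'
        · exact absurd (h.trans h'.symm) he
        · exact h'
      exact (hend _ e (hZ.inc_tgt e) h2).resolve_left hE
    · exact (hend _ e (hZ.inc_src e) h).resolve_left hE
  rcases hZ.cyc p (hB _ (fun e he => hcut e (by simpa using he))) with h | h
  · left
    intro e hE
    exact h e ⟨pE _ e (hZ.inc_src e) hE, pE _ e (hZ.inc_tgt e) hE⟩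
  · right
    intro e
    rcases z2 (p (Z.src e)) with h1 | h1
    · rcases z2 (p (Z.tgt e)) with h2 | h2
      · exact absurd ⟨h1, h2⟩ (h e)
      · exact hend _ e (hZ.inc_tgt e) h2
    · exact hend _ e (hZ.inc_src e) h1

end Piece

/-! ### Targets -/

/-- bridgeless graphs without cuts of size two -/
structure Tgt (c : MGraph) : Prop where
  br : c.Bridgeless
  sep : ∀ e e' : c.E, (∀ φ, c.Flow φ → φ e = φ e') → e = e'

lemma MinG.tgt {c : MGraph} (hc : MinG c) : Tgt c := ⟨hc.br, fun _ _ h => hc.sep h⟩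

/-- the restriction of a flow to one side of a cut on which it vanishes -/
lemma side_flow {c : MGraph} (p : c.V → ZMod 2) {φ : c.E → ZMod 2} (hφ : c.Flow φ)
    (h0 : ∀ e, p (c.src e) ≠ p (c.tgt e) → φ e = 0) (t : ZMod 2) :
    c.Flow (fun e => if p (c.src e) = t ∧ p (c.tgt e) = t then φ e else 0) := by
  intro w
  change ∑ e, c.inc w e * (if p (c.src e) = t ∧ p (c.tgt e) = t then φ e else 0) = 0
  by_cases hw : p w = t
  · refine Eq.trans ?_ (hφ w)
    unfold bd
    refine Finset.sum_congr rfl (fun e _ => ?_)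
    rcases z2 (c.inc w e) with hi | hi
    · rw [hi, zero_mul, zero_mul]
    · by_cases hd : p (c.src e) = p (c.tgt e)
      · have : p (c.src e) = t ∧ p (c.tgt e) = t := by
          rcases c.one_end hi with ⟨h1, -⟩ | ⟨-, h1⟩
          · rw [← hd, h1]; exact ⟨hw, hw⟩
          · rw [hd, h1]; exact ⟨hw, hw⟩
        rw [if_pos this]
      · rw [h0 e hd]; simp
  · refine Finset.sum_eq_zero (fun e _ => ?_)
    rcases z2 (c.inc w e) with hi | hi
    · rw [hi, zero_mul]
    · rw [if_neg, mul_zero]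
      rintro ⟨h1, h2⟩
      rcases c.one_end hi with ⟨h3, -⟩ | ⟨-, h3⟩
      · rw [h3] at h1; exact hw h1
      · rw [h3] at h2; exact hw h2

/-- `p` is the cut function of a cut with no edge or with three edges -/
def Cut3 (c : MGraph) (p : c.V → ZMod 2) : Prop :=
  (∀ e, p (c.src e) = p (c.tgt e)) ∨
    ∃ s : Fin 3 → c.E, Function.Injective s ∧ ∀ e, p (c.src e) ≠ p (c.tgt e) ↔ ∃ k, s k = e

lemma cut3_sum {c : MGraph} {p : c.V → ZMod 2} {s : Fin 3 → c.E} (hs : Function.Injective s)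
    (h : ∀ e, p (c.src e) ≠ p (c.tgt e) ↔ ∃ k, s k = e) {φ : c.E → ZMod 2} (hφ : c.Flow φ) :
    φ (s 0) + φ (s 1) + φ (s 2) = 0 := by
  classical
  have h1 := cut_orth p hφ
  have h01 : s 0 ≠ s 1 := fun h => absurd (hs h) (by decide)
  have h02 : s 0 ≠ s 2 := fun h => absurd (hs h) (by decide)
  have h12 : s 1 ≠ s 2 := fun h => absurd (hs h) (by decide)
  have h2 : ∀ e, (p (c.src e) + p (c.tgt e)) * φ e = (if e = s 0 then φ e else 0) +
      (if e = s 1 then φ e else 0) + (if e = s 2 then φ e else 0) := by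
    intro e
    have hz : ∀ a b : ZMod 2, a ≠ b → a + b = 1 := by decide
    by_cases g0 : e = s 0
    · rw [hz _ _ ((h e).2 ⟨0, g0.symm⟩), if_pos g0, if_neg (by rw [g0]; exact h01),
        if_neg (by rw [g0]; exact h02)]
      ring
    · by_cases g1 : e = s 1
      · rw [hz _ _ ((h e).2 ⟨1, g1.symm⟩), if_neg g0, if_pos g1, if_neg (by rw [g1]; exact h12)]
        ring
      · by_cases g2 : e = s 2
        · rw [hz _ _ ((h e).2 ⟨2, g2.symm⟩), if_neg g0, if_neg g1, if_pos g2]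
          ring
        · have : ¬ p (c.src e) ≠ p (c.tgt e) := by
            rw [h e]
            rintro ⟨k, hk⟩
            fin_cases k
            · exact g0 hk.symm
            · exact g1 hk.symm
            · exact g2 hk.symm
          rw [not_not] at this
          rw [this, z2_add_self, if_neg g0, if_neg g1, if_neg g2]
          ring
  simp_rw [h2] at h1
  rw [Finset.sum_add_distrib, Finset.sum_add_distrib, Finset.sum_ite_eq', Finset.sum_ite_eq',
    Finset.sum_ite_eq'] at h1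
  simpa using h1

lemma side_ex {c : MGraph} (hc : Tgt c) {p : c.V → ZMod 2} (hp : Cut3 c p) {g : c.E}
    (hg : p (c.src g) = p (c.tgt g)) : ∃ φ, c.Flow φ ∧
      (∀ e, p (c.src e) ≠ p (c.tgt e) → φ e = 0) ∧ φ g = 1 := by
  rcases hp with hp | ⟨s, hs, h⟩
  · obtain ⟨φ, hφ, h1⟩ := hc.br g
    exact ⟨φ, hφ, fun e he => absurd (hp e) he, h1⟩
  · obtain ⟨φ, hφ, h1, h2⟩ := M1 s (fun φ hφ => cut3_sum hs h hφ) g (hc.br g) (fun k => by
      by_contra hcon
      push Not at hcon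
      have := hc.sep _ _ hcon
      exact ((h g).2 ⟨k, this.symm⟩) hg)
    refine ⟨φ, hφ, fun e he => ?_, h2⟩
    obtain ⟨k, rfl⟩ := (h e).1 he
    exact h1 k

/-- a piece lies on one side of a cut of size at most three -/
theorem L1c {c : MGraph} (hc : Tgt c) {Z : MGraph} (hZ : Piece Z) {f : Z.E → c.E} (hf : CC Z c f)
    {p : c.V → ZMod 2} (hp : Cut3 c p) :
    (∀ e, ¬ (p (c.src (f e)) = 1 ∧ p (c.tgt (f e)) = 1)) ∨
      (∀ e, ¬ (p (c.src (f e)) = 0 ∧ p (c.tgt (f e)) = 0)) := by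
  classical
  have hinj := hZ.mn.inj hc.br hf
  have h := hZ.L1 hf (fun g => p (c.src g) = 1 ∧ p (c.tgt g) = 1)
    (fun g => p (c.src g) ≠ p (c.tgt g)) ?_ ?_ ?_
  · rcases h with h | h
    · exact Or.inl h
    · right
      rintro e ⟨h0, h1⟩
      rcases h e with h2 | h2
      · rw [h0] at h2; exact absurd h2.1 (by decide)
      · exact h2 (h0.trans h1.symm)
  · intro s hs
    rcases hp with hp | ⟨t, ht, hp⟩
    · have : s = ∅ := by
        rw [Finset.eq_empty_iff_forall_notMem]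
        intro e he
        exact (hs e he).2 (hp _)
      rw [this]; simp
    · have h1 : s.image f ⊆ univ.image t := by
        intro x hx
        rw [Finset.mem_image] at hx ⊢
        obtain ⟨e, he, rfl⟩ := hx
        obtain ⟨k, hk⟩ := (hp _).1 (hs e he).2
        exact ⟨k, Finset.mem_univ _, hk⟩
      have h2 := Finset.card_le_card h1
      rw [Finset.card_image_of_injective _ hinj] at h2
      refine h2.trans (Finset.card_image_le.trans ?_)
      simp
  · rintro g ⟨h1, h2⟩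
    obtain ⟨φ, hφ, h3, h4⟩ := side_ex hc hp (h1.trans h2.symm)
    refine ⟨_, side_flow p hφ h3 1, fun x hx => if_neg hx, ?_⟩
    rw [if_pos ⟨h1, h2⟩]; exact h4
  · intro g h1 h2
    rw [not_not] at h2
    obtain ⟨φ, hφ, h3, h4⟩ := side_ex hc hp h2
    refine ⟨_, side_flow p hφ h3 0, fun x hx => if_neg (fun h => ?_), ?_⟩
    · rw [hx.1] at h; exact absurd h.1 (by decide)
    · have : p (c.src g) = 0 ∧ p (c.tgt g) = 0 := by
        rw [← h2, and_self] at h1 ⊢
        rcases z2 (p (c.src g)) with h | h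
        · exact h
        · exact absurd h h1
      rw [if_pos this]; exact h4

end Pool.Agent.Y413.PO
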