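import Pool.Agent.Y413.PO.Dsum
import Pool.Agent.Y413.Desc
import Pool.Agent.W831.CP.Order

set_option autoImplicit false
set_option linter.dupNamespace false

/-!
Every countable partial order embeds in the cycle-continuous order strictly below every graph
without cut-edges.
-/

open Finset

namespace Pool.Agent.Y413.PO

open Pool.Agent.H160R2.CC Pool.Agent.H160R2.CC.MGraph Pool.Agent.W829.CC

open Pool.Agent.W831.CP (sz)

universe u

instance sz_ne (a : ℕ) : NeZero (2 * sz a) := ⟨by unfold sz; omega⟩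

/-- `A` together with the rings of lengths `6 · sz a`, `a ∈ U` -/
def GU (A : MGraph) (XP : Pc) (K : ℕ) (U : Finset ℕ) : MGraph :=
  ds (Option U) (fun o => o.elim A (fun a => SN XP K (2 * sz a)))

lemma not_minimal_iff (G : MGraph) : ¬ G.IsMinimal ↔ G.Bridgeless := by
  rw [minimal_iff, hasCutEdge_iff]

section
variable {A : MGraph} {XP : Pc} {K : ℕ}

lemma GU_br (hA : A.Bridgeless) (U : Finset ℕ) : (GU A XP K U).Bridgeless :=
  ds_br (by
    rintro (_ | a)
    · exact hA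
    · exact SN_br XP K _)

lemma GU_part (hA : A.Bridgeless) (U : Finset ℕ) (i : Option U) :
    (Option.elim i A (fun a => SN XP K (2 * sz a))).Bridgeless := by
  rcases i with _ | a
  · exact hA
  · exact SN_br XP K _

lemma GU_in (U : Finset ℕ) : ∃ f, CC A (GU A XP K U) f :=
  ⟨_, ds_in (G := fun o : Option U => o.elim A (fun a => SN XP K (2 * sz a))) none⟩

lemma GU_in' (U : Finset ℕ) (a : U) : ∃ f, CC (SN XP K (2 * sz a)) (GU A XP K U) f :=
  ⟨_, ds_in (G := fun o : Option U => o.elim A (fun a => SN XP K (2 * sz a))) (some a)⟩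

lemma GU_map {U U' : Finset ℕ} (h : ∀ a ∈ U, ∃ b ∈ U', sz b ∣ sz a) :
    ∃ f, CC (GU A XP K U) (GU A XP K U') f := by
  refine ds_map ?_
  rintro (_ | ⟨a, ha⟩)
  · exact GU_in U'
  · obtain ⟨b, hb, hab⟩ := h a ha
    obtain ⟨f, hf⟩ := SN_fwd (XP := XP) (K := K) (N := 2 * sz a) (M := 2 * sz b)
      (Nat.mul_dvd_mul_left 2 hab)
    obtain ⟨g, hg⟩ := GU_in' (A := A) (XP := XP) (K := K) U' ⟨b, hb⟩
    exact ⟨_, hg.comp hf⟩

lemma GU_no (hX : Crit XP.G) {c : MGraph} (hc : Tgt c) (hcard : Fintype.card c.V ≤ 16 + 2 * K)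
    (hAc : ∃ f, CC A c f) {U : Finset ℕ} {a : ℕ} (ha : a ∈ U) :
    ¬ ∃ f, CC (GU A XP K U) A f := by
  rintro ⟨f, hf⟩
  obtain ⟨g, hg⟩ := hAc
  obtain ⟨k, hk⟩ := GU_in' (A := A) (XP := XP) (K := K) U ⟨a, ha⟩
  exact SN_no hX hc hcard ((hg.comp hf).comp hk)

lemma GU_rev (hX : Crit XP.G) (hA : A.Bridgeless) {c : MGraph} (hc : Tgt c)
    (hcard : Fintype.card c.V ≤ 16 + 2 * K) (hAc : ∃ f, CC A c f) {U U' : Finset ℕ}
    (h : ∃ f, CC (GU A XP K U) (GU A XP K U') f) : ∀ a ∈ U, ∃ b ∈ U', sz b ∣ sz a := by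
  intro a ha
  obtain ⟨f, hf⟩ := h
  obtain ⟨k, hk⟩ := GU_in' (A := A) (XP := XP) (K := K) U ⟨a, ha⟩
  obtain ⟨i, g, hg⟩ := ds_ring (I := Option U')
    (G := fun o : Option U' => o.elim A (fun a => SN XP K (2 * sz a)))
    (fun i => GU_part hA U' i) (hf.comp hk)
  rcases i with _ | ⟨b, hb⟩
  · exfalso
    obtain ⟨g', hg'⟩ := hAc
    exact SN_no hX hc hcard (hg'.comp hg)
  · refine ⟨b, hb, ?_⟩
    have := SN_rev hX (N := 2 * sz a) (M := 2 * sz b) ⟨_, rfl⟩ hg
    exact (Nat.mul_dvd_mul_iff_left (by norm_num : 0 < 2)).1 this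

end

/-- every countable partial order embeds strictly below `A` -/
theorem poset_below (A : MGraph) (hA : ¬ A.IsMinimal) (P : Type u) [PartialOrder P] [Countable P] :
    ∃ G : P → MGraph, (∀ p, ¬ (G p).IsMinimal ∧ Succ A (G p) ∧ ¬ Succ (G p) A) ∧
      ∀ p q, Succ (G p) (G q) ↔ p ≤ q := by
  classical
  rw [not_minimal_iff] at hA
  obtain ⟨c, hc, hAc⟩ := exists_minG A hA
  obtain ⟨X, hX⟩ := exists_crit
  obtain ⟨XP, rfl⟩ := crit_pc hX
  have hcard : Fintype.card c.V ≤ 16 + 2 * Fintype.card c.V := by omega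
  obtain ⟨U, -, hU⟩ := Pool.Agent.W831.CP.order_rep (P := WithBot P)
  refine ⟨fun p => GU A XP (Fintype.card c.V) (U (p : WithBot P)), fun p => ⟨?_, ?_, ?_⟩,
    fun p q => ?_⟩
  · rw [not_minimal_iff]
    exact GU_br hA _
  · exact succ_iff.2 (GU_in _)
  · have hne : ∃ a, a ∈ U (p : WithBot P) := by
      by_contra hcon
      push Not at hcon
      have := (hU (p : WithBot P) ⊥).1 (fun a ha => absurd ha (hcon a))
      exact absurd this (WithBot.not_coe_le_bot p)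
    obtain ⟨a, ha⟩ := hne
    rw [succ_iff]
    exact GU_no hX hc.tgt hcard hAc ha
  · rw [succ_iff, ← WithBot.coe_le_coe, ← hU]
    exact ⟨fun h => GU_rev hX hA hc.tgt hcard hAc h, fun h => GU_map h⟩

end Pool.Agent.Y413.PO
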