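import Pool.Agent.Y413.PO.Piece

set_option autoImplicit false
set_option linter.dupNamespace false

/-!
Two pieces of different sizes cannot be mapped to the same side of a cut of size three that is the
image of a star of each of them.
-/

open Finset

namespace Pool.Agent.Y413.PO

open Pool.Agent.H160R2.CC Pool.Agent.H160R2.CC.MGraph

/-- three edges with sum zero form a cut -/
lemma cut_of_sum {c : MGraph} {s : Fin 3 → c.E} (hs : Function.Injective s)
    (h : ∀ φ, c.Flow φ → φ (s 0) + φ (s 1) + φ (s 2) = 0) :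
    ∃ q : c.V → ZMod 2, ∀ e, q (c.src e) ≠ q (c.tgt e) ↔ ∃ k, s k = e := by
  have h01 : s 0 ≠ s 1 := fun h => absurd (hs h) (by decide)
  have h02 : s 0 ≠ s 2 := fun h => absurd (hs h) (by decide)
  have h12 : s 1 ≠ s 2 := fun h => absurd (hs h) (by decide)
  obtain ⟨p, hp⟩ := coboundary (G := c) (fun e => (if e = s 0 then 1 else 0) +
    (if e = s 1 then 1 else 0) + (if e = s 2 then 1 else 0)) (by
      intro φ hφ
      simp_rw [add_mul, ite_mul, one_mul, zero_mul]
      rw [Finset.sum_add_distrib, Finset.sum_add_distrib, Finset.sum_ite_eq', Finset.sum_ite_eq',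
        Finset.sum_ite_eq']
      simpa using h φ hφ)
  refine ⟨p, fun e => ?_⟩
  have he := hp e
  have hz : ∀ a b : ZMod 2, a ≠ b ↔ a + b = 1 := by decide
  rw [hz, ← he]
  constructor
  · intro h1
    by_contra hcon
    push Not at hcon
    rw [if_neg (fun h => hcon 0 h.symm), if_neg (fun h => hcon 1 h.symm),
      if_neg (fun h => hcon 2 h.symm)] at h1
    exact absurd h1 (by decide)
  · rintro ⟨k, rfl⟩
    fin_cases k
    · change (if s 0 = s 0 then (1 : ZMod 2) else 0) + (if s 0 = s 1 then 1 else 0) +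
        (if s 0 = s 2 then 1 else 0) = 1
      rw [if_pos rfl, if_neg h01, if_neg h02]; rfl
    · change (if s 1 = s 0 then (1 : ZMod 2) else 0) + (if s 1 = s 1 then 1 else 0) +
        (if s 1 = s 2 then 1 else 0) = 1
      rw [if_neg h01.symm, if_pos rfl, if_neg h12]; rfl
    · change (if s 2 = s 0 then (1 : ZMod 2) else 0) + (if s 2 = s 1 then 1 else 0) +
        (if s 2 = s 2 then 1 else 0) = 1
      rw [if_neg h02.symm, if_neg h12.symm, if_pos rfl]; rfl

/-- the cut function of the image of a star, normalised so that the piece is not inside the side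
with value one -/
lemma star_cut {c : MGraph} (hc : Tgt c) {Z : MGraph} (hZ : Piece Z) {f : Z.E → c.E}
    (hf : CC Z c f) {v : Z.V} {a : Fin 3 → Z.E} (ha : Z.IsStar v a) :
    ∃ q : c.V → ZMod 2, (∀ e, q (c.src e) ≠ q (c.tgt e) ↔ ∃ k, f (a k) = e) ∧
      ∀ e, ¬ (q (c.src (f e)) = 1 ∧ q (c.tgt (f e)) = 1) := by
  have hinj := hZ.mn.inj hc.br hf
  have hs : ∀ φ, c.Flow φ → φ ((f ∘ a) 0) + φ ((f ∘ a) 1) + φ ((f ∘ a) 2) = 0 := by
    intro φ hφ
    have := hf φ hφ v
    rwa [star_sum ha] at this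
  obtain ⟨q, hq⟩ := cut_of_sum (hinj.comp ha.1) hs
  rcases L1c hc hZ hf (p := q) (Or.inr ⟨f ∘ a, hinj.comp ha.1, hq⟩) with h | h
  · exact ⟨q, hq, h⟩
  · refine ⟨fun u => q u + 1, fun e => ?_, fun e he => h e ?_⟩
    · have hz : ∀ a b : ZMod 2, a + 1 ≠ b + 1 ↔ a ≠ b := by decide
      change q (c.src e) + 1 ≠ q (c.tgt e) + 1 ↔ _
      rw [hz]; exact hq e
    · have hz : ∀ a : ZMod 2, a + 1 = 1 → a = 0 := by decide
      exact ⟨hz _ he.1, hz _ he.2⟩

theorem L3core {c : MGraph} (hc : Tgt c) {P X : MGraph} (hP : Piece P) (hX : Piece X)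
    (st : P.V → Fin 3 → P.E) (hst : ∀ v, P.IsStar v (st v))
    (hsimp : ∀ v w, v ≠ w → ∀ i j k l, st v i = st w k → st v j = st w l → i = j)
    (hcard : Fintype.card P.E < Fintype.card X.E) {f : P.E → c.E} {g : X.E → c.E}
    (hf : CC P c f) (hg : CC X c g)
    (hq : ∀ v : P.V, ∃ q : c.V → ZMod 2, (∀ e, q (c.src e) ≠ q (c.tgt e) ↔ ∃ k, f (st v k) = e) ∧
      (∀ e, ¬ (q (c.src (f e)) = 1 ∧ q (c.tgt (f e)) = 1)) ∧
      (∀ e, ¬ (q (c.src (g e)) = 1 ∧ q (c.tgt (g e)) = 1)))
    (hco : ∃ x y, f x = g y) : False := by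
  classical
  have hfi := hP.mn.inj hc.br hf
  have hgi := hX.mn.inj hc.br hg
  have z2' : ∀ a : ZMod 2, a ≠ 1 → a = 0 := by decide
  choose q hq1 hq2 hq3 using hq
  have hinc : ∀ v x, q v (c.src (f x)) + q v (c.tgt (f x)) = P.inc v x := by
    intro v x
    rw [(hst v).2 x]
    have hz : ∀ a b : ZMod 2, a ≠ b → a + b = 1 := by decide
    by_cases h : ∃ k, st v k = x
    · rw [if_pos h]
      obtain ⟨k, hk⟩ := h
      exact hz _ _ ((hq1 v _).2 ⟨k, by rw [hk]⟩)
    · rw [if_neg h]
      have : ¬ q v (c.src (f x)) ≠ q v (c.tgt (f x)) := by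
        rw [hq1 v]
        rintro ⟨k, hk⟩
        exact h ⟨k, hfi hk⟩
      rw [not_not] at this
      rw [this]; exact z2_add_self _
  have hzero : ∀ v x, P.inc v x = 0 → q v (c.src (f x)) = 0 ∧ q v (c.tgt (f x)) = 0 := by
    intro v x h
    have h1 := z2_eq_of_add _ _ ((hinc v x).trans h)
    have h2 := hq2 v x
    rw [← h1, and_self] at h2 ⊢
    exact z2' _ h2
  have hout : ∀ v e, (∀ x, f x ≠ e) → q v (c.src e) = q v (c.tgt e) := by
    intro v e he
    by_contra hcon
    obtain ⟨k, hk⟩ := (hq1 v e).1 hcon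
    exact he _ hk
  let Q : c.V → ZMod 2 := fun u => ∑ v, q v u
  have hQ : ∀ e, Q (c.src e) = Q (c.tgt e) := by
    intro e
    by_cases he : ∃ x, f x = e
    · obtain ⟨x, rfl⟩ := he
      apply z2_eq_of_add
      change ∑ v, q v (c.src (f x)) + ∑ v, q v (c.tgt (f x)) = 0
      rw [← Finset.sum_add_distrib]
      simp_rw [hinc]
      unfold inc
      rw [Finset.sum_add_distrib, Finset.sum_ite_eq, Finset.sum_ite_eq]
      simp only [Finset.mem_univ, if_true]
      decide
    · push Not at he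
      exact Finset.sum_congr rfl (fun v _ => hout v e he)
  have hB : ∀ y, (∀ x, f x ≠ g y) → Q (c.src (g y)) = 0 := by
    intro y hy
    refine Finset.sum_eq_zero (fun v _ => ?_)
    have h1 := hout v _ hy
    have h2 := hq3 v y
    rw [← h1, and_self] at h2
    exact z2' _ h2
  have hC : ∀ x, Q (c.src (f x)) = 1 := by
    intro x
    have hne := hP.mn.noloop hP.two x
    have hsum : Q (c.src (f x)) = q (P.src x) (c.src (f x)) + q (P.tgt x) (c.src (f x)) := by
      refine Finset.sum_eq_add (P.src x) (P.tgt x) hne (fun v _ hv => ?_) (by simp) (by simp)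
      refine (hzero v x ?_).1
      rcases z2 (P.inc v x) with h | h
      · exact h
      · rcases (hP.inc_iff v x).1 h with h | h
        · exact absurd h.symm hv.1
        · exact absurd h.symm hv.2
    rw [hsum]
    by_contra hcon
    have heq := z2_eq_of_add _ _ (z2' _ hcon)
    have d1 := hinc (P.src x) x
    have d2 := hinc (P.tgt x) x
    rw [hP.inc_src] at d1
    rw [hP.inc_tgt] at d2
    obtain ⟨φ, hφ, hφ1⟩ := hc.br (f x)
    have horth := cut_orth (G := c) (fun u => q (P.src x) u * q (P.tgt x) u) hφ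
    rw [Finset.sum_eq_single (f x)] at horth
    · rw [hφ1, mul_one] at horth
      have hz : ∀ a b d e : ZMod 2, a + b = 1 → d + e = 1 → a = d → a * d + b * e ≠ 0 := by decide
      exact hz _ _ _ _ d1 d2 heq horth
    · intro e _ he
      have : q (P.src x) (c.src e) * q (P.tgt x) (c.src e) =
          q (P.src x) (c.tgt e) * q (P.tgt x) (c.tgt e) := by
        by_cases hex : ∃ x', f x' = e
        · obtain ⟨x', rfl⟩ := hex
          have hxx : x' ≠ x := fun h => he (by rw [h])
          have hor : P.inc (P.src x) x' = 0 ∨ P.inc (P.tgt x) x' = 0 := by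
            by_contra hcon2
            push Not at hcon2
            have i1 := z2_ne_zero hcon2.1
            have i2 := z2_ne_zero hcon2.2
            have mem : ∀ v y, P.inc v y = 1 → ∃ k, st v k = y := by
              intro v y hvy
              have := (hst v).2 y
              rw [hvy] at this
              by_contra hcon3
              rw [if_neg hcon3] at this
              exact absurd this (by decide)
            obtain ⟨k1, h1⟩ := mem _ _ i1
            obtain ⟨k2, h2⟩ := mem _ _ i2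
            obtain ⟨k3, h3⟩ := mem _ _ (hP.inc_src x)
            obtain ⟨k4, h4⟩ := mem _ _ (hP.inc_tgt x)
            have := hsimp (P.src x) (P.tgt x) hne k1 k3 k2 k4 (h1.trans h2.symm) (h3.trans h4.symm)
            apply hxx
            rw [← h1, this, h3]
          rcases hor with h | h
          · obtain ⟨h1, h2⟩ := hzero _ _ h
            rw [h1, h2, zero_mul, zero_mul]
          · obtain ⟨h1, h2⟩ := hzero _ _ h
            rw [h1, h2, mul_zero, mul_zero]
        · push Not at hex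
          rw [hout _ _ hex, hout _ _ hex]
      rw [this, z2_add_self, zero_mul]
    · intro h; exact absurd (Finset.mem_univ _) h
  obtain ⟨y, hy⟩ : ∃ y, ∀ x, f x ≠ g y := by
    by_contra hcon
    push Not at hcon
    choose k hk using hcon
    have hki : Function.Injective k := by
      intro y y' h
      apply hgi
      rw [← hk, ← hk, h]
    exact absurd (Fintype.card_le_of_injective k hki) (not_le.2 hcard)
  rcases L1c hc hX hg (p := Q) (Or.inl hQ) with h | h
  · obtain ⟨x, y', hxy⟩ := hco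
    apply h y'
    rw [← hxy, ← hQ, and_self]
    exact hC _
  · apply h y
    rw [← hQ, and_self]
    exact hB y hy

theorem L3 {c : MGraph} (hc : Tgt c) {P X : MGraph} (hP : Piece P) (hX : Piece X)
    (st : P.V → Fin 3 → P.E) (hst : ∀ v, P.IsStar v (st v))
    (hsimp : ∀ v w, v ≠ w → ∀ i j k l, st v i = st w k → st v j = st w l → i = j)
    (hcard : Fintype.card P.E < Fintype.card X.E) {f : P.E → c.E} {g : X.E → c.E}
    (hf : CC P c f) (hg : CC X c g) (p : c.V → ZMod 2) (b : P.V) (a' : Fin 3 → X.E)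
    (hb : ∀ e, p (c.src e) ≠ p (c.tgt e) ↔ ∃ k, f (st b k) = e)
    (ha : ∀ e, p (c.src e) ≠ p (c.tgt e) ↔ ∃ k, g (a' k) = e)
    (hPs : ∀ e, ¬ (p (c.src (f e)) = 1 ∧ p (c.tgt (f e)) = 1))
    (hXs : ∀ e, ¬ (p (c.src (g e)) = 1 ∧ p (c.tgt (g e)) = 1)) : False := by
  classical
  have hfi := hP.mn.inj hc.br hf
  have hgi := hX.mn.inj hc.br hg
  have z2' : ∀ a : ZMod 2, a ≠ 1 → a = 0 := by decide
  have hq : ∀ v : P.V, ∃ q : c.V → ZMod 2, (∀ e, q (c.src e) ≠ q (c.tgt e) ↔ ∃ k, f (st v k) = e) ∧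
      (∀ e, ¬ (q (c.src (f e)) = 1 ∧ q (c.tgt (f e)) = 1)) ∧
      (∀ e, ¬ (q (c.src (g e)) = 1 ∧ q (c.tgt (g e)) = 1)) := by
    intro v
    by_cases hvb : v = b
    · subst hvb
      exact ⟨p, hb, hPs, hXs⟩
    · obtain ⟨q, hq1, hq2⟩ := star_cut hc hP hf (hst v)
      refine ⟨q, hq1, hq2, ?_⟩
      have hs : ∀ φ, c.Flow φ → φ ((f ∘ st v) 0) + φ ((f ∘ st v) 1) + φ ((f ∘ st v) 2) = 0 := by
        intro φ hφ
        have := hf φ hφ v
        rwa [star_sum (hst v)] at this
      rcases L1c hc hX hg (p := q) (Or.inr ⟨f ∘ st v, hfi.comp (hst v).1, hq1⟩) with h | h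
      · exact h
      · exfalso
        have key : ∀ k, ∃ j, st v j = st b k := by
          intro k
          obtain ⟨l, hl⟩ := (ha _).1 ((hb (f (st b k))).2 ⟨k, rfl⟩)
          have h1 := hq2 (st b k)
          have h2 := h (a' l)
          rw [hl] at h2
          have h3 : q (c.src (f (st b k))) ≠ q (c.tgt (f (st b k))) := by
            intro h4
            rcases z2 (q (c.src (f (st b k)))) with h5 | h5
            · exact h2 ⟨h5, h4 ▸ h5⟩
            · exact h1 ⟨h5, h4 ▸ h5⟩
          obtain ⟨j, hj⟩ := (hq1 _).1 h3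
          exact ⟨j, hfi hj⟩
        obtain ⟨j0, h0⟩ := key 0
        obtain ⟨j1, h1⟩ := key 1
        have := hsimp v b hvb j0 j1 0 1 h0 h1
        rw [this, h1] at h0
        exact absurd ((hst b).1 h0) (by decide)
  refine L3core hc hP hX st hst hsimp hcard hf hg hq ?_
  obtain ⟨k, hk⟩ := (hb _).1 ((ha (g (a' 0))).2 ⟨0, rfl⟩)
  exact ⟨_, _, hk⟩

/-- a piece does not map to a larger piece -/
theorem no_larger {P X : MGraph} (hP : Piece P) (hX : Piece X)
    (st : P.V → Fin 3 → P.E) (hst : ∀ v, P.IsStar v (st v))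
    (hsimp : ∀ v w, v ≠ w → ∀ i j k l, st v i = st w k → st v j = st w l → i = j)
    (h3 : 3 < Fintype.card P.E) (hcard : Fintype.card P.E < Fintype.card X.E) {f : P.E → X.E}
    (hf : CC P X f) : False := by
  classical
  have hc : Tgt X := hX.mn.tgt
  have hfi := hP.mn.inj hc.br hf
  obtain ⟨x0⟩ : Nonempty P.E := Fintype.card_pos_iff.1 (by omega)
  refine L3core hc hP hX st hst hsimp hcard hf (CC.id X) (fun v => ?_) ⟨x0, f x0, rfl⟩
  obtain ⟨q, hq1, hq2⟩ := star_cut hc hP hf (hst v)
  refine ⟨q, hq1, hq2, ?_⟩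
  have hs : ∀ φ, X.Flow φ → φ ((f ∘ st v) 0) + φ ((f ∘ st v) 1) + φ ((f ∘ st v) 2) = 0 := by
    intro φ hφ
    have := hf φ hφ v
    rwa [star_sum (hst v)] at this
  rcases L1c hc hX (CC.id X) (p := q) (Or.inr ⟨f ∘ st v, hfi.comp (hst v).1, hq1⟩) with h | h
  · exact h
  · exfalso
    have hall : ∀ x, ∃ k, st v k = x := by
      intro x
      have h1 := hq2 x
      have h2 := h (f x)
      have h3 : q (X.src (f x)) ≠ q (X.tgt (f x)) := by
        intro h4
        rcases z2 (q (X.src (f x))) with h5 | h5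
        · exact h2 ⟨h5, h4 ▸ h5⟩
        · exact h1 ⟨h5, h4 ▸ h5⟩
      obtain ⟨j, hj⟩ := (hq1 _).1 h3
      exact ⟨j, hfi hj⟩
    have := Fintype.card_le_of_surjective (st v) hall
    rw [Fintype.card_fin] at this
    omega

end Pool.Agent.Y413.PO
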